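import Pool.Agent.ADN.Defs
import Pool.Agent.AD.Tlat
import Pool.Agent.AD.Div

/-!
# ADN-FgeT

`Fge n` = span of the words of length at least `n`; it is a T-ideal for `n ≥ 1`.
-/

namespace ADN

open AD

private theorem fget_mon_append (u v : List ℕ) : mon (u ++ v) = mon u * mon v := by
  unfold mon
  rw [List.map_append, List.prod_append]

private theorem fget_mem {n : ℕ} {w : List ℕ} (h : n ≤ w.length) : mon w ∈ Fge n :=
  Submodule.subset_span ⟨w, h, rfl⟩

private theorem fget_mul {a b : ℕ} {f g : P} (hf : f ∈ Fge a) (hg : g ∈ Fge b) : f * g ∈ Fge (a + b) := by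
  induction hf using Submodule.span_induction with
  | mem f hf =>
    obtain ⟨u, hu, rfl⟩ := hf
    induction hg using Submodule.span_induction with
    | mem g hg =>
      obtain ⟨v, hv, rfl⟩ := hg
      rw [← fget_mon_append]
      exact fget_mem (by rw [List.length_append]; omega)
    | zero => rw [mul_zero]; exact Submodule.zero_mem _
    | add x y _ _ hx hy => rw [mul_add]; exact Submodule.add_mem _ hx hy
    | smul c x _ hx => rw [mul_smul_comm]; exact Submodule.smul_mem _ _ hx
  | zero => rw [zero_mul]; exact Submodule.zero_mem _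
  | add x y _ _ hx hy => rw [add_mul]; exact Submodule.add_mem _ hx hy
  | smul c x _ hx => rw [smul_mul_assoc]; exact Submodule.smul_mem _ _ hx

theorem Fge_anti : Antitone Fge := by
  intro a b hab
  refine Submodule.span_mono ?_
  rintro f ⟨w, hw, rfl⟩
  exact ⟨w, hab.trans hw, rfl⟩

private theorem fget_Pp {f : P} (hf : f ∈ Pp) : f ∈ Fge 1 := by
  obtain ⟨n, hn⟩ := exists_mem_Pn hf
  refine (Submodule.span_mono (R := ℤ) ?_ : Pn n ≤ Fge 1) hn
  rintro g ⟨w, hw, _, rfl⟩
  exact ⟨w, List.length_pos_of_ne_nil hw, rfl⟩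

private theorem fget_top (f : P) : f ∈ Fge 0 := by
  have h1 : f - (aug f) • (1 : P) ∈ Pp := by
    rw [trans_aug_Pp]
    simp
  have h2 : (1 : P) ∈ Fge 0 := by
    have : (1 : P) = mon [] := by simp [mon]
    rw [this]
    exact fget_mem (Nat.zero_le _)
  have h3 : f = (f - (aug f) • (1 : P)) + (aug f) • (1 : P) := by abel
  rw [h3]
  exact Submodule.add_mem _ (Fge_anti (Nat.zero_le 1) (fget_Pp h1)) (Submodule.smul_mem _ _ h2)

private theorem fget_subst (φ : P →ₐ[ℤ] P) (hφ : IsSubst φ) (w : List ℕ) : φ (mon w) ∈ Fge w.length := by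
  induction w with
  | nil => exact fget_top _
  | cons a w ih =>
    have e : mon (a :: w) = X a * mon w := by simp [mon]
    rw [e, map_mul, List.length_cons, add_comm]
    exact fget_mul (fget_Pp ((trans_aug_Pp _).2 (hφ a))) ih

theorem isT_Fge (n : ℕ) (hn : 1 ≤ n) : IsT (Fge n) := by
  refine ⟨?_, ?_, ?_, ?_⟩
  · refine Submodule.span_le.2 ?_
    rintro f ⟨w, hw, rfl⟩
    refine mon_mem_Pp ?_
    rintro rfl
    simp at hw
    omega
  · intro f hf g
    have := fget_mul hf (fget_top g)
    rwa [add_zero] at this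
  · intro f hf g
    have := fget_mul (fget_top g) hf
    rwa [zero_add] at this
  · intro φ hφ f hf
    induction hf using Submodule.span_induction with
    | mem f hf =>
      obtain ⟨w, hw, rfl⟩ := hf
      exact Fge_anti hw (fget_subst φ hφ w)
    | zero => rw [map_zero]; exact Submodule.zero_mem _
    | add x y _ _ hx hy => rw [map_add]; exact Submodule.add_mem _ hx hy
    | smul c x _ hx => rw [map_smul]; exact Submodule.smul_mem _ _ hx

theorem Fge_le {D : Submodule ℤ P} {n : ℕ} (h : NilAt D n) : Fge n ≤ D := by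
  refine Submodule.span_le.2 ?_
  rintro f ⟨w, hw, rfl⟩
  exact h w hw

theorem nilAt_of_le {D : Submodule ℤ P} {n : ℕ} (h : Fge n ≤ D) : NilAt D n := fun _ hw =>
  h (fget_mem hw)

end ADN
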