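import Pool.Agent.ADN.Defs

/-!
# ADN: the two `ℤ`-algebra structures on `Unitization ℤ R` give the same evaluations

In `Sat R f` the map `FreeAlgebra.lift ℤ` uses `Unitization.instAlgebra`; in `Ctx U` with `U = Unitization ℤ R` it uses
`Ring.toIntAlgebra`.
-/

namespace ADN

open AD

/-- evaluation in a ring `U`, with the canonical structure of a `ℤ`-algebra -/
noncomputable def ev {U : Type} [Ring U] (y : ℕ → U) : P →ₐ[ℤ] U := FreeAlgebra.lift ℤ y

theorem ev_eq_lift {R : Type} [NonUnitalRing R] (y : ℕ → Unitization ℤ R) (f : P) :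
    ev y f = FreeAlgebra.lift ℤ y f := by
  have h : Ring.toIntAlgebra (Unitization ℤ R) = Unitization.instAlgebra ℤ ℤ R :=
    Subsingleton.elim _ _
  unfold ev
  rw [h]

theorem ev_def {U : Type} [Ring U] (y : ℕ → U) (f : P) :
    ev y f = FreeAlgebra.lift ℤ y f := rfl

end ADN
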