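import Pool.Agent.ADN.Defs
import Pool.Agent.AD.Tlat
import Pool.Agent.ADN.FgeT

/-!
# ADN-T3a

Coefficients of noncommutative polynomials, and the T-ideal of the nilpotent rings of class 3 and exponent
`p`: it is `mulI p Pp ⊔ Fge 4`.
-/

namespace ADN

open AD

theorem cf_add (w : List ℕ) (f g : P) : cf w (f + g) = cf w f + cf w g := by
  unfold cf
  rw [map_add, MonoidAlgebra.coeff_add, Finsupp.add_apply]

theorem cf_smul (w : List ℕ) (n : ℤ) (f : P) : cf w (n • f) = n * cf w f := by
  unfold cf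
  rw [map_smul, MonoidAlgebra.coeff_smul, Finsupp.smul_apply, smul_eq_mul]

private theorem t3_X (a : ℕ) : FreeAlgebra.equivMonoidAlgebraFreeMonoid (R := ℤ) (X a) =
    MonoidAlgebra.single (FreeMonoid.of a) (1 : ℤ) := by
  show FreeAlgebra.lift ℤ (fun x => MonoidAlgebra.of ℤ (FreeMonoid ℕ) (FreeMonoid.of x)) (X a) = _
  rw [FreeAlgebra.lift_ι_apply]
  rfl

private theorem t3_mon (u : List ℕ) : FreeAlgebra.equivMonoidAlgebraFreeMonoid (R := ℤ) (mon u) =
    MonoidAlgebra.single (FreeMonoid.ofList u) (1 : ℤ) := by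
  induction u with
  | nil =>
    have h : mon [] = 1 := by simp [mon]
    rw [h, map_one]
    rfl
  | cons a u ih =>
    have h : mon (a :: u) = X a * mon u := by simp [mon]
    rw [h, map_mul, ih, t3_X, MonoidAlgebra.single_mul_single, one_mul]
    rfl

theorem cf_mon (w u : List ℕ) : cf w (mon u) = if u = w then 1 else 0 := by
  classical
  unfold cf
  rw [t3_mon, MonoidAlgebra.coeff_single, Finsupp.single_apply]
  have h : (FreeMonoid.ofList u = FreeMonoid.ofList w) ↔ u = w := Iff.rfl
  simp only [h]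

/-- every polynomial is the sum of its monomials -/
theorem eq_sum_cf (f : P) : ∃ s : Finset (List ℕ), (∀ w, w ∉ s → cf w f = 0) ∧
    f = ∑ w ∈ s, cf w f • mon w := by
  classical
  refine ⟨((FreeAlgebra.equivMonoidAlgebraFreeMonoid (R := ℤ) f).coeff.support).image
    FreeMonoid.toList, fun w hw => ?_, ?_⟩
  · by_contra hc
    apply hw
    rw [Finset.mem_image]
    exact ⟨FreeMonoid.ofList w, Finsupp.mem_support_iff.2 hc, rfl⟩
  · apply (FreeAlgebra.equivMonoidAlgebraFreeMonoid (R := ℤ) (X := ℕ)).injective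
    rw [map_sum, Finset.sum_image (FreeMonoid.toList.injective.injOn)]
    conv_lhs => rw [← MonoidAlgebra.sum_coeff_single
      (FreeAlgebra.equivMonoidAlgebraFreeMonoid (R := ℤ) (X := ℕ) f)]
    rw [Finsupp.sum]
    refine Finset.sum_congr rfl fun m _ => ?_
    rw [map_smul, t3_mon, MonoidAlgebra.smul_single, smul_eq_mul, mul_one]
    rfl

private theorem t3_aug (w : List ℕ) : aug (mon w) = if w = [] then 1 else 0 := by
  cases w with
  | nil => simp [mon]
  | cons a w => simp [mon, aug]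

theorem cf_nil (f : P) : cf [] f = aug f := by
  obtain ⟨s, hs, hf⟩ := eq_sum_cf f
  have h : aug f = ∑ w ∈ s, cf w f * (if w = [] then 1 else 0) := by
    conv_lhs => rw [hf]
    rw [map_sum]
    refine Finset.sum_congr rfl fun w _ => ?_
    rw [map_smul, t3_aug, smul_eq_mul]
  rw [h]
  simp only [mul_ite, mul_one, mul_zero]
  rw [Finset.sum_ite_eq']
  split_ifs with h1
  · rfl
  · exact hs [] h1

private theorem t3_short {w : List ℕ} (hw : w.length ≤ 3) {f : P} (hf : f ∈ Fge 4) :
    cf w f = 0 := by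
  unfold Fge at hf
  induction hf using Submodule.span_induction with
  | mem x hx =>
    obtain ⟨u, hu, rfl⟩ := hx
    rw [cf_mon, if_neg]
    rintro rfl
    omega
  | zero =>
    have := cf_smul w 0 0
    rwa [zero_smul, zero_mul] at this
  | add x y _ _ hx hy => rw [cf_add, hx, hy, add_zero]
  | smul a x _ hx => rw [cf_smul, hx, mul_zero]

theorem exists_T3 (p : ℕ) : ∃ T, IsT3 p T ∧ NilAt T 4 := by
  have hT : IsT (mulI (p : ℤ) Pp ⊔ Fge 4) := isT_sup (isT_mulI isT_Pp p) (isT_Fge 4 (by norm_num))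
  refine ⟨mulI (p : ℤ) Pp ⊔ Fge 4, ⟨hT, ?_⟩, nilAt_of_le le_sup_right⟩
  ext f
  constructor
  · intro hf
    refine ⟨hT.le hf, fun w hw => ?_⟩
    obtain ⟨y, hy, z, hz, rfl⟩ := Submodule.mem_sup.1 hf
    obtain ⟨g, _, rfl⟩ := Submodule.mem_map.1 hy
    rw [cf_add, t3_short hw hz, add_zero]
    have h1 : cf w ((LinearMap.lsmul ℤ P (p : ℤ)) g) = (p : ℤ) * cf w g := cf_smul w p g
    rw [h1]
    exact dvd_mul_right _ _
  · rintro ⟨hf, hdvd⟩
    obtain ⟨s, hs, hsum⟩ := eq_sum_cf f
    rw [SetLike.mem_coe, hsum]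
    refine Submodule.sum_mem _ fun w _ => ?_
    by_cases hw : w.length ≤ 3
    · by_cases hnil : w = []
      · have h0 : cf w f = 0 := by
          rw [hnil, cf_nil]
          exact hf
        rw [h0, zero_smul]
        exact Submodule.zero_mem _
      · obtain ⟨m, hm⟩ := hdvd w hw
        refine Submodule.mem_sup_left (Submodule.mem_map.2 ⟨m • mon w,
          Submodule.smul_mem _ _ (mon_mem_Pp hnil), ?_⟩)
        rw [hm, mul_smul]
        rfl
    · exact Submodule.mem_sup_right (Submodule.smul_mem _ _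
        (Submodule.subset_span ⟨w, by omega, rfl⟩))

end ADN
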