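import Pool.Agent.ADN.Defs
import Pool.Agent.ADN.T3a
import Pool.Agent.AD.Tlat

/-!
# ADN-Cubic

Polarisation: an identity with a coefficient not divisible by `p` at a word of length `≤ 3` gives a
cubic identity in the letters `0, 1, 2`.
-/

namespace ADN

open AD

/-- the coefficient as a linear map -/
private noncomputable def cubL (w : List ℕ) : P →ₗ[ℤ] ℤ where
  toFun := cf w
  map_add' := cf_add w
  map_smul' n f := by
    rw [cf_smul]
    rfl

private theorem cub_sub (w : List ℕ) (f g : P) : cf w (f - g) = cf w f - cf w g :=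
  map_sub (cubL w) f g

/-- a linear map evaluated on the monomials -/
private theorem cub_lin (T : P →ₗ[ℤ] P) (w v : List ℕ) (c : List ℕ → ℤ)
    (h : ∀ u, cf w (T (mon u)) = if u = v then c u else 0) (f : P) :
    cf w (T f) = cf v f * c v := by
  obtain ⟨s, hs1, hs2⟩ := eq_sum_cf f
  have e1 : cf w (T f) = ∑ u ∈ s, cf u f * (if u = v then c u else 0) := by
    conv_lhs => rw [hs2]
    have e2 : cf w (T (∑ u ∈ s, cf u f • mon u)) = cubL w (T (∑ u ∈ s, cf u f • mon u)) := rfl
    rw [e2, map_sum, map_sum]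
    refine Finset.sum_congr rfl fun u _ => ?_
    rw [map_smul]
    show cf w (cf u f • T (mon u)) = _
    rw [cf_smul, h]
  rw [e1]
  by_cases hv : v ∈ s
  · rw [Finset.sum_eq_single_of_mem v hv fun u _ huv => by rw [if_neg huv, mul_zero], if_pos rfl]
  · rw [hs1 v hv, zero_mul]
    refine Finset.sum_eq_zero fun u hu => ?_
    rw [if_neg (fun h' : u = v => hv (h' ▸ hu)), mul_zero]

private theorem cub_mulr (w : List ℕ) (N : ℕ) (f : P) : cf (w ++ [N]) (f * X N) = cf w f := by
  have h := cub_lin (LinearMap.mulRight ℤ (X N)) (w ++ [N]) w (fun _ => 1) (fun u => by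
    have e : (LinearMap.mulRight ℤ (X N)) (mon u) = mon (u ++ [N]) := by
      show mon u * X N = mon (u ++ [N])
      unfold mon
      rw [List.map_append, List.prod_append, List.map_singleton, List.prod_singleton]
    rw [e, cf_mon]
    by_cases hu : u = w
    · rw [if_pos hu, if_pos (by rw [hu])]
    · rw [if_neg hu, if_neg (fun h' => hu (List.append_cancel_right h'))]) f
  rw [mul_one] at h
  exact h

private theorem cub_mull (a b : ℕ) (w : List ℕ) (f : P) :
    cf (a :: w) (X b * f) = if b = a then cf w f else 0 := by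
  by_cases hab : b = a
  · subst hab
    have h := cub_lin (LinearMap.mulLeft ℤ (X b)) (b :: w) w (fun _ => 1) (fun u => by
      have e : (LinearMap.mulLeft ℤ (X b)) (mon u) = mon (b :: u) := by
        show X b * mon u = mon (b :: u)
        unfold mon
        rw [List.map_cons, List.prod_cons]
      rw [e, cf_mon]
      by_cases hu : u = w
      · rw [if_pos hu, if_pos (by rw [hu])]
      · rw [if_neg hu, if_neg (fun h' => hu (List.cons.inj h').2)]) f
    rw [mul_one] at h
    rw [if_pos rfl]
    exact h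
  · rw [if_neg hab]
    have h := cub_lin (LinearMap.mulLeft ℤ (X b)) (a :: w) w (fun _ => 0) (fun u => by
      have e : (LinearMap.mulLeft ℤ (X b)) (mon u) = mon (b :: u) := by
        show X b * mon u = mon (b :: u)
        unfold mon
        rw [List.map_cons, List.prod_cons]
      rw [e, cf_mon, if_neg (fun h' => hab (List.cons.inj h').1)]
      by_cases hu : u = w
      · rw [if_pos hu]
      · rw [if_neg hu]) f
    rw [mul_zero] at h
    exact h

/-- the substitution killing the variables outside `A` -/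
private noncomputable def cubK (A : ℕ → Prop) [DecidablePred A] : P →ₐ[ℤ] P :=
  FreeAlgebra.lift ℤ fun v => if A v then X v else 0

private theorem cub_aug_X (i : ℕ) : aug (X i) = 0 := by
  unfold aug
  rw [FreeAlgebra.lift_ι_apply]

private theorem cubK_subst (A : ℕ → Prop) [DecidablePred A] : IsSubst (cubK A) := by
  intro i
  unfold cubK
  rw [FreeAlgebra.lift_ι_apply]
  by_cases h : A i
  · rw [if_pos h, cub_aug_X]
  · rw [if_neg h, map_zero]

private theorem cubK_mon (A : ℕ → Prop) [DecidablePred A] (u : List ℕ) :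
    cubK A (mon u) = if ∀ a ∈ u, A a then mon u else 0 := by
  induction u with
  | nil =>
    rw [if_pos (fun a ha => absurd ha List.not_mem_nil)]
    unfold mon
    rw [List.map_nil, List.prod_nil, map_one]
  | cons b u ih =>
    have e : mon (b :: u) = X b * mon u := by
      unfold mon
      rw [List.map_cons, List.prod_cons]
    have e2 : cubK A (X b) = if A b then X b else 0 := by
      unfold cubK
      rw [FreeAlgebra.lift_ι_apply]
    rw [e, map_mul, ih, e2]
    by_cases hb : A b
    · by_cases hu : ∀ a ∈ u, A a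
      · rw [if_pos hb, if_pos hu, if_pos (List.forall_mem_cons.2 ⟨hb, hu⟩)]
      · rw [if_neg hu, mul_zero, if_neg (fun h => hu (List.forall_mem_cons.1 h).2)]
    · rw [if_neg hb, zero_mul, if_neg (fun h => hb (List.forall_mem_cons.1 h).1)]

private theorem cubK_cf (A : ℕ → Prop) [DecidablePred A] (u : List ℕ) (f : P) :
    cf u (cubK A f) = if ∀ a ∈ u, A a then cf u f else 0 := by
  have h := cub_lin (cubK A).toLinearMap u u (fun v => if ∀ a ∈ v, A a then 1 else 0) (fun v => by
    show cf u (cubK A (mon v)) = _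
    rw [cubK_mon]
    by_cases hv : ∀ a ∈ v, A a
    · rw [if_pos hv, cf_mon]
      by_cases huv : v = u
      · rw [if_pos huv, if_pos huv, if_pos hv]
      · rw [if_neg huv, if_neg huv]
    · have e : cf u (0 : P) = 0 := map_zero (cubL u)
      rw [if_neg hv, e]
      by_cases huv : v = u
      · rw [if_pos huv, if_neg hv]
      · rw [if_neg huv]) f
  refine (show cf u (cubK A f) = _ from h).trans ?_
  by_cases hu : ∀ a ∈ u, A a
  · rw [if_pos hu, if_pos hu, mul_one]
  · rw [if_neg hu, if_neg hu, mul_zero]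

/-- the part in which all words contain the letter `l` -/
private noncomputable def cubD (l : ℕ) (f : P) : P := f - cubK (fun v => v ≠ l) f

private theorem cubD_cf (l : ℕ) (f : P) (u : List ℕ) :
    cf u (cubD l f) = if l ∈ u then cf u f else 0 := by
  unfold cubD
  rw [cub_sub, cubK_cf]
  by_cases h : l ∈ u
  · rw [if_pos h, if_neg (fun h' => h' l h rfl), sub_zero]
  · rw [if_neg h, if_pos (fun a ha (hal : a = l) => h (hal ▸ ha)), sub_self]

private theorem cubD_mem {I : Submodule ℤ P} (hI : IsT I) (l : ℕ) {f : P} (hf : f ∈ I) :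
    cubD l f ∈ I :=
  I.sub_mem hf (hI.subst _ (cubK_subst _) f hf)

/-- the polarisation -/
private noncomputable def cubPhi (w : Fin 3 → ℕ) : P →ₐ[ℤ] P :=
  FreeAlgebra.lift ℤ fun v => ∑ l : Fin 3, if w l = v then X l.val else 0

private theorem cubPhi_X (w : Fin 3 → ℕ) (v : ℕ) :
    cubPhi w (X v) = ∑ l : Fin 3, if w l = v then X l.val else 0 := by
  unfold cubPhi
  rw [FreeAlgebra.lift_ι_apply]

private theorem cubPhi_subst (w : Fin 3 → ℕ) : IsSubst (cubPhi w) := by
  intro i
  rw [cubPhi_X, map_sum]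
  refine Finset.sum_eq_zero fun l _ => ?_
  by_cases h : w l = i
  · rw [if_pos h, cub_aug_X]
  · rw [if_neg h, map_zero]

private theorem cubPhi_cf_mon (w : Fin 3 → ℕ) (v : List (Fin 3)) (u : List ℕ) :
    cf (v.map Fin.val) (cubPhi w (mon u)) = if u = v.map w then 1 else 0 := by
  induction u generalizing v with
  | nil =>
    have e : cubPhi w (mon []) = mon [] := by
      unfold mon
      rw [List.map_nil, List.prod_nil, map_one]
    rw [e, cf_mon]
    cases v with
    | nil => rfl
    | cons l v =>
      rw [if_neg (by rw [List.map_cons]; exact fun h => by cases h),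
        if_neg (by rw [List.map_cons]; exact fun h => by cases h)]
  | cons b u ih =>
    have e : mon (b :: u) = X b * mon u := by
      unfold mon
      rw [List.map_cons, List.prod_cons]
    rw [e, map_mul]
    cases v with
    | nil =>
      rw [List.map_nil, cf_nil, map_mul, cubPhi_subst w b, zero_mul, List.map_nil,
        if_neg (fun h => by cases h)]
    | cons l v =>
      rw [List.map_cons, List.map_cons, cubPhi_X, Finset.sum_mul]
      have e2 : cf (l.val :: v.map Fin.val)
          (∑ l' : Fin 3, (if w l' = b then X l'.val else 0) * cubPhi w (mon u)) =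
          ∑ l' : Fin 3, cf (l.val :: v.map Fin.val)
            ((if w l' = b then X l'.val else 0) * cubPhi w (mon u)) :=
        map_sum (cubL (l.val :: v.map Fin.val)) _ _
      have e3 : ∀ l' : Fin 3, cf (l.val :: v.map Fin.val)
          ((if w l' = b then X l'.val else 0) * cubPhi w (mon u)) =
          if l' = l then (if b :: u = w l :: v.map w then 1 else 0) else 0 := by
        intro l'
        by_cases h1 : w l' = b
        · rw [if_pos h1, cub_mull, ih]
          by_cases h2 : l' = l
          · subst h2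
            rw [if_pos rfl, if_pos rfl]
            by_cases h3 : u = v.map w
            · rw [if_pos h3, if_pos (by rw [h1, h3])]
            · rw [if_neg h3, if_neg (fun h' => h3 (List.cons.inj h').2)]
          · rw [if_neg (fun h' => h2 (Fin.ext h')), if_neg h2]
        · have e4 : cf (l.val :: v.map Fin.val) ((0 : P) * cubPhi w (mon u)) = 0 := by
            rw [zero_mul]
            exact map_zero (cubL _)
          rw [if_neg h1, e4]
          by_cases h2 : l' = l
          · rw [if_pos h2, if_neg (fun h' => h1 (by rw [h2]; exact (List.cons.inj h').1.symm))]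
          · rw [if_neg h2]
      rw [e2, Finset.sum_congr rfl fun l' _ => e3 l', Finset.sum_ite_eq' Finset.univ l,
        if_pos (Finset.mem_univ l)]

private theorem cubPhi_cf (w : Fin 3 → ℕ) (f : P) :
    cf [0, 1, 2] (cubPhi w f) = cf [w 0, w 1, w 2] f := by
  have h := cub_lin (cubPhi w).toLinearMap [0, 1, 2] [w 0, w 1, w 2] (fun _ => 1)
    (fun u => cubPhi_cf_mon w [0, 1, 2] u) f
  rw [mul_one] at h
  exact h

private theorem cub_len3 {I : Submodule ℤ P} (hI : IsT I) {p : ℕ} {F : P} (hF : F ∈ I)
    (h : F ∉ T3set p) : ∃ F' ∈ I, ∃ w : Fin 3 → ℕ, ¬ (p : ℤ) ∣ cf [w 0, w 1, w 2] F' := by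
  have h1 : ∃ w : List ℕ, w.length ≤ 3 ∧ ¬ (p : ℤ) ∣ cf w F := by
    by_contra hcon
    apply h
    refine ⟨hI.le hF, fun w hw => ?_⟩
    by_contra h2
    exact hcon ⟨w, hw, h2⟩
  obtain ⟨w, hw, hpw⟩ := h1
  rcases w with _ | ⟨a, _ | ⟨b, _ | ⟨c, _ | ⟨d, w⟩⟩⟩⟩
  · exfalso
    apply hpw
    rw [cf_nil, (trans_aug_Pp F).1 (hI.le hF)]
    exact dvd_zero _
  · refine ⟨F * X 0 * X 0, hI.mul_right _ (hI.mul_right _ hF _) _, ![a, 0, 0], ?_⟩
    have e := (cub_mulr ([a] ++ [0]) 0 (F * X 0)).trans (cub_mulr [a] 0 F)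
    intro h2
    apply hpw
    rw [← e]
    exact h2
  · refine ⟨F * X 0, hI.mul_right _ hF _, ![a, b, 0], ?_⟩
    have e := cub_mulr [a, b] 0 F
    intro h2
    apply hpw
    rw [← e]
    exact h2
  · exact ⟨F, hF, ![a, b, c], hpw⟩
  · exfalso
    simp only [List.length_cons] at hw
    omega

theorem cubic {I : Submodule ℤ P} (hI : IsT I) {p : ℕ} (hp : p.Prime) {F : P} (hF : F ∈ I)
    (h : F ∉ T3set p) : ∃ G : List (Fin 3) →₀ ℤ, (∀ w ∈ G.support, ∀ i, i ∈ w) ∧
      ¬ (p : ℤ) ∣ G [0, 1, 2] ∧ (G.sum fun w c => c • mon (w.map Fin.val)) ∈ I := by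
  classical
  obtain ⟨F', hF', w, hw⟩ := cub_len3 hI hF h
  obtain ⟨f, hf⟩ : ∃ f : P, f = cubD 0 (cubD 1 (cubD 2
    (cubK (fun v => v < 3) (cubPhi w F')))) := ⟨_, rfl⟩
  have hfI : f ∈ I := by
    rw [hf]
    exact cubD_mem hI _ (cubD_mem hI _ (cubD_mem hI _
      (hI.subst _ (cubK_subst _) _ (hI.subst _ (cubPhi_subst w) _ hF'))))
  have hcf : ∀ u, cf u f = if 0 ∈ u then (if 1 ∈ u then (if 2 ∈ u then
      (if ∀ a ∈ u, a < 3 then cf u (cubPhi w F') else 0) else 0) else 0) else 0 := by
    intro u
    rw [hf, cubD_cf, cubD_cf, cubD_cf, cubK_cf]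
  have hne : ∀ u, cf u f ≠ 0 → 0 ∈ u ∧ 1 ∈ u ∧ 2 ∈ u ∧ ∀ a ∈ u, a < 3 := by
    intro u hu
    rw [hcf] at hu
    by_cases h0 : 0 ∈ u
    · by_cases h1 : 1 ∈ u
      · by_cases h2 : 2 ∈ u
        · by_cases h3 : ∀ a ∈ u, a < 3
          · exact ⟨h0, h1, h2, h3⟩
          · rw [if_pos h0, if_pos h1, if_pos h2, if_neg h3] at hu
            exact absurd rfl hu
        · rw [if_pos h0, if_pos h1, if_neg h2] at hu
          exact absurd rfl hu
      · rw [if_pos h0, if_neg h1] at hu
        exact absurd rfl hu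
    · rw [if_neg h0] at hu
      exact absurd rfl hu
  obtain ⟨s, hs1, hs2⟩ := eq_sum_cf f
  have hinj : Function.Injective (List.map (Fin.val : Fin 3 → ℕ)) :=
    List.map_injective_iff.2 Fin.val_injective
  refine ⟨Finsupp.onFinset (s.preimage (List.map Fin.val) hinj.injOn)
    (fun v => cf (v.map Fin.val) f) (fun v hv => ?_), fun v hv i => ?_, ?_, ?_⟩
  · rw [Finset.mem_preimage]
    by_contra h'
    exact hv (hs1 _ h')
  · rw [Finsupp.mem_support_iff] at hv
    obtain ⟨h0, h1, h2, _⟩ := hne _ hv
    have key : i.val ∈ v.map Fin.val := by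
      have hi := i.2
      obtain ⟨k, hk⟩ : ∃ k, k = i.val := ⟨_, rfl⟩
      rw [← hk] at hi ⊢
      interval_cases k
      · exact h0
      · exact h1
      · exact h2
    obtain ⟨j, hj, hji⟩ := List.mem_map.1 key
    rwa [Fin.val_injective hji] at hj
  · show ¬ (p : ℤ) ∣ cf [0, 1, 2] f
    have e : cf [0, 1, 2] f = cf [w 0, w 1, w 2] F' := by
      rw [hcf, if_pos (by simp), if_pos (by simp), if_pos (by simp), if_pos (by simp), cubPhi_cf]
    rw [e]
    exact hw
  · rw [Finsupp.onFinset_sum _ (fun v => by rw [zero_smul])]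
    have e := Finset.sum_preimage (List.map (Fin.val : Fin 3 → ℕ)) s hinj.injOn
      (fun u => cf u f • mon u) (fun u _ hu => by
        by_cases h0 : cf u f = 0
        · rw [h0, zero_smul]
        · exfalso
          apply hu
          obtain ⟨_, _, _, h3⟩ := hne u h0
          refine ⟨u.map fun a => if h : a < 3 then ⟨a, h⟩ else 0, ?_⟩
          rw [List.map_map]
          conv_rhs => rw [← List.map_id u]
          refine List.map_congr_left fun a ha => ?_
          show ((if h : a < 3 then (⟨a, h⟩ : Fin 3) else 0 : Fin 3) : ℕ) = a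
          rw [dif_pos (h3 a ha)])
    rw [e, ← hs2]
    exact hfI

end ADN
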