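import Pool.Agent.ADN.Defs
import Pool.Agent.ADN.T3a
import Pool.Agent.AD.Trans

/-!
# ADN-X3

Three T-ideals above `T3`: the identities of the rings of strictly upper triangular `4 × 4` matrices over
`ZMod p` with two equal entries on the superdiagonal.  The product of three such matrices is
`x₀₁ y₁₂ z₂₃ E₀₃`; polarisation of this trilinear form gives the divisibilities.
-/

namespace ADN

open AD

private abbrev Mt (p : ℕ) := Matrix (Fin 4) (Fin 4) (ZMod p)

private def Up {p : ℕ} (M : Mt p) : Prop := ∀ i j, j ≤ i → M i j = 0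

private def SS {p : ℕ} (a b c d : Fin 4) (M : Mt p) : Prop := Up M ∧ M a b = M c d

private theorem up_zero {p : ℕ} : Up (0 : Mt p) := fun _ _ _ => rfl

private theorem up_mul {p : ℕ} {M N : Mt p} (hM : Up M) (hN : Up N) : Up (M * N) := by
  intro i j hij
  rw [Matrix.mul_apply]
  apply Finset.sum_eq_zero
  intro k _
  by_cases h : k ≤ i
  · rw [hM i k h, zero_mul]
  · rw [hN k j (by omega), mul_zero]

private theorem up_add {p : ℕ} {M N : Mt p} (hM : Up M) (hN : Up N) : Up (M + N) := by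
  intro i j hij
  rw [Matrix.add_apply, hM i j hij, hN i j hij, add_zero]

private theorem up_smul {p : ℕ} (c : ℤ) {M : Mt p} (hM : Up M) : Up (c • M) := by
  intro i j hij
  rw [Matrix.smul_apply, hM i j hij, smul_zero]

private theorem mul3 {p : ℕ} {x y z : Mt p} (hx : Up x) (hy : Up y) (hz : Up z) :
    x * y * z = Matrix.of (fun i j => if i = 0 ∧ j = 3 then x 0 1 * y 1 2 * z 2 3 else 0) := by
  have hx' : ∀ i j : Fin 4, j ≤ i → x i j = 0 := hx
  have hy' : ∀ i j : Fin 4, j ≤ i → y i j = 0 := hy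
  have hz' : ∀ i j : Fin 4, j ≤ i → z i j = 0 := hz
  ext i j
  fin_cases i <;> fin_cases j <;>
    simp [Matrix.mul_apply, Fin.sum_univ_four, hx', hy', hz']

private theorem mul4 {p : ℕ} {x y z u : Mt p} (hx : Up x) (hy : Up y) (hz : Up z) (hu : Up u) :
    x * (y * (z * u)) = 0 := by
  rw [← mul_assoc, ← mul_assoc, mul3 hx hy hz]
  ext i j
  rw [Matrix.mul_apply]
  simp only [Matrix.of_apply, Matrix.zero_apply]
  apply Finset.sum_eq_zero
  intro k _
  split_ifs with h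
  · rw [h.2, hu 3 j (by omega), mul_zero]
  · rw [zero_mul]

private theorem ss_sup {p : ℕ} (a b : Fin 4) (hab : (a : ℕ) + 1 = b) {M N : Mt p} (hM : Up M)
    (hN : Up N) : (M * N) a b = 0 := by
  rw [Matrix.mul_apply]
  apply Finset.sum_eq_zero
  intro k _
  by_cases h : k ≤ a
  · rw [hM a k h, zero_mul]
  · rw [hN k b (by omega), mul_zero]

private theorem ss_sub {p : ℕ} {a b c d : Fin 4} (hab : (a : ℕ) + 1 = b) (hcd : (c : ℕ) + 1 = d)
    {A : ℕ → Mt p} (hA : ∀ i, SS a b c d (A i)) (g : P) :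
    SS a b c d (FreeAlgebra.lift ℤ A g - algebraMap ℤ (Mt p) (aug g)) := by
  have hz : SS a b c d (0 : Mt p) := ⟨up_zero, rfl⟩
  have hadd : ∀ {M N : Mt p}, SS a b c d M → SS a b c d N → SS a b c d (M + N) := by
    intro M N h1 h2
    refine ⟨up_add h1.1 h2.1, ?_⟩
    rw [Matrix.add_apply, Matrix.add_apply, h1.2, h2.2]
  have hsm : ∀ (n : ℤ) {M : Mt p}, SS a b c d M → SS a b c d (n • M) := by
    intro n M h1
    refine ⟨up_smul n h1.1, ?_⟩
    rw [Matrix.smul_apply, Matrix.smul_apply, h1.2]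
  have hmul : ∀ {M N : Mt p}, SS a b c d M → SS a b c d N → SS a b c d (M * N) := by
    intro M N h1 h2
    refine ⟨up_mul h1.1 h2.1, ?_⟩
    rw [ss_sup a b hab h1.1 h2.1, ss_sup c d hcd h1.1 h2.1]
  induction g using FreeAlgebra.induction with
  | grade0 r =>
    rw [AlgHom.commutes, AlgHom.commutes]
    simpa using hz
  | grade1 i =>
    have h : aug (FreeAlgebra.ι ℤ i) = 0 := by simp [aug, FreeAlgebra.lift_ι_apply]
    rw [h, map_zero, sub_zero, FreeAlgebra.lift_ι_apply]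
    exact hA i
  | mul x y hx hy =>
    have e : FreeAlgebra.lift ℤ A (x * y) - algebraMap ℤ (Mt p) (aug (x * y)) =
        (FreeAlgebra.lift ℤ A x - algebraMap ℤ (Mt p) (aug x)) *
          (FreeAlgebra.lift ℤ A y - algebraMap ℤ (Mt p) (aug y)) +
        (aug y) • (FreeAlgebra.lift ℤ A x - algebraMap ℤ (Mt p) (aug x)) +
        (aug x) • (FreeAlgebra.lift ℤ A y - algebraMap ℤ (Mt p) (aug y)) := by
      rw [Algebra.smul_def, Algebra.smul_def, map_mul, map_mul, map_mul,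
        Algebra.commutes (aug y) (FreeAlgebra.lift ℤ A x - algebraMap ℤ (Mt p) (aug x))]
      noncomm_ring
    rw [e]
    exact hadd (hadd (hmul hx hy) (hsm _ hx)) (hsm _ hy)
  | add x y hx hy =>
    have e : FreeAlgebra.lift ℤ A (x + y) - algebraMap ℤ (Mt p) (aug (x + y)) =
        (FreeAlgebra.lift ℤ A x - algebraMap ℤ (Mt p) (aug x)) +
          (FreeAlgebra.lift ℤ A y - algebraMap ℤ (Mt p) (aug y)) := by
      rw [map_add, map_add, map_add]
      abel
    rw [e]
    exact hadd hx hy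

private theorem lift_mon {p : ℕ} (A : ℕ → Mt p) (w : List ℕ) :
    FreeAlgebra.lift ℤ A (mon w) = (w.map A).prod := by
  unfold mon
  rw [map_list_prod, List.map_map]
  congr 1
  apply List.map_congr_left
  intro i _
  simp [FreeAlgebra.lift_ι_apply]

private theorem long_zero {p : ℕ} (A : ℕ → Mt p) (hA : ∀ i, Up (A i)) (w : List ℕ)
    (hw : 4 ≤ w.length) : (w.map A).prod = 0 := by
  match w, hw with
  | x :: y :: z :: u :: v, _ =>
    rw [List.map_cons, List.map_cons, List.map_cons, List.map_cons, List.prod_cons, List.prod_cons,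
      List.prod_cons, List.prod_cons, ← mul_assoc (A z), ← mul_assoc (A y), ← mul_assoc (A x),
      mul4 (hA x) (hA y) (hA z) (hA u), zero_mul]

private theorem zsmul_zero {p : ℕ} (n : ℤ) (h : (p : ℤ) ∣ n) (M : Mt p) : n • M = 0 := by
  obtain ⟨m, rfl⟩ := h
  ext i j
  rw [Matrix.smul_apply, zsmul_eq_mul]
  push_cast
  rw [CharP.cast_eq_zero, zero_mul, zero_mul, Matrix.zero_apply]

private theorem gen (p : ℕ) (T : Submodule ℤ P) (hT : IsT3 p T) (a b c d : Fin 4)
    (hab : (a : ℕ) + 1 = b) (hcd : (c : ℕ) + 1 = d) :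
    ∃ X : Submodule ℤ P, IsT X ∧ T ≤ X ∧ ∀ f, f ∈ X ↔ aug f = 0 ∧ ∀ A : ℕ → Mt p,
      (∀ i, SS a b c d (A i)) → FreeAlgebra.lift ℤ A f = 0 := by
  let Y : Submodule ℤ P :=
    { carrier := {f | aug f = 0 ∧ ∀ A : ℕ → Mt p,
        (∀ i, SS a b c d (A i)) → FreeAlgebra.lift ℤ A f = 0}
      zero_mem' := ⟨map_zero _, fun A _ => map_zero _⟩
      add_mem' := by
        rintro f g ⟨h1, h2⟩ ⟨h3, h4⟩
        exact ⟨by rw [map_add, h1, h3, add_zero],
          fun A hA => by rw [map_add, h2 A hA, h4 A hA, add_zero]⟩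
      smul_mem' := by
        rintro n f ⟨h1, h2⟩
        exact ⟨by rw [map_smul, h1, smul_zero], fun A hA => by rw [map_smul, h2 A hA, smul_zero]⟩ }
  have hY : ∀ f, f ∈ Y ↔ aug f = 0 ∧ ∀ A : ℕ → Mt p,
      (∀ i, SS a b c d (A i)) → FreeAlgebra.lift ℤ A f = 0 := fun f => Iff.rfl
  refine ⟨Y, ?_, ?_, hY⟩
  · constructor
    · intro f hf
      exact (trans_aug_Pp f).2 hf.1
    · rintro f ⟨h1, h2⟩ g
      exact ⟨by rw [map_mul, h1, zero_mul], fun A hA => by rw [map_mul, h2 A hA, zero_mul]⟩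
    · rintro f ⟨h1, h2⟩ g
      exact ⟨by rw [map_mul, h1, mul_zero], fun A hA => by rw [map_mul, h2 A hA, mul_zero]⟩
    · rintro φ hφ f ⟨h1, h2⟩
      refine ⟨?_, fun A hA => ?_⟩
      · have h3 : aug.comp φ = aug := by
          apply FreeAlgebra.hom_ext
          funext i
          have := hφ i
          simp [aug, FreeAlgebra.lift_ι_apply] at this ⊢
          exact this
        have : aug (φ f) = (aug.comp φ) f := rfl
        rw [this, h3]
        exact h1
      · have h3 : (FreeAlgebra.lift ℤ A).comp φ =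
            FreeAlgebra.lift ℤ (fun i => FreeAlgebra.lift ℤ A (φ (X i))) := by
          apply FreeAlgebra.hom_ext
          funext i
          simp only [Function.comp_apply, AlgHom.comp_apply, FreeAlgebra.lift_ι_apply]
        have h4 : FreeAlgebra.lift ℤ A (φ f) = ((FreeAlgebra.lift ℤ A).comp φ) f := rfl
        rw [h4, h3]
        apply h2
        intro i
        have h5 := ss_sub hab hcd hA (φ (X i))
        rw [hφ i, map_zero, sub_zero] at h5
        exact h5
  · intro f hf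
    have hf' : f ∈ T3set p := by
      rw [← hT.2]
      exact hf
    refine ⟨(trans_aug_Pp f).1 hf'.1, fun A hA => ?_⟩
    obtain ⟨s, _, hs⟩ := eq_sum_cf f
    rw [hs, map_sum]
    apply Finset.sum_eq_zero
    intro w _
    rw [map_smul]
    by_cases hw : w.length ≤ 3
    · exact zsmul_zero _ (hf'.2 w hw) _
    · rw [lift_mon, long_zero A (fun i => (hA i).1) w (by omega), smul_zero]

/-- superdiagonal matrices -/
private def Dg {p : ℕ} (x y z : ZMod p) : Mt p :=
  Matrix.of (fun i j => if i = 0 ∧ j = 1 then x else if i = 1 ∧ j = 2 then y else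
    if i = 2 ∧ j = 3 then z else 0)

private theorem dg_up {p : ℕ} (x y z : ZMod p) : Up (Dg x y z) := by
  intro i j hij
  unfold Dg
  rw [Matrix.of_apply, if_neg, if_neg, if_neg]
  · rintro ⟨rfl, rfl⟩
    exact absurd hij (by decide)
  · rintro ⟨rfl, rfl⟩
    exact absurd hij (by decide)
  · rintro ⟨rfl, rfl⟩
    exact absurd hij (by decide)

private theorem dg01 {p : ℕ} (x y z : ZMod p) : Dg x y z 0 1 = x := by simp [Dg]
private theorem dg12 {p : ℕ} (x y z : ZMod p) : Dg x y z 1 2 = y := by simp [Dg]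
private theorem dg23 {p : ℕ} (x y z : ZMod p) : Dg x y z 2 3 = z := by simp [Dg]

private def GG {p : ℕ} (α β γ : ℕ → ZMod p) : List ℕ → ZMod p
  | [x, y, z] => α x * β y * γ z
  | _ => 0

private theorem gg_eq {p : ℕ} (α β γ : ℕ → ZMod p) (w : List ℕ) :
    (w.map (fun i => Dg (α i) (β i) (γ i))).prod 0 3 = GG α β γ w := by
  match w with
  | [] => simp [GG]
  | [x] => simp [GG, Dg]
  | [x, y] =>
    simp [GG, Dg, Matrix.mul_apply]
  | [x, y, z] =>
    rw [List.map_cons, List.map_cons, List.map_cons, List.map_nil, List.prod_cons, List.prod_cons,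
      List.prod_cons, List.prod_nil, mul_one, ← mul_assoc, mul3 (dg_up _ _ _) (dg_up _ _ _)
      (dg_up _ _ _), dg01, dg12, dg23]
    simp [GG]
  | x :: y :: z :: u :: v =>
    rw [long_zero _ (fun i => dg_up _ _ _) _ (by simp)]
    simp [GG]

private noncomputable def EE {p : ℕ} (f : P) (α β γ : ℕ → ZMod p) : ZMod p :=
  (FreeAlgebra.lift ℤ (fun i => Dg (α i) (β i) (γ i)) f) 0 3

private theorem ee_eq {p : ℕ} (f : P) : ∃ s : Finset (List ℕ), (∀ w, w ∉ s → cf w f = 0) ∧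
    ∀ α β γ : ℕ → ZMod p, EE f α β γ = ∑ w ∈ s, (cf w f : ZMod p) * GG α β γ w := by
  obtain ⟨s, hs, hf⟩ := eq_sum_cf f
  refine ⟨s, hs, fun α β γ => ?_⟩
  unfold EE
  conv_lhs => rw [hf]
  rw [map_sum, Matrix.sum_apply]
  apply Finset.sum_congr rfl
  intro w _
  rw [map_smul, Matrix.smul_apply, lift_mon, gg_eq, zsmul_eq_mul]

private theorem gg_add1 {p : ℕ} (α α' β γ : ℕ → ZMod p) (w : List ℕ) :
    GG (α + α') β γ w = GG α β γ w + GG α' β γ w := by
  match w with
  | [] => simp [GG]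
  | [x] => simp [GG]
  | [x, y] => simp [GG]
  | [x, y, z] => simp only [GG, Pi.add_apply]; ring
  | x :: y :: z :: u :: v => simp [GG]

private theorem gg_add2 {p : ℕ} (α β β' γ : ℕ → ZMod p) (w : List ℕ) :
    GG α (β + β') γ w = GG α β γ w + GG α β' γ w := by
  match w with
  | [] => simp [GG]
  | [x] => simp [GG]
  | [x, y] => simp [GG]
  | [x, y, z] => simp only [GG, Pi.add_apply]; ring
  | x :: y :: z :: u :: v => simp [GG]

private theorem gg_add3 {p : ℕ} (α β γ γ' : ℕ → ZMod p) (w : List ℕ) :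
    GG α β (γ + γ') w = GG α β γ w + GG α β γ' w := by
  match w with
  | [] => simp [GG]
  | [x] => simp [GG]
  | [x, y] => simp [GG]
  | [x, y, z] => simp only [GG, Pi.add_apply]; ring
  | x :: y :: z :: u :: v => simp [GG]

private theorem ee_add1 {p : ℕ} (f : P) (α α' β γ : ℕ → ZMod p) :
    EE f (α + α') β γ = EE f α β γ + EE f α' β γ := by
  obtain ⟨s, _, h⟩ := ee_eq (p := p) f
  rw [h, h, h, ← Finset.sum_add_distrib]
  apply Finset.sum_congr rfl
  intro w _
  rw [gg_add1, mul_add]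

private theorem ee_add2 {p : ℕ} (f : P) (α β β' γ : ℕ → ZMod p) :
    EE f α (β + β') γ = EE f α β γ + EE f α β' γ := by
  obtain ⟨s, _, h⟩ := ee_eq (p := p) f
  rw [h, h, h, ← Finset.sum_add_distrib]
  apply Finset.sum_congr rfl
  intro w _
  rw [gg_add2, mul_add]

private theorem ee_add3 {p : ℕ} (f : P) (α β γ γ' : ℕ → ZMod p) :
    EE f α β (γ + γ') = EE f α β γ + EE f α β γ' := by
  obtain ⟨s, _, h⟩ := ee_eq (p := p) f
  rw [h, h, h, ← Finset.sum_add_distrib]
  apply Finset.sum_congr rfl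
  intro w _
  rw [gg_add3, mul_add]

private theorem ee_cf {p : ℕ} (f : P) (i j k : ℕ) :
    EE f (Pi.single i (1 : ZMod p)) (Pi.single j 1) (Pi.single k 1) = (cf [i, j, k] f : ZMod p) := by
  obtain ⟨s, hs, h⟩ := ee_eq (p := p) f
  have hG : ∀ w : List ℕ, GG (Pi.single i (1 : ZMod p)) (Pi.single j 1) (Pi.single k 1) w =
      if w = [i, j, k] then 1 else 0 := by
    intro w
    match w with
    | [] => simp [GG]
    | [x] => simp [GG]
    | [x, y] => simp [GG]
    | [x, y, z] =>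
      simp only [GG, Pi.single_apply]
      by_cases h1 : x = i <;> by_cases h2 : y = j <;> by_cases h3 : z = k <;> simp [h1, h2, h3]
    | x :: y :: z :: u :: v => simp [GG]
  rw [h]
  simp only [hG, mul_ite, mul_one, mul_zero]
  rw [Finset.sum_ite_eq']
  split_ifs with h1
  · rfl
  · rw [hs _ h1, Int.cast_zero]

theorem exists_X3 (p : ℕ) (hp : p.Prime) (T : Submodule ℤ P) (hT : IsT3 p T) :
    ∃ X₀ X₁ X₂ : Submodule ℤ P, IsT X₀ ∧ IsT X₁ ∧ IsT X₂ ∧ T ≤ X₀ ∧ T ≤ X₁ ∧ T ≤ X₂ ∧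
      mon [0, 1, 2] - mon [0, 2, 1] ∈ X₀ ∧
      mon [0, 1, 2] - mon [2, 1, 0] ∈ X₁ ∧ mon [1, 2, 0] - mon [0, 2, 1] ∈ X₁ ∧
      mon [2, 1, 0] - mon [1, 2, 0] ∈ X₂ ∧
      (∀ f ∈ X₀, (p : ℤ) ∣ cf [0, 1, 2] f + cf [0, 2, 1] f ∧ (p : ℤ) ∣ cf [1, 0, 2] f + cf [1, 2, 0] f ∧
        (p : ℤ) ∣ cf [2, 0, 1] f + cf [2, 1, 0] f) ∧
      (∀ f ∈ X₁, (p : ℤ) ∣ cf [0, 1, 2] f + cf [2, 1, 0] f ∧ (p : ℤ) ∣ cf [1, 0, 2] f + cf [2, 0, 1] f ∧
        (p : ℤ) ∣ cf [0, 2, 1] f + cf [1, 2, 0] f) ∧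
      (∀ f ∈ X₂, (p : ℤ) ∣ cf [0, 1, 2] f + cf [1, 0, 2] f ∧ (p : ℤ) ∣ cf [0, 2, 1] f + cf [2, 0, 1] f ∧
        (p : ℤ) ∣ cf [1, 2, 0] f + cf [2, 1, 0] f) := by
  obtain ⟨X₀, a0, b0, c0⟩ := gen p T hT 1 2 2 3 rfl rfl
  obtain ⟨X₁, a1, b1, c1⟩ := gen p T hT 0 1 2 3 rfl rfl
  obtain ⟨X₂, a2, b2, c2⟩ := gen p T hT 0 1 1 2 rfl rfl
  have haug : ∀ w w' : List ℕ, w ≠ [] → w' ≠ [] → aug (mon w - mon w') = 0 := by
    intro w w' h h'
    have : ∀ w : List ℕ, w ≠ [] → aug (mon w) = 0 := by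
      intro w hw
      obtain ⟨x, v, rfl⟩ := List.exists_cons_of_ne_nil hw
      unfold mon
      rw [List.map_cons, List.prod_cons, map_mul]
      simp [aug, FreeAlgebra.lift_ι_apply]
    rw [map_sub, this w h, this w' h', sub_zero]
  have hprod : ∀ (A : ℕ → Mt p) (x y z : ℕ), (∀ i, Up (A i)) →
      FreeAlgebra.lift ℤ A (mon [x, y, z]) =
        Matrix.of (fun i j => if i = 0 ∧ j = 3 then A x 0 1 * A y 1 2 * A z 2 3 else 0) := by
    intro A x y z hA
    rw [lift_mon, List.map_cons, List.map_cons, List.map_cons, List.map_nil, List.prod_cons,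
      List.prod_cons, List.prod_cons, List.prod_nil, mul_one, ← mul_assoc,
      mul3 (hA x) (hA y) (hA z)]
  have hdvd : ∀ n m : ℤ, ((n : ZMod p) + (m : ZMod p) = 0) → (p : ℤ) ∣ n + m := by
    intro n m h
    have h2 : ((n + m : ℤ) : ZMod p) = 0 := by
      push_cast
      exact h
    exact (ZMod.intCast_zmod_eq_zero_iff_dvd (n + m) p).1 h2
  have hz : ∀ M : Mt p, M = 0 → M 0 3 = 0 := by
    rintro M rfl
    rfl
  refine ⟨X₀, X₁, X₂, a0, a1, a2, b0, b1, b2, ?_, ?_, ?_, ?_, ?_, ?_, ?_⟩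
  · refine (c0 _).2 ⟨haug _ _ (by simp) (by simp), fun A hA => ?_⟩
    rw [map_sub, hprod A _ _ _ (fun i => (hA i).1), hprod A _ _ _ (fun i => (hA i).1), sub_eq_zero]
    rw [(hA 1).2, (hA 2).2]
    congr 1
    funext i j
    congr 1
    ring
  · refine (c1 _).2 ⟨haug _ _ (by simp) (by simp), fun A hA => ?_⟩
    rw [map_sub, hprod A _ _ _ (fun i => (hA i).1), hprod A _ _ _ (fun i => (hA i).1), sub_eq_zero]
    rw [(hA 0).2, (hA 2).2]
    congr 1
    funext i j
    congr 1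
    ring
  · refine (c1 _).2 ⟨haug _ _ (by simp) (by simp), fun A hA => ?_⟩
    rw [map_sub, hprod A _ _ _ (fun i => (hA i).1), hprod A _ _ _ (fun i => (hA i).1), sub_eq_zero]
    rw [(hA 0).2, (hA 1).2]
    congr 1
    funext i j
    congr 1
    ring
  · refine (c2 _).2 ⟨haug _ _ (by simp) (by simp), fun A hA => ?_⟩
    rw [map_sub, hprod A _ _ _ (fun i => (hA i).1), hprod A _ _ _ (fun i => (hA i).1), sub_eq_zero]
    rw [(hA 1).2, (hA 2).2]
    congr 1
    funext i j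
    congr 1
    ring
  · intro f hf
    have key : ∀ s t : ℕ → ZMod p, EE f s t t = 0 := fun s t =>
      hz _ (((c0 f).1 hf).2 _ (fun i => ⟨dg_up _ _ _, by rw [dg12, dg23]⟩))
    have pol : ∀ s t t' : ℕ → ZMod p, EE f s t t' + EE f s t' t = 0 := by
      intro s t t'
      have h := key s (t + t')
      rw [ee_add2, ee_add3, ee_add3, key, key] at h
      rw [zero_add, add_zero] at h
      exact h
    refine ⟨hdvd _ _ ?_, hdvd _ _ ?_, hdvd _ _ ?_⟩
    · rw [← ee_cf, ← ee_cf]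
      exact pol _ _ _
    · rw [← ee_cf, ← ee_cf]
      exact pol _ _ _
    · rw [← ee_cf, ← ee_cf]
      exact pol _ _ _
  · intro f hf
    have key : ∀ s t : ℕ → ZMod p, EE f t s t = 0 := fun s t =>
      hz _ (((c1 f).1 hf).2 _ (fun i => ⟨dg_up _ _ _, by rw [dg01, dg23]⟩))
    have pol : ∀ s t t' : ℕ → ZMod p, EE f t s t' + EE f t' s t = 0 := by
      intro s t t'
      have h := key s (t + t')
      rw [ee_add1, ee_add3, ee_add3, key, key] at h
      rw [zero_add, add_zero] at h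
      exact h
    refine ⟨hdvd _ _ ?_, hdvd _ _ ?_, hdvd _ _ ?_⟩
    · rw [← ee_cf, ← ee_cf]
      exact pol _ _ _
    · rw [← ee_cf, ← ee_cf]
      exact pol _ _ _
    · rw [← ee_cf, ← ee_cf]
      exact pol _ _ _
  · intro f hf
    have key : ∀ s t : ℕ → ZMod p, EE f t t s = 0 := fun s t =>
      hz _ (((c2 f).1 hf).2 _ (fun i => ⟨dg_up _ _ _, by rw [dg01, dg12]⟩))
    have pol : ∀ s t t' : ℕ → ZMod p, EE f t t' s + EE f t' t s = 0 := by
      intro s t t'
      have h := key s (t + t')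
      rw [ee_add1, ee_add2, ee_add2, key, key] at h
      rw [zero_add, add_zero] at h
      exact h
    refine ⟨hdvd _ _ ?_, hdvd _ _ ?_, hdvd _ _ ?_⟩
    · rw [← ee_cf, ← ee_cf]
      exact pol _ _ _
    · rw [← ee_cf, ← ee_cf]
      exact pol _ _ _
    · rw [← ee_cf, ← ee_cf]
      exact pol _ _ _

end ADN
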