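import Pool.Agent.ADN.Defs
import Pool.Agent.ADN.X3

/-!
# ADN-N3

The lattice above `T3` is not distributive: with the three T-ideals `X₀, X₁, X₂` of `exists_X3`, the
polynomial `mon [0,1,2] - mon [0,2,1]` lies in `X₀ ⊓ (X₁ ⊔ X₂)` but not in `(X₀ ⊓ X₁) ⊔ (X₀ ⊓ X₂)`.
-/

namespace ADN

open AD

theorem not_dist_T3 (p : ℕ) (hp : p.Prime) (T : Submodule ℤ P) (hT : IsT3 p T) : ¬ DistOn TI T := by
  intro hD
  obtain ⟨X₀, X₁, X₂, h0, h1, h2, l0, l1, l2, g0, g1, g1', g2, c0, c1, c2⟩ := exists_X3 p hp T hT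
  have hE := hD X₀ h0 X₁ h1 X₂ h2 l0 l1 l2
  have hg : mon [0, 1, 2] - mon [0, 2, 1] ∈ X₀ ⊓ (X₁ ⊔ X₂) := by
    refine Submodule.mem_inf.2 ⟨g0, ?_⟩
    have h3 : mon [0, 1, 2] - mon [0, 2, 1] =
        ((mon [0, 1, 2] - mon [2, 1, 0]) + (mon [1, 2, 0] - mon [0, 2, 1])) +
          (mon [2, 1, 0] - mon [1, 2, 0]) := by abel
    rw [h3]
    exact Submodule.add_mem_sup (X₁.add_mem g1 g1') g2
  rw [hE, Submodule.mem_sup] at hg
  obtain ⟨h, hh, h', hh', hs⟩ := hg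
  rw [Submodule.mem_inf] at hh hh'
  have e1 : cf [0, 1, 2] h + cf [0, 1, 2] h' - (cf [1, 2, 0] h + cf [1, 2, 0] h') = 1 := by
    have hm : ∀ w : List ℕ, cf w h + cf w h' + cf w (mon [0, 2, 1]) = cf w (mon [0, 1, 2]) := by
      intro w
      rw [← cf_add, ← cf_add, hs]
      congr 1
      abel
    have a1 := hm [0, 1, 2]
    have a2 := hm [1, 2, 0]
    rw [cf_mon, cf_mon] at a1 a2
    rw [if_neg (by decide), if_pos rfl] at a1
    rw [if_neg (by decide), if_neg (by decide)] at a2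
    linarith
  obtain ⟨ha, -, -⟩ := c0 h hh.1
  obtain ⟨-, -, hc⟩ := c1 h hh.2
  obtain ⟨-, hb', -⟩ := c0 h' hh'.1
  obtain ⟨hc', -, -⟩ := c2 h' hh'.2
  have hdiv : (p : ℤ) ∣ 1 := by
    rw [← e1]
    have e2 : cf [0, 1, 2] h + cf [0, 1, 2] h' - (cf [1, 2, 0] h + cf [1, 2, 0] h') =
        ((cf [0, 1, 2] h + cf [0, 2, 1] h) - (cf [0, 2, 1] h + cf [1, 2, 0] h)) +
        ((cf [0, 1, 2] h' + cf [1, 0, 2] h') - (cf [1, 0, 2] h' + cf [1, 2, 0] h')) := by ring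
    rw [e2]
    exact dvd_add (dvd_sub ha hc) (dvd_sub hc' hb')
  have h4 : (p : ℤ) ≤ 1 := Int.le_of_dvd one_pos hdiv
  have h5 := hp.two_le
  omega

end ADN
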