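import Pool.Agent.ADN.Defs
import Pool.Agent.ADN.N3
import Pool.Agent.ADN.Cubic
import Pool.Agent.ADN.T3a
import Pool.Agent.ADN.FgeT
import Pool.Agent.ADN.Bridge

/-!
# ADN-CubDst

The cubic identity (the lattice above `T3` is not distributive, so `I` is not contained in `T3`) and the
properties of the nilpotent hull `T` for the rings of the variety of `I`.  Evaluations are written with `ev`
(Bridge.lean) because of the two structures of a `ℤ`-algebra on the unitization.
-/

namespace ADN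

open AD

private theorem cd_mon {U : Type} [Ring U] (r : ℕ → U) (w : List ℕ) :
    ev r (mon w) = (w.map r).prod := by
  unfold mon
  rw [map_list_prod, List.map_map]
  congr 1
  refine List.map_congr_left fun i _ => ?_
  show FreeAlgebra.lift ℤ r (X i) = r i
  rw [FreeAlgebra.lift_ι_apply]

private theorem cd_eval {U : Type} [Ring U] (a : Fin 3 → U) (G : List (Fin 3) →₀ ℤ) :
    ev (fun i => if h : i < 3 then a ⟨i, h⟩ else 0) (G.sum fun w c => c • mon (w.map Fin.val)) =
      G.sum fun w c => c • w3 a w := by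
  rw [Finsupp.sum, Finsupp.sum, map_sum]
  refine Finset.sum_congr rfl fun w _ => ?_
  rw [map_smul, cd_mon, List.map_map]
  unfold w3
  congr 2
  refine List.map_congr_left fun i _ => ?_
  show (if h : i.val < 3 then a ⟨i.val, h⟩ else 0) = a i
  rw [dif_pos i.2]

private theorem cd_comp {U : Type} [Ring U] (r : ℕ → U) (φ : P →ₐ[ℤ] P) (f : P) :
    ev r (φ f) = ev (fun i => ev r (φ (X i))) f := by
  have h : (ev r).comp φ = ev (fun i => ev r (φ (X i))) := by
    apply FreeAlgebra.hom_ext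
    funext i
    show ev r (φ (X i)) = FreeAlgebra.lift ℤ (fun i => ev r (φ (X i))) (X i)
    rw [FreeAlgebra.lift_ι_apply]
  exact DFunLike.congr_fun h f

/-- polynomials without constant term map ideals into themselves -/
private theorem cd_ideal {U : Type} [Ring U] (C : Ctx U) (r : ℕ → U) (hr : ∀ i, r i ∈ C.J)
    {h : P} (hh : h ∈ Pp) : ev r h ∈ C.J := by
  obtain ⟨s, -, hs⟩ := eq_sum_cf h
  rw [hs, map_sum]
  refine AddSubgroup.sum_mem _ fun w _ => ?_
  rw [map_smul, cd_mon]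
  cases w with
  | nil =>
    have h0 : cf [] h = 0 := by
      rw [cf_nil]
      exact hh
    rw [h0, zero_smul]
    exact AddSubgroup.zero_mem _
  | cons b w =>
    refine AddSubgroup.zsmul_mem _ ?_ _
    rw [List.map_cons, List.prod_cons]
    exact C.J_right _ _ (hr b)

private theorem cd_hull {U : Type} [Ring U] (C : Ctx U) {I T : Submodule ℤ P} (hI : IsT I)
    (hT : IsNilHull I T)
    (hev : ∀ f ∈ I, ∀ r : ℕ → U, (∀ i, r i ∈ C.A) → ev r f = 0) (g : P) (hg : g ∈ T)
    (r : ℕ → U) (hr : ∀ i, r i ∈ C.J) : ev r g = 0 := by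
  let D : Submodule ℤ P :=
    { carrier := {g | g ∈ Pp ∧ ∀ r : ℕ → U, (∀ i, r i ∈ C.J) → ev r g = 0}
      zero_mem' := ⟨Pp.zero_mem, fun r _ => map_zero _⟩
      add_mem' := by
        rintro f g ⟨hf, hf'⟩ ⟨hg, hg'⟩
        exact ⟨Pp.add_mem hf hg, fun r hr => by rw [map_add, hf' r hr, hg' r hr, add_zero]⟩
      smul_mem' := by
        rintro c f ⟨hf, hf'⟩
        exact ⟨Pp.smul_mem c hf, fun r hr => by rw [map_smul, hf' r hr, smul_zero]⟩ }
  have hD : ∀ g, g ∈ D ↔ g ∈ Pp ∧ ∀ r : ℕ → U, (∀ i, r i ∈ C.J) → ev r g = 0 :=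
    fun g => Iff.rfl
  have hDT : IsT D := by
    refine ⟨fun f hf => ((hD f).1 hf).1, ?_, ?_, ?_⟩
    · intro f hf g
      exact (hD _).2 ⟨isT_Pp.mul_right f ((hD f).1 hf).1 g, fun r hr => by
        rw [map_mul, ((hD f).1 hf).2 r hr, zero_mul]⟩
    · intro f hf g
      exact (hD _).2 ⟨isT_Pp.mul_left f ((hD f).1 hf).1 g, fun r hr => by
        rw [map_mul, ((hD f).1 hf).2 r hr, mul_zero]⟩
    · intro φ hφ f hf
      refine (hD _).2 ⟨isT_Pp.subst φ hφ f ((hD f).1 hf).1, fun r hr => ?_⟩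
      rw [cd_comp]
      exact ((hD f).1 hf).2 _ fun i => cd_ideal C r hr (hφ i)
  have hID : I ≤ D := fun f hf =>
    (hD f).2 ⟨hI.le hf, fun r hr => hev f hf r fun i => C.J_le (hr i)⟩
  have hnil : NilAt D (C.N + 1) := by
    intro w hw
    have hne : w ≠ [] := by
      rintro rfl
      simp at hw
    refine (hD _).2 ⟨mon_mem_Pp hne, fun r hr => ?_⟩
    rw [cd_mon]
    refine C.nil _ (by rw [List.length_map]; omega) fun x hx => ?_
    obtain ⟨i, _, rfl⟩ := List.mem_map.1 hx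
    exact hr i
  exact ((hD g).1 (hT.2.2.1 D hDT hID ⟨_, hnil⟩ hg)).2 r hr

theorem cubDst {I T : Submodule ℤ P} (hI : AlmDist I) (hT : IsNilHull I T) (hlt : I < T)
    (R : Type) [NonUnitalRing R] (hR : ∀ f ∈ I, Sat R f) (C : Ctx (Unitization ℤ R))
    (hA : ∀ x, x ∈ C.A ↔ ∃ y : R, x = (y : Unitization ℤ R)) : C.Cub ∧ C.Dst T := by
  have hDist : DistOn TI T := hI.2.2 T hT.1 hlt
  have hev : ∀ f ∈ I, ∀ r : ℕ → Unitization ℤ R, (∀ i, r i ∈ C.A) → ev r f = 0 := by
    intro f hf r hr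
    choose a ha using fun i => (hA (r i)).1 (hr i)
    have h1 : r = fun i => ((a i : R) : Unitization ℤ R) := funext ha
    rw [h1]
    exact (ev_eq_lift _ f).trans (hR f hf a)
  refine ⟨?_, hT.1, hDist, fun g hg r hr => cd_hull C hI.1 hT hev g hg r hr⟩
  obtain ⟨T3, hT3, hn3⟩ := exists_T3 C.p
  have hex : ∃ F ∈ I, F ∉ T3set C.p := by
    by_contra hc
    push Not at hc
    have h1 : I ≤ T3 := by
      intro F hF
      have h2 : F ∈ (T3 : Set P) := by
        rw [hT3.2]
        exact hc F hF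
      exact h2
    have h3 : T ≤ T3 := hT.2.2.1 T3 hT3.1 h1 ⟨4, hn3⟩
    exact not_dist_T3 C.p C.hp T3 hT3 fun x hx y hy z hz hdx hdy hdz =>
      hDist x hx y hy z hz (h3.trans hdx) (h3.trans hdy) (h3.trans hdz)
  obtain ⟨F, hF, hFn⟩ := hex
  obtain ⟨G, hG1, hG2, hG3⟩ := cubic hI.1 C.hp hF hFn
  refine ⟨G, hG1, hG2, fun a ha => ?_⟩
  rw [← cd_eval]
  refine hev _ hG3 _ fun i => ?_
  by_cases h : i < 3
  · rw [dif_pos h]
    exact ha _
  · rw [dif_neg h]
    exact AddSubgroup.zero_mem _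

end ADN
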