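import Pool.Agent.ADN.Defs
import Pool.Agent.AD.Model
import Pool.Agent.AD.Words

/-!
# ADN-Model2

`AD.model` with the evaluation property.

The proof of `AD.model` (Pool/Agent/AD/Model.lean) with the multiplicativity of the quotient map and the
evaluation property as additional statements.
-/

namespace ADN

open AD

private def md2S (W : Submodule ℤ P) (hmul : ∀ a ∈ W, ∀ b ∈ W, a * b ∈ W) :
    NonUnitalSubring P where
  carrier := W
  add_mem' := fun ha hb => W.add_mem ha hb
  zero_mem' := W.zero_mem
  neg_mem' := fun ha => W.neg_mem ha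
  mul_mem' := fun {a b} ha hb => hmul a ha b hb

private def md2C {I : Submodule ℤ P} (hI : IsT I) (S : NonUnitalSubring P) : RingCon S where
  r a b := (a : P) - (b : P) ∈ I
  iseqv := ⟨fun a => by rw [sub_self]; exact I.zero_mem,
    fun {a b} h => by rw [← neg_sub]; exact I.neg_mem h,
    fun {a b c} h h' => by
      have := I.add_mem h h'
      rwa [sub_add_sub_cancel] at this⟩
  add' := fun {a b c d} h h' => by
    have := I.add_mem h h'
    have e : ((a + c : S) : P) - ((b + d : S) : P) = ((a : P) - b) + ((c : P) - d) := by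
      push_cast; abel
    rw [e]; exact this
  mul' := fun {a b c d} h h' => by
    have e : ((a * c : S) : P) - ((b * d : S) : P) =
        ((a : P) - b) * (c : P) + (b : P) * ((c : P) - d) := by
      push_cast; noncomm_ring
    rw [e]
    exact I.add_mem (hI.mul_right _ h _) (hI.mul_left _ h' _)

theorem model2 {I : Submodule ℤ P} (hI : IsT I) (W : Submodule ℤ P) (hW : W ≤ Pp)
    (hmul : ∀ a ∈ W, ∀ b ∈ W, a * b ∈ W) :
    ∃ (R : Type) (_ : NonUnitalRing R) (π : W →+ R), Function.Surjective π ∧
      (∀ w : W, π w = 0 ↔ (w : P) ∈ I) ∧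
      (∀ f ∈ Pp, Sat R f ↔ ∀ φ : P →ₐ[ℤ] P, (∀ i, φ (X i) ∈ W) → φ f ∈ I) ∧
      (∀ a b c : W, (c : P) = a * b → π c = π a * π b) ∧
      ∀ f ∈ Pp, ∀ w : ℕ → W, ∃ u : W, (u : P) = FreeAlgebra.lift ℤ (fun i => (w i : P)) f ∧
        FreeAlgebra.lift ℤ (fun i => ((π (w i) : R) : Unitization ℤ R)) f =
          ((π u : R) : Unitization ℤ R) := by
  let S := md2S W hmul
  let c := md2C hI S
  let q : S → c.Quotient := fun s => (s : c.Quotient)
  have hq : ∀ s : S, q s = 0 ↔ (s : P) ∈ I := by
    intro s
    have h1 : q s = 0 ↔ q s = q 0 := Iff.rfl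
    rw [h1]
    show ((s : c.Quotient) = ((0 : S) : c.Quotient)) ↔ _
    rw [RingCon.eq]
    show (s : P) - ((0 : S) : P) ∈ I ↔ _
    simp
  have qs : Function.Surjective q := by
    intro x
    induction x using Quotient.inductionOn with
    | _ s => exact ⟨s, rfl⟩
  let π : W →+ c.Quotient :=
    { toFun := fun w => q ⟨w.1, w.2⟩
      map_zero' := rfl
      map_add' := fun a b => rfl }
  have πq : ∀ (w : P) (h : w ∈ W), π ⟨w, h⟩ = q ⟨w, h⟩ := fun _ _ => rfl
  -- the evaluation of `f` at `q (w i)`
  have key : ∀ (w : ℕ → S) (f : P), ∃ u : S,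
      (u : P) = FreeAlgebra.lift ℤ (fun i => (w i : P)) f - algebraMap ℤ P (aug f) ∧
      FreeAlgebra.lift ℤ (fun i => ((q (w i) : c.Quotient) : Unitization ℤ c.Quotient)) f =
        Unitization.inl (aug f) + ((q u : c.Quotient) : Unitization ℤ c.Quotient) := by
    intro w f
    induction f using FreeAlgebra.induction with
    | grade0 r =>
      refine ⟨0, ?_, ?_⟩
      · simp
      · have h0 : q 0 = 0 := rfl
        rw [h0]
        simp only [AlgHom.commutes]
        rw [Unitization.algebraMap_eq_inl]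
        simp
    | grade1 i =>
      refine ⟨w i, ?_, ?_⟩
      · simp [aug]
      · simp [aug]
    | mul f g hf hg =>
      obtain ⟨u, hu, hu'⟩ := hf
      obtain ⟨v, hv, hv'⟩ := hg
      refine ⟨u * v + aug f • v + aug g • u, ?_, ?_⟩
      · have hu2 : FreeAlgebra.lift ℤ (fun i => (w i : P)) f =
            (u : P) + algebraMap ℤ P (aug f) := by rw [hu]; abel
        have hv2 : FreeAlgebra.lift ℤ (fun i => (w i : P)) g =
            (v : P) + algebraMap ℤ P (aug g) := by rw [hv]; abel
        rw [map_mul, map_mul, hu2, hv2, map_mul]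
        push_cast
        rw [eq_intCast, eq_intCast, zsmul_eq_mul, zsmul_eq_mul, add_mul, mul_add, mul_add,
          (Int.cast_commute (aug g) (u : P)).eq]
        abel
      · have e : q (u * v + aug f • v + aug g • u) = q u * q v + aug f • q v + aug g • q u := by
          rfl
        rw [map_mul, hu', hv', e, map_mul]
        rw [add_mul, mul_add, mul_add, ← Unitization.inl_mul, Unitization.inl_mul_inr,
          Unitization.inr_mul_inl, ← Unitization.inr_mul, Unitization.inr_add,
          Unitization.inr_add]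
        abel
    | add f g hf hg =>
      obtain ⟨u, hu, hu'⟩ := hf
      obtain ⟨v, hv, hv'⟩ := hg
      refine ⟨u + v, ?_, ?_⟩
      · push_cast
        rw [hu, hv, map_add, map_add, map_add]
        abel
      · have e : q (u + v) = q u + q v := rfl
        rw [map_add, hu', hv', e, map_add]
        ext <;> simp
  refine ⟨c.Quotient, inferInstance, π, ?_, ?_, ?_, ?_, ?_⟩
  · intro x
    obtain ⟨s, rfl⟩ := qs x
    exact ⟨⟨s.1, s.2⟩, rfl⟩
  · intro w
    exact hq ⟨w.1, w.2⟩
  · intro f hf
    have hf0 : aug f = 0 := hf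
    constructor
    · intro h φ hφ
      obtain ⟨u, hu, hu'⟩ := key (fun i => ⟨φ (X i), hφ i⟩) f
      have h1 := h (fun i => q ⟨φ (X i), hφ i⟩)
      rw [h1, hf0] at hu'
      have h2 : q u = 0 := by
        have := congrArg (fun x => x.snd) hu'
        simpa using this.symm
      have h3 : FreeAlgebra.lift ℤ (fun i => φ (X i)) = φ := by
        ext i
        simp
      rw [hf0, map_zero, sub_zero, h3] at hu
      rw [← hu]
      exact (hq u).1 h2
    · intro h a
      choose w hw using fun i => qs (a i)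
      obtain ⟨u, hu, hu'⟩ := key w f
      have h1 := h (FreeAlgebra.lift ℤ (fun i => (w i : P))) (fun i => by
        rw [FreeAlgebra.lift_ι_apply]; exact (w i).2)
      rw [hf0, map_zero, sub_zero] at hu
      rw [← hu] at h1
      have h2 : q u = 0 := (hq u).2 h1
      rw [hf0, h2] at hu'
      have h3 : (fun i => ((a i : c.Quotient) : Unitization ℤ c.Quotient)) =
          fun i => ((q (w i) : c.Quotient) : Unitization ℤ c.Quotient) := by
        funext i; rw [hw]
      rw [h3, hu']
      simp
  · intro a b d hd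
    have h1 : (⟨d.1, d.2⟩ : S) = ⟨a.1, a.2⟩ * ⟨b.1, b.2⟩ := Subtype.ext hd
    show q ⟨d.1, d.2⟩ = q ⟨a.1, a.2⟩ * q ⟨b.1, b.2⟩
    rw [h1]
    rfl
  · intro f hf w
    have hf0 : aug f = 0 := hf
    obtain ⟨u, hu, hu'⟩ := key (fun i => ⟨(w i).1, (w i).2⟩) f
    refine ⟨⟨u.1, u.2⟩, ?_, ?_⟩
    · rw [hf0, map_zero, sub_zero] at hu
      exact hu
    · rw [hf0, Unitization.inl_zero, zero_add] at hu'
      exact hu'

end ADN
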