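import Pool.Agent.ADN.Defs
import Pool.Agent.AD.Tlat

/-!
# ADN-NilHull

The nilpotent hull is the submodule of all `g ∈ Pp` which are contained in every nilpotent T-ideal above `I`.
-/

namespace ADN

open AD

theorem exists_nilHull {I : Submodule ℤ P} (hI : IsT I) : ∃ T, IsNilHull I T := by
  let T : Submodule ℤ P :=
    { carrier := {g | g ∈ Pp ∧ ∀ D, IsT D → I ≤ D → (∃ n, NilAt D n) → g ∈ D}
      zero_mem' := ⟨Pp.zero_mem, fun D _ _ _ => D.zero_mem⟩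
      add_mem' := by
        rintro f g ⟨hf, hf'⟩ ⟨hg, hg'⟩
        exact ⟨Pp.add_mem hf hg, fun D h1 h2 h3 => D.add_mem (hf' D h1 h2 h3) (hg' D h1 h2 h3)⟩
      smul_mem' := by
        rintro c f ⟨hf, hf'⟩
        exact ⟨Pp.smul_mem c hf, fun D h1 h2 h3 => D.smul_mem c (hf' D h1 h2 h3)⟩ }
  have hT : ∀ g, g ∈ T ↔ g ∈ Pp ∧ ∀ D, IsT D → I ≤ D → (∃ n, NilAt D n) → g ∈ D :=
    fun g => Iff.rfl
  refine ⟨T, ⟨fun f hf => ((hT f).1 hf).1, ?_, ?_, ?_⟩, ?_, ?_, ?_⟩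
  · intro f hf g
    exact (hT _).2 ⟨isT_Pp.mul_right f ((hT f).1 hf).1 g, fun D h1 h2 h3 =>
      h1.mul_right f (((hT f).1 hf).2 D h1 h2 h3) g⟩
  · intro f hf g
    exact (hT _).2 ⟨isT_Pp.mul_left f ((hT f).1 hf).1 g, fun D h1 h2 h3 =>
      h1.mul_left f (((hT f).1 hf).2 D h1 h2 h3) g⟩
  · intro φ hφ f hf
    exact (hT _).2 ⟨isT_Pp.subst φ hφ f ((hT f).1 hf).1, fun D h1 h2 h3 =>
      h1.subst φ hφ f (((hT f).1 hf).2 D h1 h2 h3)⟩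
  · intro f hf
    exact (hT f).2 ⟨hI.le hf, fun D _ h2 _ => h2 hf⟩
  · intro D h1 h2 h3 f hf
    exact ((hT f).1 hf).2 D h1 h2 h3
  · intro g hg h
    exact (hT g).2 ⟨hg, h⟩

end ADN
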