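import Pool.Agent.AD.Defs
import Pool.Agent.AD.Trans

/-!
# Almost distributive varieties of rings: the nilpotent / nonprime field dichotomy, definitions
-/

namespace ADN

open AD

/-- the coefficient of the word `w` in the polynomial `f` -/
noncomputable def cf (w : List ℕ) (f : P) : ℤ :=
  (FreeAlgebra.equivMonoidAlgebraFreeMonoid f).coeff (FreeMonoid.ofList w)

/-- the T-ideal `I` contains all words of length at least `n` -/
def NilAt (I : Submodule ℤ P) (n : ℕ) : Prop := ∀ w : List ℕ, n ≤ w.length → mon w ∈ I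

/-- `T` is the smallest T-ideal above `I` that is contained in every nilpotent T-ideal above `I` -/
def IsNilHull (I T : Submodule ℤ P) : Prop :=
  IsT T ∧ I ≤ T ∧ (∀ D, IsT D → I ≤ D → (∃ n, NilAt D n) → T ≤ D) ∧
    ∀ g ∈ Pp, (∀ D, IsT D → I ≤ D → (∃ n, NilAt D n) → g ∈ D) → g ∈ T

/-- the polynomials without constant term whose coefficients at the words of length `≤ 3` are
divisible by `p` -/
def T3set (p : ℕ) : Set P := {f | f ∈ Pp ∧ ∀ w : List ℕ, w.length ≤ 3 → (p : ℤ) ∣ cf w f}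

/-- the submodule spanned by the words of length at least `n` -/
noncomputable def Fge (n : ℕ) : Submodule ℤ P :=
  Submodule.span ℤ {f | ∃ w : List ℕ, n ≤ w.length ∧ f = mon w}

/-- `T` is a T-ideal with the elements `T3set p` -/
def IsT3 (p : ℕ) (T : Submodule ℤ P) : Prop := IsT T ∧ (T : Set P) = T3set p

/-- decomposition of a finite ring `R`: orthogonal idempotents and a nilpotent ideal -/
def FinDec (p : ℕ) (R : Type) [NonUnitalRing R] : Prop :=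
  ∃ (s N : ℕ) (e : Fin s → R) (J : AddSubgroup R), (∀ i, e i * e i = e i) ∧
    (∀ i j, i ≠ j → e i * e j = 0) ∧ (∀ x, ∀ y ∈ J, x * y ∈ J) ∧ (∀ x, ∀ y ∈ J, y * x ∈ J) ∧
    (∀ x, ∃ c : Fin s → ℤ, x - ∑ i, c i • e i ∈ J) ∧ (∀ x : R, (p : ℤ) • x ∈ J) ∧
    ∀ l : List R, N ≤ l.length → (∀ x ∈ l, x ∈ J) →
      (l.map (fun x => (x : Unitization ℤ R))).prod = 0

/-- values of a word `w` in the letters `0, 1, 2` -/
def w3 {U : Type} [Ring U] (a : Fin 3 → U) (w : List (Fin 3)) : U := (w.map a).prod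

/-- A ring `U` with an ideal `A = ⊕ ℤ e_i + J` (`i ≠ 0`), `J` nilpotent. -/
structure Ctx (U : Type) [Ring U] where
  s : ℕ
  p : ℕ
  K : ℕ
  N : ℕ
  e : Fin (s + 1) → U
  A : AddSubgroup U
  J : AddSubgroup U
  hp : p.Prime
  coi : CompleteOrthogonalIdempotents e
  A_left : ∀ u a, a ∈ A → u * a ∈ A
  A_right : ∀ u a, a ∈ A → a * u ∈ A
  J_left : ∀ u a, a ∈ J → u * a ∈ J
  J_right : ∀ u a, a ∈ J → a * u ∈ J
  J_le : J ≤ A
  e_mem : ∀ i, i ≠ 0 → e i ∈ A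
  dec : ∀ a ∈ A, ∃ c : Fin (s + 1) → ℤ, c 0 = 0 ∧ a - ∑ i, c i • e i ∈ J
  pJ : ∀ a ∈ A, (p : ℤ) • a ∈ J
  tors : ∀ a ∈ A, ((p : ℤ) ^ K) • a = 0
  nil : ∀ l : List U, N ≤ l.length → (∀ x ∈ l, x ∈ J) → l.prod = 0

namespace Ctx

variable {U : Type} [Ring U] (C : Ctx U)

/-- `x ∈ e_a J e_b` -/
def S (a b : Fin (C.s + 1)) (x : U) : Prop := x ∈ C.J ∧ C.e a * x = x ∧ x * C.e b = x

/-- the ideal `A` satisfies an identity of degree 3 modulo longer words -/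
def Cub : Prop := ∃ G : List (Fin 3) →₀ ℤ, (∀ w ∈ G.support, ∀ i, i ∈ w) ∧
  ¬ (C.p : ℤ) ∣ G [0, 1, 2] ∧
  ∀ a : Fin 3 → U, (∀ i, a i ∈ C.A) → (G.sum fun w c => c • w3 a w) = 0

/-- three ideals of values, with pairwise intersection zero -/
structure Vals (V : Fin 3 → AddSubgroup U) : Prop where
  left : ∀ i u a, a ∈ V i → u * a ∈ V i
  right : ∀ i u a, a ∈ V i → a * u ∈ V i
  le : ∀ i, V i ≤ C.A
  disj : ∀ i j, i ≠ j → ∀ x, x ∈ V i → x ∈ V j → x = 0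

/-- `g(r) m ∈ V_1`, `g'(r) m ∈ V_2`, `(g + g')(r) m ∈ V_3` -/
def In3 (V : Fin 3 → AddSubgroup U) (x x' : U) : Prop := x ∈ V 0 ∧ x' ∈ V 1 ∧ x + x' ∈ V 2

/-- the T-ideal `T` has distributive interval above it and vanishes on `J` -/
def Dst (T : Submodule ℤ P) : Prop := IsT T ∧ DistOn TI T ∧
  ∀ g ∈ T, ∀ r : ℕ → U, (∀ i, r i ∈ C.J) → FreeAlgebra.lift ℤ r g = 0

/-- the vertex patterns `(v_0, v_1, v_2, v_3)` for which `J_{v_0 v_1} J_{v_1 v_2} J_{v_2 v_3} = 0` -/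
def Bad {V : Type} (v₀ v₁ v₂ v₃ : V) : Prop :=
  (v₀ ≠ v₁ ∧ v₂ ≠ v₃ ∧ ¬ (v₀ = v₂ ∧ v₁ = v₃)) ∨ (v₀ = v₁ ∧ v₁ ≠ v₂ ∧ v₂ ≠ v₃ ∧ v₃ ≠ v₀) ∨
  (v₂ = v₃ ∧ v₁ ≠ v₂ ∧ v₀ ≠ v₁ ∧ v₀ ≠ v₃) ∨ (v₀ = v₁ ∧ v₁ ≠ v₂ ∧ v₂ = v₃)

variable {ι : Type}

/-- `v` is a path from `a` to `b` -/
def pth {W : Type} (src tgt : ι → W) : W → List ι → W → Prop
  | a, [], b => a = b
  | a, k :: v, b => src k = a ∧ pth src tgt (tgt k) v b

/-- the combinatorial condition: every path word from `v₀` to `v₃` in the letters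
`0 : v₀ → v₁`, `1 : v₁ → v₂`, `2 : v₂ → v₃` containing all letters is `012`, or has length `≥ 4` and
is a product of three nonempty paths `v₀ → v₁ → v₂ → v₃` -/
def Split {W : Type} (v₀ v₁ v₂ v₃ : W) : Prop :=
  ∀ w : List (Fin 3), (∀ i, i ∈ w) → pth ![v₀, v₁, v₂] ![v₁, v₂, v₃] v₀ w v₃ →
    w = [0, 1, 2] ∨ (4 ≤ w.length ∧ ∃ w₁ w₂ w₃, w = w₁ ++ w₂ ++ w₃ ∧ w₁ ≠ [] ∧ w₂ ≠ [] ∧ w₃ ≠ [] ∧
      pth ![v₀, v₁, v₂] ![v₁, v₂, v₃] v₀ w₁ v₁ ∧ pth ![v₀, v₁, v₂] ![v₁, v₂, v₃] v₁ w₂ v₂ ∧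
      pth ![v₀, v₁, v₂] ![v₁, v₂, v₃] v₂ w₃ v₃)

/-- the value of the word `v`, as a path starting in `a` -/
def wv (r : ι → U) (a : Fin (C.s + 1)) (v : List ι) : U := C.e a * (v.map r).prod

/-- all letters are sorted -/
def Srt (src tgt : ι → Fin (C.s + 1)) (r : ι → U) : Prop := ∀ k, C.S (src k) (tgt k) (r k)

/-- a linear combination of words -/
noncomputable def val (r : ι → U) (a : Fin (C.s + 1)) (c : List ι →₀ ℤ) : U :=
  c.sum fun v n => n • C.wv r a v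

/-- shapes of the words with nonzero values: all letters are loops -/
def Sh1 (src tgt : ι → Fin (C.s + 1)) (a b : Fin (C.s + 1)) (v : List ι) : Prop :=
  a = b ∧ ∀ k ∈ v, src k = a ∧ tgt k = a

/-- loops, then one edge -/
def Sh2 (src tgt : ι → Fin (C.s + 1)) (a b : Fin (C.s + 1)) (v : List ι) : Prop :=
  a ≠ b ∧ ∃ v₁ k, v = v₁ ++ [k] ∧ (∀ i ∈ v₁, src i = a ∧ tgt i = a) ∧ src k = a ∧ tgt k = b

/-- one edge, then loops -/
def Sh3 (src tgt : ι → Fin (C.s + 1)) (a b : Fin (C.s + 1)) (v : List ι) : Prop :=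
  a ≠ b ∧ ∃ v₁ k, v = k :: v₁ ∧ (∀ i ∈ v₁, src i = b ∧ tgt i = b) ∧ src k = a ∧ tgt k = b

/-- loops, two opposite edges, loops -/
def Sh4 (src tgt : ι → Fin (C.s + 1)) (a b : Fin (C.s + 1)) (v : List ι) : Prop :=
  a = b ∧ ∃ v₁ v₂ k l g, g ≠ a ∧ v = v₁ ++ k :: l :: v₂ ∧ (∀ i ∈ v₁, src i = a ∧ tgt i = a) ∧
    (∀ i ∈ v₂, src i = a ∧ tgt i = a) ∧ src k = a ∧ tgt k = g ∧ src l = g ∧ tgt l = a

/-- two edges through three different vertices -/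
def Sh5 (src tgt : ι → Fin (C.s + 1)) (a b : Fin (C.s + 1)) (v : List ι) : Prop :=
  ∃ k l g, v = [k, l] ∧ a ≠ b ∧ g ≠ a ∧ g ≠ b ∧ src k = a ∧ tgt k = g ∧ src l = g ∧ tgt l = b

/-- three edges between two vertices -/
def Sh6 (src tgt : ι → Fin (C.s + 1)) (a b : Fin (C.s + 1)) (v : List ι) : Prop :=
  a ≠ b ∧ ∃ k l m, v = [k, l, m] ∧ src k = a ∧ tgt k = b ∧ src l = b ∧ tgt l = a ∧
    src m = a ∧ tgt m = b

end Ctx

end ADN
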