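import Pool.Agent.ADN.Defs

/-!
# ADN-CombI

Path words from `v₀` to `v₃` which contain all three letters, first pattern: splitting at the letter `1`.
-/

namespace ADN

open AD

private theorem combI_app {ι W : Type} (src tgt : ι → W) (u v : List ι) (a b : W)
    (h : Ctx.pth src tgt a (u ++ v) b) : ∃ c, Ctx.pth src tgt a u c ∧ Ctx.pth src tgt c v b := by
  induction u generalizing a with
  | nil => exact ⟨a, rfl, h⟩
  | cons k u ih =>
    obtain ⟨h1, h2⟩ := h
    obtain ⟨c, h3, h4⟩ := ih _ h2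
    exact ⟨c, ⟨h1, h3⟩, h4⟩

theorem combI {W : Type} {v₀ v₁ v₂ v₃ : W} (h1 : v₀ ≠ v₁) (h2 : v₂ ≠ v₃)
    (h3 : ¬ (v₀ = v₂ ∧ v₁ = v₃)) : Ctx.Split v₀ v₁ v₂ v₃ := by
  intro w hw hp
  obtain ⟨s, t, rfl⟩ := List.append_of_mem (hw 1)
  obtain ⟨c, hs, hc, ht⟩ := combI_app _ _ _ _ _ _ hp
  have hc' : v₁ = c := hc
  have ht' : Ctx.pth ![v₀, v₁, v₂] ![v₁, v₂, v₃] v₂ t v₃ := ht
  subst hc'
  have hs0 : s ≠ [] := by
    rintro rfl
    exact h1 hs
  have ht0 : t ≠ [] := by
    rintro rfl
    exact h2 ht'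
  by_cases hl : 4 ≤ (s ++ 1 :: t).length
  · right
    refine ⟨hl, s, [1], t, by simp, hs0, by simp, ht0, hs, ?_, ht'⟩
    exact ⟨rfl, rfl⟩
  · left
    have hls : 0 < s.length := List.length_pos_iff.2 hs0
    have hlt : 0 < t.length := List.length_pos_iff.2 ht0
    rw [List.length_append, List.length_cons] at hl
    obtain ⟨x, rfl⟩ := List.length_eq_one_iff.1 (show s.length = 1 by omega)
    obtain ⟨y, rfl⟩ := List.length_eq_one_iff.1 (show t.length = 1 by omega)
    have m0 : (0 : Fin 3) = x ∨ (0 : Fin 3) = y := by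
      have := hw 0
      simpa using this
    have m2 : (2 : Fin 3) = x ∨ (2 : Fin 3) = y := by
      have := hw 2
      simpa using this
    rcases m0 with rfl | rfl
    · rcases m2 with h | rfl
      · exact absurd h (by decide)
      · rfl
    · rcases m2 with rfl | h
      · exfalso
        obtain ⟨e1, e2⟩ := hs
        have e1' : v₂ = v₀ := e1
        have e2' : v₃ = v₁ := e2
        exact h3 ⟨e1'.symm, e2'.symm⟩
      · exact absurd h (by decide)

end ADN
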