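import Pool.Agent.ADN.Defs

/-!
# ADN-CombII

Letters `0 : a → a`, `1 : a → b`, `2 : b → c`, with `a, b, c` pairwise different: a path from `a` to `c` is
`0^i 1 2` (induction on the list).
-/

namespace ADN

open AD

private theorem cII_c {W : Type} {a b c : W} (h2 : b ≠ c) (h3 : c ≠ a) (w : List (Fin 3))
    (h : Ctx.pth ![a, a, b] ![a, b, c] c w c) : w = [] := by
  cases w with
  | nil => rfl
  | cons k v =>
    exfalso
    have h0 : (![a, a, b] : Fin 3 → W) k = c := h.1
    fin_cases k
    · exact h3 h0.symm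
    · exact h3 h0.symm
    · exact h2 h0

private theorem cII_b {W : Type} {a b c : W} (h1 : a ≠ b) (h2 : b ≠ c) (h3 : c ≠ a)
    (w : List (Fin 3)) (h : Ctx.pth ![a, a, b] ![a, b, c] b w c) : w = [2] := by
  cases w with
  | nil => exact absurd h h2
  | cons k v =>
    have h0 : (![a, a, b] : Fin 3 → W) k = b := h.1
    have h' : Ctx.pth ![a, a, b] ![a, b, c] ((![a, b, c] : Fin 3 → W) k) v c := h.2
    fin_cases k
    · exact absurd h0 h1
    · exact absurd h0 h1
    · have h4 := cII_c h2 h3 v h'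
      rw [h4]
      rfl

private theorem cII_a {W : Type} {a b c : W} (h1 : a ≠ b) (h2 : b ≠ c) (h3 : c ≠ a)
    (w : List (Fin 3)) (h : Ctx.pth ![a, a, b] ![a, b, c] a w c) :
    ∃ i, w = List.replicate i 0 ++ [1, 2] := by
  induction w with
  | nil => exact absurd h.symm h3
  | cons k v ih =>
    have h0 : (![a, a, b] : Fin 3 → W) k = a := h.1
    have h' : Ctx.pth ![a, a, b] ![a, b, c] ((![a, b, c] : Fin 3 → W) k) v c := h.2
    fin_cases k
    · obtain ⟨i, hi⟩ := ih h'
      refine ⟨i + 1, ?_⟩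
      rw [hi, List.replicate_succ]
      rfl
    · have h4 := cII_b h1 h2 h3 v h'
      refine ⟨0, ?_⟩
      rw [h4]
      rfl
    · exact absurd h0.symm h1

private theorem cII_r {W : Type} {a b c : W} (i : ℕ) :
    Ctx.pth ![a, a, b] ![a, b, c] a (List.replicate i 0) a := by
  induction i with
  | zero => rfl
  | succ i ih => exact ⟨rfl, ih⟩

theorem combII {W : Type} {a b c : W} (h1 : a ≠ b) (h2 : b ≠ c) (h3 : c ≠ a) :
    Ctx.Split a a b c := by
  intro w hw hp
  obtain ⟨i, rfl⟩ := cII_a h1 h2 h3 w hp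
  rcases i with _ | _ | i
  · exfalso
    have h0 := hw 0
    revert h0
    decide
  · exact Or.inl rfl
  · refine Or.inr ⟨?_, List.replicate (i + 2) 0, [1], [2], ?_, ?_, ?_, ?_, cII_r _, ⟨rfl, rfl⟩,
      ⟨rfl, rfl⟩⟩
    · rw [List.length_append, List.length_replicate]
      show 4 ≤ i + 1 + 1 + 2
      omega
    · rw [List.append_assoc]
      rfl
    · rw [List.replicate_succ]
      exact List.cons_ne_nil _ _
    · exact List.cons_ne_nil _ _
    · exact List.cons_ne_nil _ _

end ADN
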