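import Pool.Agent.ADN.Defs

/-!
# ADN-CombIII

Path words for the letters `0 : a → b`, `1 : b → c`, `2 : c → c` with `a, b, c` pairwise different.
-/

namespace ADN

open AD

private theorem c3_all {W : Type} {a b c : W} (h2 : b ≠ c) (h3 : a ≠ c) (v : List (Fin 3))
    (h : Ctx.pth ![a, b, c] ![b, c, c] c v c) : ∀ k ∈ v, k = 2 := by
  induction v with
  | nil => simp
  | cons k v ih =>
    obtain ⟨hs, ht⟩ := h
    have hk : k = 2 := by
      fin_cases k
      · exact absurd hs h3
      · exact absurd hs h2
      · rfl
    subst hk
    intro l hl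
    rcases List.mem_cons.1 hl with rfl | hl
    · rfl
    · exact ih ht l hl

theorem combIII {W : Type} {a b c : W} (h1 : a ≠ b) (h2 : b ≠ c) (h3 : a ≠ c) :
    Ctx.Split a b c c := by
  intro w hw hp
  match w, hw, hp with
  | [], hw, _ => exact absurd (hw 0) (by simp)
  | k :: v, hw, hp =>
    obtain ⟨hs, ht⟩ := hp
    have hk : k = 0 := by
      fin_cases k
      · rfl
      · exact absurd hs h1.symm
      · exact absurd hs h3.symm
    subst hk
    match v, hw, ht with
    | [], _, ht => exact absurd ht h2
    | l :: u, hw, ht =>
      obtain ⟨hs', ht'⟩ := ht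
      have hl : l = 1 := by
        fin_cases l
        · exact absurd hs' h1
        · rfl
        · exact absurd hs' h2.symm
      subst hl
      have hu := c3_all h2 h3 u ht'
      match u, hw, ht', hu with
      | [], hw, _, _ => exact absurd (hw 2) (by decide)
      | [m], _, _, hu =>
        left
        rw [hu m (by simp)]
      | m :: m' :: u', _, ht', _ =>
        right
        refine ⟨by simp, [0], [1], m :: m' :: u', rfl, by simp, by simp, by simp, ?_, ?_, ht'⟩
        · exact ⟨rfl, rfl⟩
        · exact ⟨rfl, rfl⟩

end ADN
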