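import Pool.Agent.ADN.Defs

/-!
# ADN-CombIV

Letters `0 : a → a`, `1 : a → b`, `2 : b → b`, with `a ≠ b`: a path from `a` to `b` is
`0^i 1 2^j` (induction on the list).
-/

namespace ADN

open AD

private theorem cIV_b {W : Type} {a b : W} (h1 : a ≠ b) (w : List (Fin 3))
    (h : Ctx.pth ![a, a, b] ![a, b, b] b w b) : ∃ j, w = List.replicate j 2 := by
  induction w with
  | nil => exact ⟨0, rfl⟩
  | cons k v ih =>
    have h0 : (![a, a, b] : Fin 3 → W) k = b := h.1
    have h' : Ctx.pth ![a, a, b] ![a, b, b] ((![a, b, b] : Fin 3 → W) k) v b := h.2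
    fin_cases k
    · exact absurd h0 h1
    · exact absurd h0 h1
    · obtain ⟨j, hj⟩ := ih h'
      refine ⟨j + 1, ?_⟩
      rw [hj, List.replicate_succ]
      rfl

private theorem cIV_a {W : Type} {a b : W} (h1 : a ≠ b) (w : List (Fin 3))
    (h : Ctx.pth ![a, a, b] ![a, b, b] a w b) :
    ∃ i j, w = List.replicate i 0 ++ [1] ++ List.replicate j 2 := by
  induction w with
  | nil => exact absurd h h1
  | cons k v ih =>
    have h0 : (![a, a, b] : Fin 3 → W) k = a := h.1
    have h' : Ctx.pth ![a, a, b] ![a, b, b] ((![a, b, b] : Fin 3 → W) k) v b := h.2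
    fin_cases k
    · obtain ⟨i, j, hi⟩ := ih h'
      refine ⟨i + 1, j, ?_⟩
      rw [hi, List.replicate_succ]
      rfl
    · obtain ⟨j, hj⟩ := cIV_b h1 v h'
      refine ⟨0, j, ?_⟩
      rw [hj]
      rfl
    · exact absurd h0.symm h1

private theorem cIV_r {W : Type} {a b : W} (i : ℕ) :
    Ctx.pth ![a, a, b] ![a, b, b] a (List.replicate i 0) a := by
  induction i with
  | zero => rfl
  | succ i ih => exact ⟨rfl, ih⟩

private theorem cIV_s {W : Type} {a b : W} (i : ℕ) :
    Ctx.pth ![a, a, b] ![a, b, b] b (List.replicate i 2) b := by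
  induction i with
  | zero => rfl
  | succ i ih => exact ⟨rfl, ih⟩

theorem combIV {W : Type} {a b : W} (h1 : a ≠ b) : Ctx.Split a a b b := by
  intro w hw hp
  obtain ⟨i, j, rfl⟩ := cIV_a h1 w hp
  have hi : i ≠ 0 := by
    rintro rfl
    have h0 := hw 0
    rw [List.mem_append, List.mem_append, List.mem_replicate, List.mem_replicate] at h0
    rcases h0 with (h0 | h0) | h0
    · exact h0.1 rfl
    · revert h0
      decide
    · exact absurd h0.2 (by decide)
  have hj : j ≠ 0 := by
    rintro rfl
    have h0 := hw 2
    rw [List.mem_append, List.mem_append, List.mem_replicate, List.mem_replicate] at h0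
    rcases h0 with (h0 | h0) | h0
    · exact absurd h0.2 (by decide)
    · revert h0
      decide
    · exact h0.1 rfl
  by_cases h : i = 1 ∧ j = 1
  · obtain ⟨rfl, rfl⟩ := h
    exact Or.inl rfl
  · refine Or.inr ⟨?_, List.replicate i 0, [1], List.replicate j 2, rfl, ?_, List.cons_ne_nil _ _, ?_,
      cIV_r _, ⟨rfl, rfl⟩, cIV_s _⟩
    · rw [List.length_append, List.length_append, List.length_replicate, List.length_replicate,
        List.length_singleton]
      omega
    · intro h0
      have := congrArg List.length h0
      rw [List.length_replicate] at this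
      exact hi this
    · intro h0
      have := congrArg List.length h0
      rw [List.length_replicate] at this
      exact hj this

end ADN
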