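import Pool.Agent.ADN.Defs

/-!
# ADN-Basic

Elementary facts on sorted elements.

PLAN.  All immediate.  `eJ`: `e i` need not be in `A` for `i = 0`, but `J` is an ideal.  Orthogonality:
`C.coi.ortho`, idempotence `C.coi.idem`, `∑ e i = 1` `C.coi.complete`.
* S_mul: `x ∈ e_a J e_b`, `y ∈ e_b J e_c` gives `x * y ∈ e_a J e_c`.
* S_ne: `x ∈ e_a J e_b` and `b ≠ c` gives `x * e c = 0`; similarly on the left.
* mul_eq_zero_of_ne: products of sorted elements with different middle vertices vanish.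
* S_corner: every `x ∈ J` has `e a * x * e b ∈ e_a J e_b`.
* tors_unit: if `x ∈ A` and `n • x = 0` with `n` not divisible by `p`, then `x = 0` (Bezout with `p ^ K`).
* inv_mod: if `¬ p ∣ n`, there is `m` with `(m * n) • x = x` for all `x ∈ A`.
* S_path: the product of the letters of a nonempty path word of sorted letters is sorted (induction on the word).
* wv_cons / wv_append / wv_eq.
-/

namespace ADN

open AD

namespace Ctx

variable {U : Type} [Ring U] (C : Ctx U)

private theorem ortho {a b : Fin (C.s + 1)} (h : a ≠ b) : C.e a * C.e b = 0 :=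
  C.coi.toOrthogonalIdempotents.ortho h

private theorem idem (a : Fin (C.s + 1)) : C.e a * C.e a = C.e a :=
  (C.coi.toOrthogonalIdempotents.idem a).eq

theorem S_zero (a b : Fin (C.s + 1)) : C.S a b 0 :=
  ⟨C.J.zero_mem, mul_zero _, zero_mul _⟩

theorem S_add {a b : Fin (C.s + 1)} {x y : U} (hx : C.S a b x) (hy : C.S a b y) :
    C.S a b (x + y) := by
  refine ⟨C.J.add_mem hx.1 hy.1, ?_, ?_⟩
  · rw [mul_add, hx.2.1, hy.2.1]
  · rw [add_mul, hx.2.2, hy.2.2]

theorem S_neg {a b : Fin (C.s + 1)} {x : U} (hx : C.S a b x) : C.S a b (-x) := by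
  refine ⟨C.J.neg_mem hx.1, ?_, ?_⟩
  · rw [mul_neg, hx.2.1]
  · rw [neg_mul, hx.2.2]

theorem S_mul {a b c : Fin (C.s + 1)} {x y : U} (hx : C.S a b x) (hy : C.S b c y) :
    C.S a c (x * y) := by
  refine ⟨C.J_left x y hy.1, ?_, ?_⟩
  · rw [← mul_assoc, hx.2.1]
  · rw [mul_assoc, hy.2.2]

theorem S_ne_right {a b c : Fin (C.s + 1)} {x : U} (hx : C.S a b x) (h : b ≠ c) :
    x * C.e c = 0 := by
  rw [← hx.2.2, mul_assoc, ortho C h, mul_zero]

theorem S_ne_left {a b c : Fin (C.s + 1)} {x : U} (hx : C.S a b x) (h : c ≠ a) :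
    C.e c * x = 0 := by
  rw [← hx.2.1, ← mul_assoc, ortho C h, zero_mul]

theorem S_mul_ne {a b c d : Fin (C.s + 1)} {x y : U} (hx : C.S a b x) (hy : C.S c d y)
    (h : b ≠ c) : x * y = 0 := by
  rw [← hx.2.2, mul_assoc, S_ne_left C hy h, mul_zero]

theorem S_corner (a b : Fin (C.s + 1)) {x : U} (hx : x ∈ C.J) : C.S a b (C.e a * x * C.e b) := by
  refine ⟨C.J_right _ _ (C.J_left _ _ hx), ?_, ?_⟩
  · rw [← mul_assoc, ← mul_assoc, idem]
  · rw [mul_assoc, idem]

theorem S_mem {a b : Fin (C.s + 1)} {x : U} (hx : C.S a b x) : x ∈ C.A := C.J_le hx.1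

/-- the elements `p e_a`, `a ≠ 0`, are loops -/
theorem S_p {a : Fin (C.s + 1)} (ha : a ≠ 0) : C.S a a ((C.p : ℤ) • C.e a) := by
  refine ⟨C.pJ _ (C.e_mem a ha), ?_, ?_⟩
  · rw [mul_smul_comm, idem]
  · rw [smul_mul_assoc, idem]

theorem tors_unit {n : ℤ} (hn : ¬ (C.p : ℤ) ∣ n) {x : U} (hx : x ∈ C.A) (h : n • x = 0) :
    x = 0 := by
  have hpr : Prime (C.p : ℤ) := Nat.prime_iff_prime_int.1 C.hp
  have hco : IsCoprime ((C.p : ℤ) ^ C.K) n :=
    IsCoprime.pow_left ((Prime.coprime_iff_not_dvd hpr).2 hn)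
  obtain ⟨u, v, huv⟩ := hco
  have h1 : (u * (C.p : ℤ) ^ C.K + v * n) • x = x := by rw [huv, one_smul]
  rw [add_smul, mul_smul, mul_smul, C.tors x hx, h, smul_zero, smul_zero, add_zero] at h1
  exact h1.symm

theorem inv_mod {n : ℤ} (hn : ¬ (C.p : ℤ) ∣ n) : ∃ m : ℤ, ∀ x ∈ C.A, (m * n) • x = x := by
  have hpr : Prime (C.p : ℤ) := Nat.prime_iff_prime_int.1 C.hp
  have hco : IsCoprime ((C.p : ℤ) ^ C.K) n :=
    IsCoprime.pow_left ((Prime.coprime_iff_not_dvd hpr).2 hn)
  obtain ⟨u, v, huv⟩ := hco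
  refine ⟨v, fun x hx => ?_⟩
  have h1 : (u * (C.p : ℤ) ^ C.K + v * n) • x = x := by rw [huv, one_smul]
  rw [add_smul, mul_smul u, C.tors x hx, smul_zero, zero_add] at h1
  exact h1

variable {ι : Type} {src tgt : ι → Fin (C.s + 1)} {r : ι → U}

theorem S_path (hr : C.Srt src tgt r) : ∀ (v : List ι) (a b : Fin (C.s + 1)), v ≠ [] →
    pth src tgt a v b → C.S a b (v.map r).prod := by
  intro v
  induction v with
  | nil => intro a b h; exact absurd rfl h
  | cons k v ih =>
    intro a b _ hp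
    obtain ⟨h1, h2⟩ := hp
    by_cases hv : v = []
    · subst hv
      have h3 : tgt k = b := h2
      have h4 := hr k
      rw [h1, h3] at h4
      simpa using h4
    · rw [List.map_cons, List.prod_cons]
      have h4 := hr k
      rw [h1] at h4
      exact S_mul C h4 (ih (tgt k) b hv h2)

theorem wv_nil (r : ι → U) (a : Fin (C.s + 1)) : C.wv r a [] = C.e a := by
  unfold wv
  rw [List.map_nil, List.prod_nil, mul_one]

theorem wv_eq (hr : C.Srt src tgt r) {a b : Fin (C.s + 1)} {v : List ι} (hv : v ≠ [])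
    (hp : pth src tgt a v b) : C.wv r a v = (v.map r).prod :=
  (S_path C hr v a b hv hp).2.1

/-- `v.map r` vanishes unless `v` is a path -/
theorem prod_ne_zero_pth (hr : C.Srt src tgt r) : ∀ (v : List ι) (a b : Fin (C.s + 1)),
    C.e a * (v.map r).prod * C.e b ≠ 0 → pth src tgt a v b := by
  intro v
  induction v with
  | nil =>
    intro a b h
    show a = b
    by_contra hab
    apply h
    rw [List.map_nil, List.prod_nil, mul_one, ortho C hab]
  | cons k v ih =>
    intro a b h
    rw [List.map_cons, List.prod_cons] at h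
    have h1 : src k = a := by
      by_contra hne
      apply h
      rw [← mul_assoc, S_ne_left C (hr k) (Ne.symm hne), zero_mul, zero_mul]
    refine ⟨h1, ih (tgt k) b ?_⟩
    intro h0
    apply h
    have h2 : C.e a * (r k * (v.map r).prod) * C.e b =
        C.e a * r k * (C.e (tgt k) * (v.map r).prod * C.e b) := by
      conv_lhs => rw [← (hr k).2.2]
      noncomm_ring
    rw [h2, h0, mul_zero]

theorem pth_append {W : Type} {src tgt : ι → W} : ∀ (v w : List ι) (a c : W),
    pth src tgt a (v ++ w) c ↔ ∃ b, pth src tgt a v b ∧ pth src tgt b w c := by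
  intro v
  induction v with
  | nil =>
    intro w a c
    constructor
    · intro h
      exact ⟨a, rfl, h⟩
    · rintro ⟨b, h1, h2⟩
      have h3 : a = b := h1
      rw [h3]
      exact h2
  | cons k v ih =>
    intro w a c
    constructor
    · rintro ⟨h1, h2⟩
      obtain ⟨b, h3, h4⟩ := (ih w (tgt k) c).1 h2
      exact ⟨b, ⟨h1, h3⟩, h4⟩
    · rintro ⟨b, ⟨h1, h3⟩, h4⟩
      exact ⟨h1, (ih w (tgt k) c).2 ⟨b, h3, h4⟩⟩

/-- the endpoint of a path word is determined -/
theorem pth_unique {W : Type} {src tgt : ι → W} : ∀ (v : List ι) (a b c : W),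
    pth src tgt a v b → pth src tgt a v c → b = c := by
  intro v
  induction v with
  | nil =>
    intro a b c h1 h2
    have h3 : a = b := h1
    have h4 : a = c := h2
    rw [← h3, ← h4]
  | cons k v ih =>
    intro a b c h1 h2
    exact ih (tgt k) b c h1.2 h2.2

theorem val_add (r : ι → U) (a : Fin (C.s + 1)) (c c' : List ι →₀ ℤ) :
    C.val r a (c + c') = C.val r a c + C.val r a c' := by
  classical
  unfold val
  rw [Finsupp.sum_add_index']
  · intro v
    rw [zero_smul]
  · intro v n m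
    rw [add_smul]

theorem val_single (r : ι → U) (a : Fin (C.s + 1)) (v : List ι) (n : ℤ) :
    C.val r a (Finsupp.single v n) = n • C.wv r a v := by
  unfold val
  rw [Finsupp.sum_single_index]
  rw [zero_smul]

theorem val_zero (r : ι → U) (a : Fin (C.s + 1)) : C.val r a (0 : List ι →₀ ℤ) = 0 := by
  unfold val
  rw [Finsupp.sum_zero_index]

end Ctx

end ADN
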