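import Pool.Agent.ADN.Defs
import Pool.Agent.ADN.Basic

/-!
# ADN-Exp

Expansion of a polynomial in sorted letters.

PLAN.  Put `x v = (∑ i, d v i • e i) + ∑_{k : ν k = v} r k`, `ev f = FreeAlgebra.lift ℤ x f`.  Prove by
`FreeAlgebra.induction` on `f`, for all `a b` simultaneously, the existence of `c` with path-compatible support such that
`e a * ev f * e b = val r a c` for all sorted `r` and, in addition, `a = 0 → b = 0 → c [] = aug f` (for `a = 0 ≠ b` the empty word is
not in the support since `[]` is a path from `a` to `b` only for `a = b`; so `f ∈ Pp`, i.e. `aug f = 0`, gives the stated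
clause).
* constants `n`: `e a * (n • 1) * e b = n • e a` if `a = b`, else `0` (orthogonality): `c = single [] n` or `0`.
* `X v`: `e a * x v * e b = (if a = b then d v a • e a else 0) + ∑_{k : ν k = v, src k = a, tgt k = b} r k`
  (`S_ne_left`, `S_ne_right`); `c = single [] (d v a)` (if `a = b`) `+ ∑ single [k] 1`; for `a = 0` the first coefficient is
  `d v 0 = 0 = aug (X v)`.
* sums: add.
* products: `e a * ev f * ev g * e b = ∑_g (e a * ev f * e g) (e g * ev g * e b)` (`C.coi.complete`), and
  `val r a c * val r g c' = val r a (c ⋆ c')` with `(single v n) ⋆ (single w m) = single (v ++ w) (n m)`, because for a path `v` from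
  `a` to `g`: `wv r a v * wv r g w = wv r a (v ++ w)` (for `v ≠ []` the value of `v` ends with `e g`; for `v = []`, `a = g`).
  Coefficient of `[]` for `a = b = 0`: only `v = w = []`, `g = 0` contributes: `aug f * aug g`.
-/

namespace ADN

open AD

namespace Ctx

variable {U : Type} [Ring U] (C : Ctx U)

/-- path-compatible coefficients -/
private def PS {ι : Type} (src tgt : ι → Fin (C.s + 1)) (a b : Fin (C.s + 1)) :
    AddSubmonoid (List ι →₀ ℤ) where
  carrier := {c | ∀ v, c v ≠ 0 → pth src tgt a v b}
  zero_mem' := fun v h => absurd rfl h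
  add_mem' := by
    intro c c' hc hc' v h
    by_cases h1 : c v = 0
    · apply hc' v
      intro h2
      apply h
      rw [Finsupp.add_apply, h1, h2, add_zero]
    · exact hc v h1

private theorem PS_single {ι : Type} {src tgt : ι → Fin (C.s + 1)} {a b : Fin (C.s + 1)}
    {v : List ι} (n : ℤ) (h : pth src tgt a v b) : Finsupp.single v n ∈ PS C src tgt a b := by
  intro w hw
  by_cases h1 : v = w
  · rw [← h1]
    exact h
  · exact absurd (Finsupp.single_eq_of_ne (Ne.symm h1)) hw

/-- concatenation -/
private noncomputable def star {ι : Type} (c c' : List ι →₀ ℤ) : List ι →₀ ℤ :=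
  c.sum fun v n => c'.sum fun w m => Finsupp.single (v ++ w) (n * m)

private noncomputable def valHom {ι : Type} (r : ι → U) (a : Fin (C.s + 1)) :
    (List ι →₀ ℤ) →+ U where
  toFun := C.val r a
  map_zero' := val_zero C r a
  map_add' := val_add C r a

private theorem valHom_apply {ι : Type} (r : ι → U) (a : Fin (C.s + 1)) (c : List ι →₀ ℤ) :
    valHom C r a c = C.val r a c := rfl

private theorem eort {a b : Fin (C.s + 1)} (h : a ≠ b) : C.e a * C.e b = 0 :=
  C.coi.toOrthogonalIdempotents.ortho h

private theorem eidem (a : Fin (C.s + 1)) : C.e a * C.e a = C.e a :=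
  (C.coi.toOrthogonalIdempotents.idem a).eq

private theorem wv_mul {ι : Type} {src tgt : ι → Fin (C.s + 1)} {r : ι → U}
    (hr : C.Srt src tgt r) {a g : Fin (C.s + 1)} {v : List ι} (hv : pth src tgt a v g)
    (w : List ι) : C.wv r a v * C.wv r g w = C.wv r a (v ++ w) := by
  unfold wv
  rw [List.map_append, List.prod_append]
  by_cases h : v = []
  · subst h
    have h1 : a = g := hv
    rw [h1, List.map_nil, List.prod_nil, mul_one, one_mul, ← mul_assoc, eidem]
  · have h2 := (S_path C hr v a g h hv).2.2
    rw [mul_assoc, ← mul_assoc (v.map r).prod, h2]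

private theorem val_star {ι : Type} {src tgt : ι → Fin (C.s + 1)} {r : ι → U}
    (hr : C.Srt src tgt r) {a g : Fin (C.s + 1)} {c : List ι →₀ ℤ} (hc : c ∈ PS C src tgt a g)
    (c' : List ι →₀ ℤ) : C.val r a (star c c') = C.val r a c * C.val r g c' := by
  have h1 : C.val r a (star c c') =
      c.sum fun v n => c'.sum fun w m => (n * m) • C.wv r a (v ++ w) := by
    rw [← valHom_apply]
    unfold star
    rw [map_finsuppSum]
    apply Finsupp.sum_congr
    intro v _
    rw [map_finsuppSum]
    apply Finsupp.sum_congr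
    intro w _
    rw [valHom_apply, val_single]
  rw [h1]
  unfold val
  rw [Finsupp.sum_mul]
  apply Finsupp.sum_congr
  intro v hv
  rw [Finsupp.mul_sum]
  apply Finsupp.sum_congr
  intro w _
  rw [smul_mul_smul_comm, wv_mul C hr (hc v (Finsupp.mem_support_iff.1 hv))]

private theorem PS_star {ι : Type} {src tgt : ι → Fin (C.s + 1)} {a g b : Fin (C.s + 1)}
    {c c' : List ι →₀ ℤ} (hc : c ∈ PS C src tgt a g) (hc' : c' ∈ PS C src tgt g b) :
    star c c' ∈ PS C src tgt a b := by
  unfold star
  apply AddSubmonoid.sum_mem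
  intro v hv
  apply AddSubmonoid.sum_mem
  intro w hw
  apply PS_single
  exact (pth_append v w a b).2 ⟨g, hc v (Finsupp.mem_support_iff.1 hv),
    hc' w (Finsupp.mem_support_iff.1 hw)⟩

private theorem star_nil {ι : Type} (c c' : List ι →₀ ℤ) : star c c' [] = c [] * c' [] := by
  classical
  unfold star
  rw [Finsupp.sum_apply, Finsupp.sum, Finset.sum_eq_single []]
  · rw [Finsupp.sum_apply, Finsupp.sum, Finset.sum_eq_single []]
    · rw [List.append_nil, Finsupp.single_eq_same]
    · intro w _ hw
      rw [List.nil_append]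
      exact Finsupp.single_eq_of_ne (Ne.symm hw)
    · intro h
      rw [Finsupp.notMem_support_iff.1 h, mul_zero, Finsupp.single_zero]
      rfl
  · intro v _ hv
    rw [Finsupp.sum_apply, Finsupp.sum]
    apply Finset.sum_eq_zero
    intro w _
    apply Finsupp.single_eq_of_ne
    intro h
    exact hv (List.append_eq_nil_iff.1 h.symm).1
  · intro h
    rw [Finsupp.notMem_support_iff.1 h, Finsupp.sum_apply, Finsupp.sum]
    apply Finset.sum_eq_zero
    intro w _
    rw [zero_mul, Finsupp.single_zero]
    rfl

private theorem corner_r {ι : Type} [DecidableEq ι] {src tgt : ι → Fin (C.s + 1)} {r : ι → U}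
    (hr : C.Srt src tgt r) (a b : Fin (C.s + 1)) (k : ι) :
    C.e a * r k * C.e b = if src k = a ∧ tgt k = b then C.wv r a [k] else 0 := by
  split_ifs with h
  · unfold wv
    rw [List.map_singleton, List.prod_singleton, mul_assoc, ← h.2, (hr k).2.2]
  · by_cases h1 : src k = a
    · have h2 : tgt k ≠ b := fun h3 => h ⟨h1, h3⟩
      rw [mul_assoc, S_ne_right C (hr k) h2, mul_zero]
    · rw [S_ne_left C (hr k) (Ne.symm h1), zero_mul]

private theorem exp_aux {ι : Type} [Fintype ι] [DecidableEq ι] (ν : ι → ℕ)
    (src tgt : ι → Fin (C.s + 1))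
    (d : ℕ → Fin (C.s + 1) → ℤ) (hd : ∀ v, d v 0 = 0) (f : P) : ∀ a b : Fin (C.s + 1),
    ∃ c : List ι →₀ ℤ, c ∈ PS C src tgt a b ∧ (a = 0 → b = 0 → c [] = aug f) ∧
      ∀ r : ι → U, C.Srt src tgt r →
        C.e a * FreeAlgebra.lift ℤ
          (fun v => (∑ i, d v i • C.e i) + ∑ k with ν k = v, r k) f * C.e b = C.val r a c := by
  classical
  induction f using FreeAlgebra.induction with
  | grade0 n =>
    intro a b
    by_cases hab : a = b
    · refine ⟨Finsupp.single [] n, PS_single C n hab, fun _ _ => ?_, fun r _ => ?_⟩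
      · rw [Finsupp.single_eq_same, AlgHom.commutes]
        rfl
      · rw [AlgHom.commutes, val_single, wv_nil, hab, Algebra.algebraMap_eq_smul_one,
          mul_smul_comm, mul_one, smul_mul_assoc, eidem]
    · refine ⟨0, (PS C src tgt a b).zero_mem, fun h1 h2 => ?_, fun r _ => ?_⟩
      · exact absurd (h1.trans h2.symm) hab
      · rw [AlgHom.commutes, val_zero, Algebra.algebraMap_eq_smul_one,
          mul_smul_comm, mul_one, smul_mul_assoc, eort C hab, smul_zero]
  | grade1 v =>
    intro a b
    refine ⟨(if a = b then Finsupp.single [] (d v a) else 0) +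
      ∑ k with (ν k = v ∧ src k = a ∧ tgt k = b), Finsupp.single [k] 1, ?_, fun h1 h2 => ?_,
      fun r hr => ?_⟩
    · apply AddSubmonoid.add_mem
      · split_ifs with hab
        · exact PS_single C _ hab
        · exact (PS C src tgt a b).zero_mem
      · apply AddSubmonoid.sum_mem
        intro k hk
        obtain ⟨-, h3, h4⟩ := (Finset.mem_filter.1 hk).2
        exact PS_single C _ ⟨h3, h4⟩
    · rw [if_pos (h1.trans h2.symm), Finsupp.add_apply, Finsupp.single_eq_same, h1, hd, zero_add,
        Finsupp.finsetSum_apply]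
      rw [Finset.sum_eq_zero]
      · unfold aug
        rw [FreeAlgebra.lift_ι_apply]
      · intro k _
        apply Finsupp.single_eq_of_ne
        intro h
        simp at h
    · rw [FreeAlgebra.lift_ι_apply, mul_add, add_mul, val_add, Finset.mul_sum, Finset.sum_mul,
        Finset.mul_sum, Finset.sum_mul]
      congr 1
      · rw [Finset.sum_eq_single a]
        · rw [mul_smul_comm, smul_mul_assoc, eidem]
          split_ifs with hab
          · rw [val_single, wv_nil, ← hab, eidem]
          · rw [val_zero, eort C hab, smul_zero]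
        · intro i _ hi
          rw [mul_smul_comm, smul_mul_assoc, eort C (Ne.symm hi), zero_mul, smul_zero]
        · intro h
          exact absurd (Finset.mem_univ a) h
      · rw [← valHom_apply, map_sum]
        have h5 : ∀ k, C.e a * r k * C.e b =
            if src k = a ∧ tgt k = b then C.wv r a [k] else 0 := corner_r C hr a b
        rw [Finset.sum_congr rfl (fun k _ => h5 k), ← Finset.sum_filter, Finset.filter_filter]
        apply Finset.sum_congr rfl
        intro k _
        rw [valHom_apply, val_single, one_smul]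
  | mul f g ihf ihg =>
    intro a b
    choose cf h1 h2 h3 using ihf
    choose cg h4 h5 h6 using ihg
    refine ⟨∑ g, star (cf a g) (cg g b), ?_, fun ha hb => ?_, fun r hr => ?_⟩
    · apply AddSubmonoid.sum_mem
      intro g _
      exact PS_star C (h1 a g) (h4 g b)
    · rw [ha, hb, Finsupp.finsetSum_apply, Finset.sum_eq_single 0, star_nil, h2 0 0 rfl rfl,
        h5 0 0 rfl rfl, map_mul]
      · intro i _ hi
        rw [star_nil]
        have h7 : cf 0 i [] = 0 := by
          by_contra h
          exact hi (h1 0 i [] h).symm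
        rw [h7, zero_mul]
      · intro h
        exact absurd (Finset.mem_univ _) h
    · rw [map_mul, ← valHom_apply, map_sum]
      set x := FreeAlgebra.lift ℤ
          (fun v => (∑ i, d v i • C.e i) + ∑ k with ν k = v, r k) f with hx
      set y := FreeAlgebra.lift ℤ
          (fun v => (∑ i, d v i • C.e i) + ∑ k with ν k = v, r k) g with hy
      have h8 : C.e a * (x * y) * C.e b = ∑ g, (C.e a * x * C.e g) * (C.e g * y * C.e b) := by
        have h9 : C.e a * (x * y) * C.e b = C.e a * x * (∑ g, C.e g) * (y * C.e b) := by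
          rw [C.coi.complete, mul_one]
          noncomm_ring
        rw [h9, Finset.mul_sum, Finset.sum_mul]
        apply Finset.sum_congr rfl
        intro g _
        conv_lhs => rw [← eidem C g]
        noncomm_ring
      rw [h8]
      apply Finset.sum_congr rfl
      intro g _
      rw [valHom_apply, val_star C hr (h1 a g), ← h3 a g r hr, ← h6 g b r hr]
  | add f g ihf ihg =>
    intro a b
    obtain ⟨c, h1, h2, h3⟩ := ihf a b
    obtain ⟨c', h4, h5, h6⟩ := ihg a b
    refine ⟨c + c', AddSubmonoid.add_mem _ h1 h4, fun ha hb => ?_, fun r hr => ?_⟩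
    · rw [Finsupp.add_apply, h2 ha hb, h5 ha hb, map_add]
    · rw [map_add, mul_add, add_mul, h3 r hr, h6 r hr, val_add]

theorem exp {ι : Type} [Fintype ι] [DecidableEq ι] (ν : ι → ℕ) (src tgt : ι → Fin (C.s + 1))
    (d : ℕ → Fin (C.s + 1) → ℤ) (hd : ∀ v, d v 0 = 0) (f : P) (a b : Fin (C.s + 1)) :
    ∃ c : List ι →₀ ℤ, (∀ v ∈ c.support, pth src tgt a v b) ∧ (f ∈ Pp → a = 0 → c [] = 0) ∧
      ∀ r : ι → U, C.Srt src tgt r →
        C.e a * FreeAlgebra.lift ℤ
          (fun v => (∑ i, d v i • C.e i) + ∑ k with ν k = v, r k) f * C.e b = C.val r a c := by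
  obtain ⟨c, h1, h2, h3⟩ := exp_aux C ν src tgt d hd f a b
  refine ⟨c, fun v hv => h1 v (Finsupp.mem_support_iff.1 hv), fun hf ha => ?_, h3⟩
  by_cases hb : b = 0
  · rw [h2 ha hb]
    exact hf
  · by_contra h
    have h4 : a = b := h1 [] h
    exact hb (h4.symm.trans ha)

end Ctx

end ADN
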