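import Pool.Agent.ADN.Defs
import Pool.Agent.ADN.FgeT
import Pool.Agent.AD.Expo
import Pool.Agent.AD.Ess

/-!
# ADN-NilOr

An almost distributive `I` is nilpotent or strictly smaller than its nilpotent hull.
-/

namespace ADN

open AD

theorem nil_or {I T : Submodule ℤ P} (hI : AlmDist I) (hT : IsNilHull I T) :
    (∃ n, NilAt I n) ∨ I < T := by
  by_cases hIT : I < T
  · exact Or.inr hIT
  left
  have hTI : I = T := hT.2.1.eq_or_lt.resolve_right hIT
  obtain ⟨a, b, c, j, hd⟩ := hI.expo_dia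
  let K : ℕ → Submodule ℤ P := fun n => I ⊔ Fge (n + 1)
  have hKT : ∀ n, K n ∈ TI := fun n => isT_sup hI.1 (isT_Fge (n + 1) (Nat.le_add_left 1 n))
  have hanti : Antitone K := fun n m hnm =>
    sup_le_sup_left (Fge_anti (Nat.add_le_add_right hnm 1)) I
  have hIK : ∀ n, I ≤ K n := fun n => le_sup_left
  by_cases hne : ∀ n, K n ⊓ j ≠ I
  · exfalso
    obtain ⟨e, he, hlt, hle⟩ := hd.chain expo_TI_inf expo_TI_sup hI.expo_dist K hKT hanti hIK hne
    obtain ⟨f, hfe, hfI⟩ := Set.exists_of_ssubset hlt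
    apply hfI
    show f ∈ I
    rw [hTI]
    refine hT.2.2.2 f (IsT.le he hfe) fun D _ hID hn => ?_
    obtain ⟨n, hn⟩ := hn
    have h1 : K n ≤ D := sup_le hID ((Fge_anti (Nat.le_succ n)).trans (Fge_le hn))
    exact h1 (hle n hfe)
  · push Not at hne
    obtain ⟨n, hn⟩ := hne
    have h := hd.ess expo_TI_inf expo_TI_sup hI.expo_dist (K n) (hKT n) (hIK n) hn
    refine ⟨n + 1, nilAt_of_le ?_⟩
    calc Fge (n + 1) ≤ K n := le_sup_right
      _ = I := h

end ADN
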