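import Pool.Agent.ADN.Defs
import Pool.Agent.ADN.Basic

/-!
# ADN-Nest

Two multiples of the same elements.

`nest_dv`: one of two nonzero integers divides the other one as an operator on `A` (exact powers of `p`, `inv_mod`).
So one of `n • m`, `n' • m` is a multiple of the other one and lies in two of the three ideals.
-/

namespace ADN

open AD

namespace Ctx

variable {U : Type} [Ring U] (C : Ctx U)

private theorem nest_pw {n : ℤ} (hn : n ≠ 0) : ∃ (v : ℕ) (u : ℤ), n = (C.p : ℤ) ^ v * u ∧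
    ¬ (C.p : ℤ) ∣ u := by
  have h1 : FiniteMultiplicity (C.p : ℤ) n := by
    rw [Int.finiteMultiplicity_iff]
    refine ⟨?_, hn⟩
    rw [Int.natAbs_natCast]
    exact C.hp.one_lt.ne'
  obtain ⟨u, hu, hu'⟩ := h1.exists_eq_pow_mul_and_not_dvd
  exact ⟨_, u, hu, hu'⟩

private theorem nest_le {v w : ℕ} {n n' u u' : ℤ} (hvw : v ≤ w) (hn : n = (C.p : ℤ) ^ v * u)
    (hn' : n' = (C.p : ℤ) ^ w * u') (hu : ¬ (C.p : ℤ) ∣ u) :
    ∃ k : ℤ, ∀ m ∈ C.A, n' • m = (k * n) • m := by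
  obtain ⟨t, ht⟩ := inv_mod C hu
  refine ⟨(C.p : ℤ) ^ (w - v) * u' * t, fun m hm => ?_⟩
  have h1 : (C.p : ℤ) ^ (w - v) * u' * t * n = n' * (t * u) := by
    have h2 : (C.p : ℤ) ^ w = (C.p : ℤ) ^ (w - v) * (C.p : ℤ) ^ v := by
      rw [← pow_add, Nat.sub_add_cancel hvw]
    rw [hn, hn', h2]
    ring
  rw [h1, mul_smul, ht m hm]

private theorem nest_dv {n n' : ℤ} (hn : n ≠ 0) (hn' : n' ≠ 0) :
    (∃ k : ℤ, ∀ m ∈ C.A, n' • m = (k * n) • m) ∨ ∃ k : ℤ, ∀ m ∈ C.A, n • m = (k * n') • m := by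
  obtain ⟨v, u, h1, h2⟩ := nest_pw C hn
  obtain ⟨w, u', h3, h4⟩ := nest_pw C hn'
  rcases le_total v w with h | h
  · exact Or.inl (nest_le C h h1 h3 h2)
  · exact Or.inr (nest_le C h h3 h1 h4)

theorem nest {V : Fin 3 → AddSubgroup U} (hV : C.Vals V) (n n' : ℤ) (M : Set U)
    (hM : ∀ m ∈ M, m ∈ C.A) (h : ∀ m ∈ M, In3 V (n • m) (n' • m)) : ∀ m ∈ M, n • m = 0 := by
  intro m hm
  obtain ⟨h0, h1, h2⟩ := h m hm
  by_cases hn : n = 0
  · rw [hn, zero_smul]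
  by_cases hn' : n' = 0
  · rw [hn', zero_smul, add_zero] at h2
    exact hV.disj 0 2 (by decide) _ h0 h2
  rcases nest_dv C hn hn' with ⟨k, hk⟩ | ⟨k, hk⟩
  · have h3 : n' • m ∈ V 0 := by
      rw [hk m (hM m hm), mul_smul]
      exact (V 0).zsmul_mem h0 k
    have h4 : n' • m = 0 := hV.disj 0 1 (by decide) _ h3 h1
    rw [h4, add_zero] at h2
    exact hV.disj 0 2 (by decide) _ h0 h2
  · have h3 : n • m ∈ V 1 := by
      rw [hk m (hM m hm), mul_smul]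
      exact (V 1).zsmul_mem h1 k
    exact hV.disj 0 1 (by decide) _ h0 h3

end Ctx

end ADN
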