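import Pool.Agent.ADN.Defs
import Pool.Agent.ADN.VanCore
import Pool.Agent.ADN.CombI
import Pool.Agent.ADN.CombII
import Pool.Agent.ADN.CombIII
import Pool.Agent.ADN.CombIV

/-!
# ADN-Van (assembly)
-/

namespace ADN

open AD

namespace Ctx

variable {U : Type} [Ring U] (C : Ctx U)

theorem van (hC : C.Cub) {v₀ v₁ v₂ v₃ : Fin (C.s + 1)} (h : Bad v₀ v₁ v₂ v₃) {x y z : U}
    (hx : C.S v₀ v₁ x) (hy : C.S v₁ v₂ y) (hz : C.S v₂ v₃ z) : x * y * z = 0 := by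
  apply C.vanCore hC ?_ hx hy hz
  rcases h with ⟨h1, h2, h3⟩ | ⟨h0, h1, h2, h3⟩ | ⟨h0, h1, h2, h3⟩ | ⟨h0, h1, h2⟩
  · exact combI h1 h2 h3
  · subst h0; exact combII h1 h2 h3
  · subst h0; exact combIII h2 h1 h3
  · subst h0; subst h2; exact combIV h1

end Ctx

end ADN
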