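import Pool.Agent.ADN.Defs
import Pool.Agent.ADN.Kt
import Pool.Agent.ADN.Rew

/-!
# ADN-Ty4

`R` = loops at `a` and two letters `k : a → g`, `l : g → a`, `g ≠ a`.  A path word with letter set `R` which visits `g` at
least twice has value 0 (`van`), the other ones have the value `lift ρ q * (r k * r l)` (`rew`); the transfer lemma `kt` applies.
-/

namespace ADN

open AD

namespace Ctx

variable {U : Type} [Ring U] (C : Ctx U)

variable {ι : Type} [Fintype ι] [DecidableEq ι]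

omit [Fintype ι] [DecidableEq ι] in
private theorem ty4_loops {src tgt : ι → Fin (C.s + 1)} {a g : Fin (C.s + 1)} (hg : g ≠ a) {R : Finset ι}
    {k l : ι} (hl1 : src l = g) (hR : ∀ i ∈ R, i ≠ k → i ≠ l → src i = a ∧ tgt i = a) :
    ∀ (w : List ι) (b : Fin (C.s + 1)), pth src tgt a w b → (∀ i ∈ w, i ∈ R) → k ∉ w →
      b = a ∧ ∀ i ∈ w, i ≠ k ∧ i ≠ l := by
  intro w
  induction w with
  | nil =>
    intro b hp _ _
    exact ⟨Eq.symm hp, fun i hi => absurd hi (List.not_mem_nil)⟩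
  | cons i w ih =>
    intro b hp hw hk
    obtain ⟨h1, h2⟩ := hp
    have hik : i ≠ k := by
      rintro rfl
      exact hk List.mem_cons_self
    have hil : i ≠ l := by
      rintro rfl
      exact hg (hl1.symm.trans h1)
    have h3 := (hR i (hw i List.mem_cons_self) hik hil).2
    rw [h3] at h2
    obtain ⟨h4, h5⟩ := ih b h2 (fun j hj => hw j (List.mem_cons_of_mem _ hj))
      (fun h => hk (List.mem_cons_of_mem _ h))
    refine ⟨h4, fun j hj => ?_⟩
    rcases List.mem_cons.1 hj with rfl | hj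
    · exact ⟨hik, hil⟩
    · exact h5 j hj

omit [Fintype ι] [DecidableEq ι] in
private theorem ty4_split {src tgt : ι → Fin (C.s + 1)} {a g : Fin (C.s + 1)} (hg : g ≠ a) {R : Finset ι}
    {k l : ι} (hk1 : src k = a) (hk2 : tgt k = g) (hl1 : src l = g) (hl2 : tgt l = a)
    (hR : ∀ i ∈ R, i ≠ k → i ≠ l → src i = a ∧ tgt i = a)
    (w : List ι) (hp : pth src tgt a w a) (hw : ∀ i ∈ w, i ∈ R) (hk : k ∈ w) :
    ∃ v₁ v₂, w = v₁ ++ k :: l :: v₂ ∧ (∀ i ∈ v₁, i ≠ k ∧ i ≠ l) ∧ pth src tgt a v₁ a ∧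
      pth src tgt a v₂ a := by
  obtain ⟨v₁, w', rfl, hk'⟩ := List.eq_append_cons_of_mem hk
  obtain ⟨b, h1, h2⟩ := (pth_append _ _ _ _).1 hp
  obtain ⟨hb, h3⟩ := ty4_loops C hg hl1 hR v₁ b h1 (fun i hi => hw i (List.mem_append_left _ hi)) hk'
  subst hb
  obtain ⟨-, h5⟩ := h2
  rw [hk2] at h5
  cases w' with
  | nil => exact absurd h5 hg
  | cons j v₂ =>
    obtain ⟨h6, h7⟩ := h5
    have hjl : j = l := by
      by_contra hjl
      have hjk : j ≠ k := by
        rintro rfl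
        exact hg (h6.symm.trans hk1)
      have hjR : j ∈ R := hw j (by simp)
      exact hg (h6.symm.trans (hR j hjR hjk hjl).1)
    subst hjl
    rw [hl2] at h7
    exact ⟨v₁, v₂, rfl, h3, h1, h7⟩

omit [Fintype ι] in
private theorem ty4_word (hC : C.Cub) (src tgt : ι → Fin (C.s + 1)) (a g : Fin (C.s + 1)) (hg : g ≠ a)
    (R : Finset ι) (enc : ι → ℕ)
    (k l : ι) (hk : k ∈ R) (hk1 : src k = a) (hk2 : tgt k = g) (hl1 : src l = g)
    (hl2 : tgt l = a) (hR : ∀ i ∈ R, i ≠ k → i ≠ l → src i = a ∧ tgt i = a) (v : List ι)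
    (hv : pth src tgt a v a ∧ v.toFinset = R) :
    ∃ q : P, ∀ r : ι → U, C.Srt src tgt r → ∀ ρ : ℕ → U, (∀ n, C.S a a (ρ n)) →
      (∀ i ∈ R, i ≠ k → i ≠ l → ρ (enc i) = r i) →
      C.wv r a v = FreeAlgebra.lift ℤ ρ q * (r k * r l) := by
  obtain ⟨hp, hvR⟩ := hv
  have hw : ∀ i ∈ v, i ∈ R := fun i hi => by rw [← hvR]; exact List.mem_toFinset.2 hi
  have hkv : k ∈ v := by rw [← hvR] at hk; exact List.mem_toFinset.1 hk
  have hvne : v ≠ [] := List.ne_nil_of_mem hkv
  obtain ⟨v₁, v₂, rfl, h1, hp1, hp2⟩ := ty4_split C hg hk1 hk2 hl1 hl2 hR v hp hw hkv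
  have hw2 : ∀ i ∈ v₂, i ∈ R := fun i hi => hw i (by simp [hi])
  by_cases hk2' : k ∈ v₂
  · -- at least two visits
    obtain ⟨v₃, v₄, rfl, h3, hp3, hp4⟩ := ty4_split C hg hk1 hk2 hl1 hl2 hR v₂ hp2 hw2 hk2'
    refine ⟨0, fun r hr ρ _ _ => ?_⟩
    rw [C.wv_eq hr hvne hp, map_zero, zero_mul]
    have e1 : C.S a g ((v₁ ++ [k]).map r).prod :=
      C.S_path hr _ a g (by simp) ((pth_append _ _ _ _).2 ⟨a, hp1, hk1, hk2⟩)
    have e2 : C.S g g ((l :: (v₃ ++ [k])).map r).prod := by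
      refine C.S_path hr _ g g (by simp) ⟨hl1, ?_⟩
      rw [hl2]
      exact (pth_append _ _ _ _).2 ⟨a, hp3, hk1, hk2⟩
    have e3 : C.S g a ((l :: v₄).map r).prod := by
      refine C.S_path hr _ g a (by simp) ⟨hl1, ?_⟩
      rw [hl2]
      exact hp4
    have e4 := C.van hC (v₀ := a) (v₁ := g) (v₂ := g) (v₃ := a)
      (Or.inl ⟨hg.symm, hg, fun h => hg h.1.symm⟩) e1 e2 e3
    rw [← e4]
    simp only [List.map_append, List.map_cons, List.map_nil, List.prod_append, List.prod_cons,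
      List.prod_nil, mul_one, mul_assoc]
  · obtain ⟨-, h2⟩ := ty4_loops C hg hl1 hR v₂ a hp2 hw2 hk2'
    obtain ⟨q, hq⟩ := C.rew hC hg (v₁.map enc) (v₂.map enc)
    refine ⟨q, fun r hr ρ hρ hρr => ?_⟩
    rw [C.wv_eq hr hvne hp]
    have e1 : (v₁.map enc).map ρ = v₁.map r := by
      rw [List.map_map]
      refine List.map_congr_left fun i hi => ?_
      exact hρr i (hw i (by simp [hi])) (h1 i hi).1 (h1 i hi).2
    have e2 : (v₂.map enc).map ρ = v₂.map r := by
      rw [List.map_map]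
      refine List.map_congr_left fun i hi => ?_
      exact hρr i (hw2 i hi) (h2 i hi).1 (h2 i hi).2
    have hkS : C.S a g (r k) := by
      have := hr k
      rwa [hk1, hk2] at this
    have hlS : C.S g a (r l) := by
      have := hr l
      rwa [hl1, hl2] at this
    have e3 := hq ρ hρ (r k) (r l) hkS hlS
    rw [e1, e2] at e3
    rw [← e3]
    simp only [List.map_append, List.map_cons, List.prod_append, List.prod_cons, mul_assoc]

theorem ty4 (hC : C.Cub) {T : Submodule ℤ P} (hT : C.Dst T) {V : Fin 3 → AddSubgroup U}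
    (hV : C.Vals V) (src tgt : ι → Fin (C.s + 1)) (a g : Fin (C.s + 1)) (hg : g ≠ a)
    (R : Finset ι) (c c' : List ι →₀ ℤ)
    (hc : ∀ v ∈ c.support, pth src tgt a v a ∧ v.toFinset = R)
    (hc' : ∀ v ∈ c'.support, pth src tgt a v a ∧ v.toFinset = R)
    (h : ∀ r, C.Srt src tgt r → In3 V (C.val r a c) (C.val r a c'))
    (k l : ι) (hk : k ∈ R) (hl : l ∈ R) (hk1 : src k = a) (hk2 : tgt k = g) (hl1 : src l = g)
    (hl2 : tgt l = a) (hR : ∀ i ∈ R, i ≠ k → i ≠ l → src i = a ∧ tgt i = a) :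
    ∀ r, C.Srt src tgt r → C.val r a c = 0 := by
  classical
  let enc : ι → ℕ := fun i => (Fintype.equivFin ι i : ℕ)
  have henc : Function.Injective enc := fun i j hij => (Fintype.equivFin ι).injective (Fin.ext hij)
  have hkl : k ≠ l := by
    rintro rfl
    exact hg (hl1.symm.trans hk1)
  have hex := fun (v : List ι) (hv : pth src tgt a v a ∧ v.toFinset = R) =>
    ty4_word C hC src tgt a g hg R enc k l hk hk1 hk2 hl1 hl2 hR v hv
  let Q : List ι → P := fun v =>
    if hv : pth src tgt a v a ∧ v.toFinset = R then (hex v hv).choose else 0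
  have hQ : ∀ v, pth src tgt a v a ∧ v.toFinset = R → ∀ r : ι → U, C.Srt src tgt r → ∀ ρ : ℕ → U,
      (∀ n, C.S a a (ρ n)) → (∀ i ∈ R, i ≠ k → i ≠ l → ρ (enc i) = r i) →
      C.wv r a v = FreeAlgebra.lift ℤ ρ (Q v) * (r k * r l) := by
    intro v hv
    simp only [Q]
    rw [dif_pos hv]
    exact (hex v hv).choose_spec
  have hval : ∀ c : List ι →₀ ℤ, (∀ v ∈ c.support, pth src tgt a v a ∧ v.toFinset = R) →
      ∀ r : ι → U, C.Srt src tgt r → ∀ ρ : ℕ → U,
      (∀ n, C.S a a (ρ n)) → (∀ i ∈ R, i ≠ k → i ≠ l → ρ (enc i) = r i) →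
      C.val r a c = FreeAlgebra.lift ℤ ρ (∑ v ∈ c.support, c v • Q v) * (r k * r l) := by
    intro c hc r hr ρ hρ hρr
    show ∑ v ∈ c.support, c v • C.wv r a v = _
    rw [map_sum, Finset.sum_mul]
    refine Finset.sum_congr rfl fun v hv => ?_
    rw [hQ v (hc v hv) r hr ρ hρ hρr, map_zsmul, smul_mul_assoc]
  -- the letters from `ρ`, `t`, `t'`
  have hkt := C.kt hT hV a {m | ∃ t t', C.S a g t ∧ C.S g a t' ∧ m = t * t'}
    (by
      rintro r m hr ⟨t, t', ht, ht', rfl⟩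
      exact ⟨r * t, t', C.S_mul hr ht, ht', by rw [mul_assoc]⟩)
    (∑ v ∈ c.support, c v • Q v) (∑ v ∈ c'.support, c' v • Q v)
    (Or.inl (by
      rintro m ⟨t, t', ht, ht', rfl⟩
      exact C.S_mem (C.S_mul ht ht')))
    (by
      rintro ρ hρ m ⟨t, t', ht, ht', rfl⟩
      let r : ι → U := fun i => if i ∈ R then (if i = k then t else if i = l then t' else ρ (enc i)) else 0
      have hrk : r k = t := by simp [r, hk]
      have hrl : r l = t' := by simp [r, hl, hkl.symm]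
      have hr : C.Srt src tgt r := by
        intro i
        simp only [r]
        split_ifs with i1 i2 i3
        · subst i2; rw [hk1, hk2]; exact ht
        · subst i3; rw [hl1, hl2]; exact ht'
        · obtain ⟨j1, j2⟩ := hR i i1 i2 i3
          rw [j1, j2]; exact hρ _
        · exact C.S_zero _ _
      have hρr : ∀ i ∈ R, i ≠ k → i ≠ l → ρ (enc i) = r i := by
        intro i i1 i2 i3
        simp only [r]
        rw [if_pos i1, if_neg i2, if_neg i3]
      have e := h r hr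
      rw [hval c hc r hr ρ hρ hρr, hval c' hc' r hr ρ hρ hρr, hrk, hrl] at e
      exact e)
  intro r hr
  let ρ : ℕ → U := fun n => if hn : ∃ i, i ∈ R ∧ i ≠ k ∧ i ≠ l ∧ enc i = n then r hn.choose else 0
  have hρ : ∀ n, C.S a a (ρ n) := by
    intro n
    simp only [ρ]
    split_ifs with hn
    · obtain ⟨j1, j2, j3, -⟩ := hn.choose_spec
      obtain ⟨j4, j5⟩ := hR _ j1 j2 j3
      have := hr hn.choose
      rwa [j4, j5] at this
    · exact C.S_zero _ _
  have hρr : ∀ i ∈ R, i ≠ k → i ≠ l → ρ (enc i) = r i := by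
    intro i i1 i2 i3
    have hn : ∃ j, j ∈ R ∧ j ≠ k ∧ j ≠ l ∧ enc j = enc i := ⟨i, i1, i2, i3, rfl⟩
    simp only [ρ]
    rw [dif_pos hn]
    congr 1
    exact henc hn.choose_spec.2.2.2
  rw [hval c hc r hr ρ hρ hρr]
  refine hkt ρ hρ _ ⟨r k, r l, ?_, ?_, rfl⟩
  · have := hr k
    rwa [hk1, hk2] at this
  · have := hr l
    rwa [hl1, hl2] at this

end Ctx

end ADN
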