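import Pool.Agent.ADN.Defs
import Pool.Agent.ADN.Nest

/-!
# ADN-Ty5

`R = {k, l}`, `k : a → g`, `l : g → b`, with `a, g, b` pairwise different: the only path word is `[k, l]`.
-/

namespace ADN

open AD

namespace Ctx

variable {U : Type} [Ring U] (C : Ctx U)

variable {ι : Type} [Fintype ι] [DecidableEq ι]

omit [Fintype ι] in
private theorem ty5_word {src tgt : ι → Fin (C.s + 1)} {a g b : Fin (C.s + 1)} (hab : a ≠ b)
    (hga : g ≠ a) (hgb : g ≠ b) {k l : ι} (hk1 : src k = a) (hk2 : tgt k = g) (hl1 : src l = g)
    (hl2 : tgt l = b) {v : List ι} (hp : pth src tgt a v b) (hv : v.toFinset = {k, l}) :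
    v = [k, l] := by
  have hmem : ∀ i ∈ v, i = k ∨ i = l := by
    intro i hi
    have h1 : i ∈ v.toFinset := List.mem_toFinset.2 hi
    rw [hv, Finset.mem_insert, Finset.mem_singleton] at h1
    exact h1
  cases v with
  | nil => exact absurd hp hab
  | cons x v =>
    obtain ⟨hx, hp⟩ := hp
    have hxk : x = k := by
      rcases hmem x (by simp) with h | h
      · exact h
      · rw [h, hl1] at hx
        exact absurd hx hga
    rw [hxk, hk2] at hp
    cases v with
    | nil => exact absurd hp hgb
    | cons y v =>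
      obtain ⟨hy, hp⟩ := hp
      have hyl : y = l := by
        rcases hmem y (by simp) with h | h
        · rw [h, hk1] at hy
          exact absurd hy.symm hga
        · exact h
      rw [hyl, hl2] at hp
      cases v with
      | nil => rw [hxk, hyl]
      | cons z v =>
        obtain ⟨hz, -⟩ := hp
        rcases hmem z (by simp) with h | h
        · rw [h, hk1] at hz
          exact absurd hz hab
        · rw [h, hl1] at hz
          exact absurd hz hgb

omit [Fintype ι] in
private theorem ty5_val {src tgt : ι → Fin (C.s + 1)} {a g b : Fin (C.s + 1)} (hab : a ≠ b)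
    (hga : g ≠ a) (hgb : g ≠ b) {k l : ι} (hk1 : src k = a) (hk2 : tgt k = g) (hl1 : src l = g)
    (hl2 : tgt l = b) {c : List ι →₀ ℤ}
    (hc : ∀ v ∈ c.support, pth src tgt a v b ∧ v.toFinset = {k, l}) {r : ι → U}
    (hr : C.Srt src tgt r) : C.val r a c = c [k, l] • (r k * r l) := by
  have h1 : C.val r a c = c [k, l] • C.wv r a [k, l] := by
    unfold val
    refine Finsupp.sum_eq_single [k, l] ?_ ?_
    · intro v hv hne
      have h2 := hc v (Finsupp.mem_support_iff.2 hv)
      exact absurd (C.ty5_word hab hga hgb hk1 hk2 hl1 hl2 h2.1 h2.2) hne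
    · intro _
      exact zero_smul _ _
  have h2 : C.e a * r k = r k := by
    have := (hr k).2.1
    rw [hk1] at this
    exact this
  rw [h1]
  unfold wv
  rw [List.map_cons, List.map_cons, List.map_nil, List.prod_cons, List.prod_cons, List.prod_nil,
    mul_one, ← mul_assoc, h2]

theorem ty5 {V : Fin 3 → AddSubgroup U}
    (hV : C.Vals V) (src tgt : ι → Fin (C.s + 1)) (a g b : Fin (C.s + 1)) (hab : a ≠ b)
    (hga : g ≠ a) (hgb : g ≠ b) (R : Finset ι) (c c' : List ι →₀ ℤ)
    (hc : ∀ v ∈ c.support, pth src tgt a v b ∧ v.toFinset = R)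
    (hc' : ∀ v ∈ c'.support, pth src tgt a v b ∧ v.toFinset = R)
    (h : ∀ r, C.Srt src tgt r → In3 V (C.val r a c) (C.val r a c'))
    (k l : ι) (hk1 : src k = a) (hk2 : tgt k = g) (hl1 : src l = g)
    (hl2 : tgt l = b) (hR : R = {k, l}) :
    ∀ r, C.Srt src tgt r → C.val r a c = 0 := by
  subst hR
  have hkl : k ≠ l := by
    intro hkl
    rw [hkl, hl1] at hk1
    exact hga hk1
  have key := C.nest hV (c [k, l]) (c' [k, l])
    {m | ∃ t t', C.S a g t ∧ C.S g b t' ∧ m = t * t'} ?_ ?_
  · intro r hr
    rw [C.ty5_val hab hga hgb hk1 hk2 hl1 hl2 hc hr]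
    refine key _ ⟨r k, r l, ?_, ?_, rfl⟩
    · have := hr k
      rw [hk1, hk2] at this
      exact this
    · have := hr l
      rw [hl1, hl2] at this
      exact this
  · rintro m ⟨t, t', -, ht', rfl⟩
    exact C.J_le (C.J_left t t' ht'.1)
  · rintro m ⟨t, t', ht, ht', rfl⟩
    have hr : C.Srt src tgt (fun i => if i = k then t else if i = l then t' else 0) := by
      intro i
      by_cases h1 : i = k
      · subst h1
        simp only [if_true]
        rw [hk1, hk2]
        exact ht
      · by_cases h2 : i = l
        · subst h2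
          simp only [h1, if_false, if_true]
          rw [hl1, hl2]
          exact ht'
        · simp only [h1, h2, if_false]
          exact ⟨C.J.zero_mem, mul_zero _, zero_mul _⟩
    have h1 := h _ hr
    rw [C.ty5_val hab hga hgb hk1 hk2 hl1 hl2 hc hr, C.ty5_val hab hga hgb hk1 hk2 hl1 hl2 hc' hr] at h1
    have h2 : (if l = k then t else if l = l then t' else 0) = t' := by
      rw [if_neg (Ne.symm hkl), if_pos rfl]
    have h3 : (if k = k then t else if k = l then t' else 0) = t := if_pos rfl
    rw [h2, h3] at h1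
    exact h1

end Ctx

end ADN
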