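import Pool.Agent.ADN.Defs
import Pool.Agent.ADN.Basic
import Pool.Agent.ADN.Nest
import Pool.Agent.ADN.Van

/-!
# ADN-MidL

Values `n₁ xyz + n₂ zyx` on the two edges between `a` and `b`.
-/

namespace ADN

open AD

namespace Ctx

variable {U : Type} [Ring U] (C : Ctx U)

theorem midL (hC : C.Cub) {V : Fin 3 → AddSubgroup U} (hV : C.Vals V) {a b : Fin (C.s + 1)}
    (hab : a ≠ b) (n₁ n₂ n₁' n₂' : ℤ)
    (h : ∀ x y z, C.S a b x → C.S b a y → C.S a b z →
      In3 V (n₁ • (x * y * z) + n₂ • (z * y * x)) (n₁' • (x * y * z) + n₂' • (z * y * x))) :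
    ∀ x y z, C.S a b x → C.S b a y → C.S a b z → n₁ • (x * y * z) + n₂ • (z * y * x) = 0 := by
  have hA : ∀ x y z, C.S a b x → C.S b a y → C.S a b z → x * y * z ∈ C.A :=
    fun x y z hx hy hz => C.S_mem (C.S_mul (C.S_mul hx hy) hz)
  -- the four subgroup facts
  have hadd : ∀ {u u' v v' : U}, In3 V u u' → In3 V v v' → In3 V (u + v) (u' + v') := by
    intro u u' v v' h1 h2
    refine ⟨(V 0).add_mem h1.1 h2.1, (V 1).add_mem h1.2.1 h2.2.1, ?_⟩
    have e : u + v + (u' + v') = (u + u') + (v + v') := by abel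
    rw [e]
    exact (V 2).add_mem h1.2.2 h2.2.2
  have hsub : ∀ {u u' v v' : U}, In3 V u u' → In3 V v v' → In3 V (u - v) (u' - v') := by
    intro u u' v v' h1 h2
    refine ⟨(V 0).sub_mem h1.1 h2.1, (V 1).sub_mem h1.2.1 h2.2.1, ?_⟩
    have e : u - v + (u' - v') = (u + u') - (v + v') := by abel
    rw [e]
    exact (V 2).sub_mem h1.2.2 h2.2.2
  have hplus : ∀ x y z, C.S a b x → C.S b a y → C.S a b z →
      In3 V ((n₁ + n₂) • (x * y * z + z * y * x)) ((n₁' + n₂') • (x * y * z + z * y * x)) := by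
    intro x y z hx hy hz
    have h1 := hadd (h x y z hx hy hz) (h z y x hz hy hx)
    have e : ∀ k l : ℤ, k • (x * y * z) + l • (z * y * x) + (k • (z * y * x) + l • (x * y * z)) =
        (k + l) • (x * y * z + z * y * x) := by
      intro k l
      rw [add_smul, smul_add, smul_add]
      abel
    rw [e, e] at h1
    exact h1
  have hminus : ∀ x y z, C.S a b x → C.S b a y → C.S a b z →
      In3 V ((n₁ - n₂) • (x * y * z - z * y * x)) ((n₁' - n₂') • (x * y * z - z * y * x)) := by
    intro x y z hx hy hz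
    have h1 := hsub (h x y z hx hy hz) (h z y x hz hy hx)
    have e : ∀ k l : ℤ, k • (x * y * z) + l • (z * y * x) - (k • (z * y * x) + l • (x * y * z)) =
        (k - l) • (x * y * z - z * y * x) := by
      intro k l
      rw [sub_smul, smul_sub, smul_sub]
      abel
    rw [e, e] at h1
    exact h1
  have hplus0 : ∀ x y z, C.S a b x → C.S b a y → C.S a b z →
      (n₁ + n₂) • (x * y * z + z * y * x) = 0 ∧ (n₁' + n₂') • (x * y * z + z * y * x) = 0 := by
    intro x y z hx hy hz
    have h1 : (n₁ + n₂) • (x * y * z + z * y * x) = 0 :=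
      C.nest hV (n₁ + n₂) (n₁' + n₂')
        {m | ∃ x y z, C.S a b x ∧ C.S b a y ∧ C.S a b z ∧ m = x * y * z + z * y * x}
        (by
          rintro m ⟨x, y, z, hx, hy, hz, rfl⟩
          exact C.A.add_mem (hA x y z hx hy hz) (hA z y x hz hy hx))
        (by
          rintro m ⟨x, y, z, hx, hy, hz, rfl⟩
          exact hplus x y z hx hy hz) _ ⟨x, y, z, hx, hy, hz, rfl⟩
    refine ⟨h1, ?_⟩
    have h2 := hplus x y z hx hy hz
    rw [h1] at h2
    refine hV.disj 1 2 (by decide) _ h2.2.1 ?_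
    have h3 := h2.2.2
    rwa [zero_add] at h3
  have hminus0 : ∀ x y z, C.S a b x → C.S b a y → C.S a b z →
      (n₁ - n₂) • (x * y * z - z * y * x) = 0 := by
    intro x y z hx hy hz
    exact C.nest hV (n₁ - n₂) (n₁' - n₂')
        {m | ∃ x y z, C.S a b x ∧ C.S b a y ∧ C.S a b z ∧ m = x * y * z - z * y * x}
        (by
          rintro m ⟨x, y, z, hx, hy, hz, rfl⟩
          exact C.A.sub_mem (hA x y z hx hy hz) (hA z y x hz hy hx))
        (by
          rintro m ⟨x, y, z, hx, hy, hz, rfl⟩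
          exact hminus x y z hx hy hz) _ ⟨x, y, z, hx, hy, hz, rfl⟩
  have hp0 : ∀ x y z, C.S a b x → C.S b a y → C.S a b z → (C.p : ℤ) • (x * y * z) = 0 := by
    intro x y z hx hy hz
    by_cases ha : a = 0
    · have hb : b ≠ 0 := by
        rintro rfl
        exact hab ha
      have h1 := C.van hC (v₀ := a) (v₁ := a) (v₂ := b) (v₃ := b)
        (Or.inr (Or.inr (Or.inr ⟨rfl, hab, rfl⟩))) (C.S_mul hx hy) hz (C.S_p hb)
      rw [mul_smul_comm, mul_assoc (x * y), hz.2.2] at h1
      exact h1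
    · have h1 := C.van hC (v₀ := a) (v₁ := a) (v₂ := b) (v₃ := b)
        (Or.inr (Or.inr (Or.inr ⟨rfl, hab, rfl⟩))) (C.S_p ha) hx (C.S_mul hy hz)
      rw [smul_mul_assoc, smul_mul_assoc, hx.2.1, ← mul_assoc] at h1
      exact h1
  intro x y z hx hy hz
  obtain ⟨w₁, hw₁⟩ : ∃ w₁, w₁ = x * y * z := ⟨_, rfl⟩
  obtain ⟨w₂, hw₂⟩ : ∃ w₂, w₂ = z * y * x := ⟨_, rfl⟩
  have hw₁A : w₁ ∈ C.A := by
    rw [hw₁]
    exact hA x y z hx hy hz
  have hw₂A : w₂ ∈ C.A := by
    rw [hw₂]
    exact hA z y x hz hy hx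
  by_cases hp : C.p = 2
  · have h2 : ∀ x y z, C.S a b x → C.S b a y → C.S a b z → (2 : ℤ) • (x * y * z) = 0 := by
      intro x y z hx hy hz
      have := hp0 x y z hx hy hz
      rw [hp] at this
      exact this
    -- if the sum of the coefficients is odd
    have hodd : ((¬ (2 : ℤ) ∣ n₁ + n₂) ∨ ¬ (2 : ℤ) ∣ n₁' + n₂') →
        n₁ • (x * y * z) + n₂ • (z * y * x) = 0 := by
      intro ho
      have h3 : ∀ x y z, C.S a b x → C.S b a y → C.S a b z → z * y * x = -(x * y * z) := by
        intro x y z hx hy hz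
        have h4 : x * y * z + z * y * x = 0 := by
          have h5 := hplus0 x y z hx hy hz
          have h6 : x * y * z + z * y * x ∈ C.A := C.A.add_mem (hA x y z hx hy hz) (hA z y x hz hy hx)
          rcases ho with ho | ho
          · refine C.tors_unit (n := n₁ + n₂) ?_ h6 h5.1
            rw [hp]
            exact ho
          · refine C.tors_unit (n := n₁' + n₂') ?_ h6 h5.2
            rw [hp]
            exact ho
        rw [add_comm] at h4
        exact eq_neg_of_add_eq_zero_left h4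
      have e : ∀ (k l : ℤ) (x y z : U), C.S a b x → C.S b a y → C.S a b z →
          k • (x * y * z) + l • (z * y * x) = (k - l) • (x * y * z) := by
        intro k l x y z hx hy hz
        rw [h3 x y z hx hy hz, smul_neg, sub_smul, sub_eq_add_neg]
      rw [e n₁ n₂ x y z hx hy hz]
      exact C.nest hV (n₁ - n₂) (n₁' - n₂')
        {m | ∃ x y z, C.S a b x ∧ C.S b a y ∧ C.S a b z ∧ m = x * y * z}
        (by
          rintro m ⟨x, y, z, hx, hy, hz, rfl⟩
          exact hA x y z hx hy hz)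
        (by
          rintro m ⟨x, y, z, hx, hy, hz, rfl⟩
          have h5 := h x y z hx hy hz
          rw [e n₁ n₂ x y z hx hy hz, e n₁' n₂' x y z hx hy hz] at h5
          exact h5) _ ⟨x, y, z, hx, hy, hz, rfl⟩
    by_cases h3 : (2 : ℤ) ∣ n₁ + n₂
    · by_cases h4 : (2 : ℤ) ∣ n₁' + n₂'
      · have e : ∀ (k l : ℤ) (x y z : U), (2 : ℤ) ∣ k + l → C.S a b x → C.S b a y → C.S a b z →
            k • (x * y * z) + l • (z * y * x) = k • (x * y * z + z * y * x) := by
          intro k l x y z hkl hx hy hz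
          obtain ⟨c, hc⟩ := hkl
          have h5 : l = (c - k) * 2 + k := by linarith
          have h6 := h2 z y x hz hy hx
          rw [h5, add_smul, mul_smul, h6, smul_zero, zero_add, smul_add]
        rw [e n₁ n₂ x y z h3 hx hy hz]
        exact C.nest hV n₁ n₁'
          {m | ∃ x y z, C.S a b x ∧ C.S b a y ∧ C.S a b z ∧ m = x * y * z + z * y * x}
          (by
            rintro m ⟨x, y, z, hx, hy, hz, rfl⟩
            exact C.A.add_mem (hA x y z hx hy hz) (hA z y x hz hy hx))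
          (by
            rintro m ⟨x, y, z, hx, hy, hz, rfl⟩
            have h5 := h x y z hx hy hz
            rw [e n₁ n₂ x y z h3 hx hy hz, e n₁' n₂' x y z h4 hx hy hz] at h5
            exact h5) _ ⟨x, y, z, hx, hy, hz, rfl⟩
      · exact hodd (Or.inr h4)
    · exact hodd (Or.inl h3)
  · have hp2 : ¬ (C.p : ℤ) ∣ 2 := by
      intro hd
      have h3 : C.p ∣ 2 := by exact_mod_cast hd
      exact hp ((Nat.prime_dvd_prime_iff_eq C.hp Nat.prime_two).1 h3)
    rw [← hw₁, ← hw₂]
    refine C.tors_unit hp2 (C.A.add_mem (C.A.zsmul_mem hw₁A _) (C.A.zsmul_mem hw₂A _)) ?_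
    have h3 := (hplus0 x y z hx hy hz).1
    have h4 := hminus0 x y z hx hy hz
    rw [← hw₁, ← hw₂] at h3 h4
    have e : (2 : ℤ) • (n₁ • w₁ + n₂ • w₂) = (n₁ + n₂) • (w₁ + w₂) + (n₁ - n₂) • (w₁ - w₂) := by
      rw [two_smul, add_smul, sub_smul, smul_add, smul_add, smul_sub, smul_sub]
      abel
    rw [e, h3, h4, add_zero]

end Ctx

end ADN
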