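import Pool.Agent.ADN.Defs
import Pool.Agent.ADN.Nest
import Pool.Agent.ADN.MidL

/-!
# ADN-Ty6

`R = {k, l, m}`, `k, m : a → b`, `l : b → a`, `a ≠ b` (possibly `k = m`).

A path word from `a` to `b` with all letters of `R` alternates between letters `a → b` (`k` or `m`) and the letter `l`. If its
length is at least 5, its value is 0 by `van`. The words of length 3 are treated with `nest` (if `k = m`) and `midL` (if `k ≠ m`).
-/

namespace ADN

open AD

namespace Ctx

variable {U : Type} [Ring U] (C : Ctx U)

variable {ι : Type} [Fintype ι] [DecidableEq ι]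

omit [Fintype ι] [DecidableEq ι] in
private theorem ty6_word {W : Type} {src tgt : ι → W} {a b : W} (hab : a ≠ b) {k l m : ι}
    (hk1 : src k = a) (hk2 : tgt k = b) (hl1 : src l = b) (hl2 : tgt l = a) (hm1 : src m = a)
    (hm2 : tgt m = b) {v : List ι} (hv : pth src tgt a v b) (hR : ∀ x ∈ v, x = k ∨ x = l ∨ x = m)
    (hl : l ∈ v) : ∃ x z, (x = k ∨ x = m) ∧ (z = k ∨ z = m) ∧
      (v = [x, l, z] ∨ ∃ w, v = x :: l :: z :: l :: w) := by
  have hA : ∀ x, (x = k ∨ x = l ∨ x = m) → src x = a → (x = k ∨ x = m) := by
    rintro x (rfl | rfl | rfl) h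
    · exact Or.inl rfl
    · exact absurd (h.symm.trans hl1) hab
    · exact Or.inr rfl
  have hB : ∀ x, (x = k ∨ x = l ∨ x = m) → src x = b → x = l := by
    rintro x (rfl | rfl | rfl) h
    · exact absurd (hk1.symm.trans h) hab
    · rfl
    · exact absurd (hm1.symm.trans h) hab
  have hT : ∀ x, (x = k ∨ x = m) → tgt x = b := by
    rintro x (rfl | rfl)
    · exact hk2
    · exact hm2
  have hS : ∀ x, (x = k ∨ x = m) → x ≠ l := by
    rintro x (rfl | rfl) h
    · rw [h] at hk1; exact hab (hk1.symm.trans hl1)
    · rw [h] at hm1; exact hab (hm1.symm.trans hl1)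
  rcases v with _ | ⟨x, v⟩
  · exact absurd hl (by simp)
  obtain ⟨h1, h2⟩ := hv
  have hx := hA x (hR x (by simp)) h1
  rw [hT x hx] at h2
  rcases v with _ | ⟨y, v⟩
  · rw [List.mem_singleton] at hl
    exact absurd hl.symm (hS x hx)
  obtain ⟨h3, h4⟩ := h2
  have hy := hB y (hR y (by simp)) h3
  subst hy
  rw [hl2] at h4
  rcases v with _ | ⟨z, v⟩
  · exact absurd h4 hab
  obtain ⟨h5, h6⟩ := h4
  have hz := hA z (hR z (by simp)) h5
  rw [hT z hz] at h6
  refine ⟨x, z, hx, hz, ?_⟩
  rcases v with _ | ⟨w, v⟩
  · exact Or.inl rfl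
  · obtain ⟨h7, -⟩ := h6
    have hw := hB w (hR w (by simp)) h7
    subst hw
    exact Or.inr ⟨v, rfl⟩

omit [Fintype ι] [DecidableEq ι] in
private theorem ty6_zero (hC : C.Cub) {src tgt : ι → Fin (C.s + 1)} {a b : Fin (C.s + 1)} (hab : a ≠ b)
    {r : ι → U} (hr : C.Srt src tgt r) {x l z : ι} (hx1 : src x = a) (hx2 : tgt x = b)
    (hl1 : src l = b) (hl2 : tgt l = a) (hz1 : src z = a) (hz2 : tgt z = b) (w : List ι) :
    C.wv r a (x :: l :: z :: l :: w) = 0 := by
  have h1 : C.S a b (r x) := by have := hr x; rwa [hx1, hx2] at this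
  have h2 : C.S b a (r l) := by have := hr l; rwa [hl1, hl2] at this
  have h3 : C.S a b (r z) := by have := hr z; rwa [hz1, hz2] at this
  have h4 : r x * (r l * r z) * r l = 0 :=
    C.van hC (v₀ := a) (v₁ := b) (v₂ := b) (v₃ := a)
      (Or.inl ⟨hab, hab.symm, fun h => hab h.1⟩) h1 (C.S_mul h2 h3) h2
  unfold wv
  rw [List.map_cons, List.map_cons, List.map_cons, List.map_cons, List.prod_cons, List.prod_cons,
    List.prod_cons, List.prod_cons]
  have h5 : r x * (r l * (r z * (r l * (w.map r).prod))) = r x * (r l * r z) * r l * (w.map r).prod := by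
    noncomm_ring
  rw [h5, h4, zero_mul, mul_zero]

omit [Fintype ι] [DecidableEq ι] in
private theorem ty6_len3 {src tgt : ι → Fin (C.s + 1)} {a : Fin (C.s + 1)}
    {r : ι → U} (hr : C.Srt src tgt r) {x l z : ι} (hx1 : src x = a) :
    C.wv r a [x, l, z] = r x * r l * r z := by
  have h1 : C.e a * r x = r x := by have := (hr x).2.1; rwa [hx1] at this
  unfold wv
  rw [List.map_cons, List.map_cons, List.map_cons, List.map_nil, List.prod_cons, List.prod_cons,
    List.prod_cons, List.prod_nil, mul_one, ← mul_assoc, ← mul_assoc, h1]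

omit [Fintype ι] [DecidableEq ι] in
private theorem ty6_val (r : ι → U) (a : Fin (C.s + 1)) (c : List ι →₀ ℤ) (t : Finset (List ι))
    (h : ∀ v ∈ c.support, v ∉ t → C.wv r a v = 0) : C.val r a c = ∑ v ∈ t, c v • C.wv r a v := by
  classical
  unfold val Finsupp.sum
  refine Finset.sum_congr_of_eq_on_inter (fun v hv hvt => ?_) (fun v _ hv => ?_) (fun v _ _ => rfl)
  · show c v • C.wv r a v = 0
    rw [h v hv hvt, smul_zero]
  · rw [Finsupp.notMem_support_iff.1 hv, zero_smul]

theorem ty6 (hC : C.Cub) {V : Fin 3 → AddSubgroup U}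
    (hV : C.Vals V) (src tgt : ι → Fin (C.s + 1)) (a b : Fin (C.s + 1)) (hab : a ≠ b)
    (R : Finset ι) (c c' : List ι →₀ ℤ)
    (hc : ∀ v ∈ c.support, pth src tgt a v b ∧ v.toFinset = R)
    (hc' : ∀ v ∈ c'.support, pth src tgt a v b ∧ v.toFinset = R)
    (h : ∀ r, C.Srt src tgt r → In3 V (C.val r a c) (C.val r a c'))
    (k l m : ι) (hk1 : src k = a) (hk2 : tgt k = b) (hl1 : src l = b)
    (hl2 : tgt l = a) (hm1 : src m = a) (hm2 : tgt m = b) (hR : R = {k, l, m}) :
    ∀ r, C.Srt src tgt r → C.val r a c = 0 := by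
  have hkl : k ≠ l := by
    intro e
    rw [e] at hk1
    exact hab (hk1.symm.trans hl1)
  have hml : m ≠ l := by
    intro e
    rw [e] at hm1
    exact hab (hm1.symm.trans hl1)
  -- the words
  have hwords : ∀ v : List ι, pth src tgt a v b ∧ v.toFinset = R →
      ∃ x z, (x = k ∨ x = m) ∧ (z = k ∨ z = m) ∧ (v = [x, l, z] ∨ ∃ w, v = x :: l :: z :: l :: w) := by
    rintro v ⟨hv1, hv2⟩
    refine ty6_word hab hk1 hk2 hl1 hl2 hm1 hm2 hv1 (fun x hx => ?_) ?_
    · have : x ∈ v.toFinset := List.mem_toFinset.2 hx
      rw [hv2, hR] at this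
      simpa using this
    · have : l ∈ R := by rw [hR]; simp
      rw [← hv2] at this
      exact List.mem_toFinset.1 this
  have hsrc : ∀ x, (x = k ∨ x = m) → src x = a ∧ tgt x = b := by
    rintro x (rfl | rfl)
    · exact ⟨hk1, hk2⟩
    · exact ⟨hm1, hm2⟩
  by_cases hkm : k = m
  · subst hkm
    have hval : ∀ (c : List ι →₀ ℤ), (∀ v ∈ c.support, pth src tgt a v b ∧ v.toFinset = R) →
        ∀ r, C.Srt src tgt r → C.val r a c = c [k, l, k] • (r k * r l * r k) := by
      intro c hc r hr
      rw [C.ty6_val r a c {[k, l, k]}, Finset.sum_singleton, C.ty6_len3 hr hk1]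
      intro v hv hvt
      obtain ⟨x, z, hx, hz, h1 | ⟨w, h1⟩⟩ := hwords v (hc v hv)
      · exfalso
        apply hvt
        rw [Finset.mem_singleton, h1]
        rcases hx with rfl | rfl <;> rcases hz with rfl | rfl <;> rfl
      · rw [h1]
        exact C.ty6_zero hC hab hr (hsrc x hx).1 (hsrc x hx).2 hl1 hl2 (hsrc z hz).1 (hsrc z hz).2 w
    have hn := C.nest hV (c [k, l, k]) (c' [k, l, k])
      {t | ∃ x y, C.S a b x ∧ C.S b a y ∧ t = x * y * x}
      (by
        rintro t ⟨x, y, hx, hy, rfl⟩
        exact C.S_mem (C.S_mul (C.S_mul hx hy) hx))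
      (by
        rintro t ⟨x, y, hx, hy, rfl⟩
        have hr : C.Srt src tgt (fun i => if i = k then x else if i = l then y else 0) := by
          intro i
          show C.S (src i) (tgt i) (if i = k then x else if i = l then y else 0)
          by_cases hi : i = k
          · rw [if_pos hi, hi, hk1, hk2]; exact hx
          · rw [if_neg hi]
            by_cases hi' : i = l
            · rw [if_pos hi', hi', hl1, hl2]; exact hy
            · rw [if_neg hi']; exact C.S_zero _ _
        have h1 := h _ hr
        rw [hval c hc _ hr, hval c' hc' _ hr] at h1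
        simp only [if_true, if_neg hkl.symm] at h1
        exact h1)
    intro r hr
    rw [hval c hc r hr]
    refine hn _ ⟨r k, r l, ?_, ?_, rfl⟩
    · have := hr k; rwa [hk1, hk2] at this
    · have := hr l; rwa [hl1, hl2] at this
  · have hne : ([k, l, m] : List ι) ≠ [m, l, k] := by
      intro e
      have := (List.cons.inj e).1
      exact hkm this
    have hval : ∀ (c : List ι →₀ ℤ), (∀ v ∈ c.support, pth src tgt a v b ∧ v.toFinset = R) →
        ∀ r, C.Srt src tgt r →
          C.val r a c = c [k, l, m] • (r k * r l * r m) + c [m, l, k] • (r m * r l * r k) := by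
      intro c hc r hr
      rw [C.ty6_val r a c {[k, l, m], [m, l, k]}, Finset.sum_pair hne, C.ty6_len3 hr hk1,
        C.ty6_len3 hr hm1]
      intro v hv hvt
      obtain ⟨x, z, hx, hz, h1 | ⟨w, h1⟩⟩ := hwords v (hc v hv)
      · exfalso
        apply hvt
        rw [Finset.mem_insert, Finset.mem_singleton, h1]
        have h2 := (hc v hv).2
        rw [h1] at h2
        have hin : ∀ y, y ∈ R → y = x ∨ y = l ∨ y = z := by
          intro y hy
          rw [← h2] at hy
          simpa using hy
        have hkR := hin k (by rw [hR]; simp)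
        have hmR := hin m (by rw [hR]; simp)
        rcases hx with hx | hx
        · rcases hz with hz | hz
          · exfalso
            rw [hx, hz] at hmR
            rcases hmR with h3 | h3 | h3
            · exact hkm h3.symm
            · exact hml h3
            · exact hkm h3.symm
          · rw [hx, hz]; exact Or.inl rfl
        · rcases hz with hz | hz
          · rw [hx, hz]; exact Or.inr rfl
          · exfalso
            rw [hx, hz] at hkR
            rcases hkR with h3 | h3 | h3
            · exact hkm h3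
            · exact hkl h3
            · exact hkm h3
      · rw [h1]
        exact C.ty6_zero hC hab hr (hsrc x hx).1 (hsrc x hx).2 hl1 hl2 (hsrc z hz).1 (hsrc z hz).2 w
    have hn := C.midL hC hV hab (c [k, l, m]) (c [m, l, k]) (c' [k, l, m]) (c' [m, l, k])
      (by
        intro x y z hx hy hz
        have hr : C.Srt src tgt
            (fun i => if i = k then x else if i = l then y else if i = m then z else 0) := by
          intro i
          show C.S (src i) (tgt i) (if i = k then x else if i = l then y else if i = m then z else 0)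
          by_cases hi : i = k
          · rw [if_pos hi, hi, hk1, hk2]; exact hx
          · rw [if_neg hi]
            by_cases hi' : i = l
            · rw [if_pos hi', hi', hl1, hl2]; exact hy
            · rw [if_neg hi']
              by_cases hi2 : i = m
              · rw [if_pos hi2, hi2, hm1, hm2]; exact hz
              · rw [if_neg hi2]; exact C.S_zero _ _
        have h1 := h _ hr
        rw [hval c hc _ hr, hval c' hc' _ hr] at h1
        simp only [if_true, if_neg hkl.symm, if_neg (Ne.symm hkm), if_neg hml] at h1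
        exact h1)
    intro r hr
    rw [hval c hc r hr]
    refine hn _ _ _ ?_ ?_ ?_
    · have := hr k; rwa [hk1, hk2] at this
    · have := hr l; rwa [hl1, hl2] at this
    · have := hr m; rwa [hm1, hm2] at this

end Ctx

end ADN
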