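import Pool.Agent.ADN.Defs

/-!
# ADN-Blocks

A finite ring with few fields is, modulo a nilpotent ideal, a power of `ZMod p`.
A finite ring is semiprimary, so its quotient by the Jacobson radical is a product of matrix rings over finite
fields (Wedderburn-Artin).  In every factor the image of the ideal `A` is `0` (then the factor is a prime field,
all its elements being integer multiples of 1) or everything (`prime_of_emb`: every finite field that embeds, not
necessarily with the same unit, in the factor has a prime number of elements; this is used for the scalars and for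
`GaloisField p 2` embedded in the upper left corner by its regular representation).
-/

namespace ADN

open AD

private theorem prime_of_emb (U : Type) [Ring U] (A : AddSubgroup U)
    (hl : ∀ u, ∀ a ∈ A, u * a ∈ A)
    (hF : ∀ (L : Type) [Field L] [Finite L] (B : NonUnitalSubring U) (φ : B →ₙ+* L),
      (∀ b ∈ B, b ∈ A) → Function.Surjective φ → (Nat.card L).Prime)
    (S : Type) [Ring S] (π : U →+* S) (hs : ∀ s : S, ∃ a ∈ A, π a = s)
    (L : Type) [Field L] [Finite L] (j : L →ₙ+* S) (hj : Function.Injective j) :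
    (Nat.card L).Prime := by
  classical
  let B : NonUnitalSubring U :=
    { carrier := {x | x ∈ A ∧ ∃ l, j l = π x}
      add_mem' := by
        rintro a b ⟨ha, l, hl1⟩ ⟨hb, m, hm⟩
        exact ⟨A.add_mem ha hb, l + m, by rw [map_add, map_add, hl1, hm]⟩
      zero_mem' := ⟨A.zero_mem, 0, by rw [map_zero, map_zero]⟩
      neg_mem' := by
        rintro a ⟨ha, l, hl1⟩
        exact ⟨A.neg_mem ha, -l, by rw [map_neg, map_neg, hl1]⟩
      mul_mem' := by
        rintro a b ⟨ha, l, hl1⟩ ⟨hb, m, hm⟩
        exact ⟨hl a b hb, l * m, by rw [map_mul, map_mul, hl1, hm]⟩ }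
  have hB : ∀ b : B, ∃ l, j l = π b.1 := fun b => b.2.2
  choose f hf using hB
  let φ : B →ₙ+* L :=
    { toFun := f
      map_mul' := by
        intro x y
        apply hj
        rw [hf, map_mul, hf, hf]
        exact map_mul π _ _
      map_zero' := by
        apply hj
        rw [hf, map_zero]
        exact map_zero π
      map_add' := by
        intro x y
        apply hj
        rw [hf, map_add, hf, hf]
        exact map_add π _ _ }
  refine hF L B φ (fun b hb => hb.1) ?_
  intro l
  obtain ⟨a, ha, hal⟩ := hs (j l)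
  refine ⟨⟨a, ha, l, hal.symm⟩, ?_⟩
  apply hj
  show j (f _) = j l
  rw [hf]
  exact hal

private theorem exists_corner (D : Type) [DivisionRing D] (p : ℕ) [Fact p.Prime] [CharP D p] (d : ℕ)
    (hd : 2 ≤ d) : ∃ j : GaloisField p 2 →ₙ+* Matrix (Fin d) (Fin d) D, Function.Injective j := by
  classical
  obtain ⟨e, rfl⟩ := Nat.exists_eq_add_of_le hd
  let b := Module.finBasisOfFinrankEq (ZMod p) (GaloisField p 2) (GaloisField.finrank p (by norm_num : (2:ℕ) ≠ 0))
  let j1 : GaloisField p 2 →+* Matrix (Fin 2) (Fin 2) (ZMod p) := (Algebra.leftMulMatrix b).toRingHom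
  let j2 : Matrix (Fin 2) (Fin 2) (ZMod p) →+* Matrix (Fin 2) (Fin 2) D :=
    (ZMod.castHom (dvd_refl p) D).mapMatrix
  let j3 : Matrix (Fin 2) (Fin 2) D →ₙ+* Matrix (Fin (2 + e)) (Fin (2 + e)) D :=
    { toFun := fun M => Matrix.reindex finSumFinEquiv finSumFinEquiv (Matrix.fromBlocks M 0 0 0)
      map_mul' := by
        intro M N
        simp [Matrix.fromBlocks_multiply, Matrix.submatrix_mul_equiv]
      map_zero' := by simp
      map_add' := by
        intro M N
        have h : Matrix.fromBlocks (M + N) 0 0 (0 : Matrix (Fin e) (Fin e) D)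
            = Matrix.fromBlocks M 0 0 0 + Matrix.fromBlocks N 0 0 0 := by
          rw [Matrix.fromBlocks_add]
          simp
        rw [h]
        rfl }
  refine ⟨j3.comp ((j2.comp j1) : GaloisField p 2 →ₙ+* Matrix (Fin 2) (Fin 2) D), ?_⟩
  intro x y hxy
  have h1 : (j2.comp j1) x = (j2.comp j1) y := by
    have h2 : Matrix.fromBlocks ((j2.comp j1) x) 0 0 (0 : Matrix (Fin e) (Fin e) D)
        = Matrix.fromBlocks ((j2.comp j1) y) 0 0 (0 : Matrix (Fin e) (Fin e) D) :=
      (Matrix.reindex finSumFinEquiv finSumFinEquiv).injective hxy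
    exact (Matrix.fromBlocks_inj.1 h2).1
  exact (j2.comp j1).injective h1

private theorem image_or (U : Type) [Ring U] (A : AddSubgroup U)
    (hl : ∀ u, ∀ a ∈ A, u * a ∈ A) (hr : ∀ u, ∀ a ∈ A, a * u ∈ A)
    (S : Type) [Ring S] [IsSimpleRing S] (π : U →+* S) (hπ : Function.Surjective π) :
    (∀ a ∈ A, π a = 0) ∨ ∀ s : S, ∃ a ∈ A, π a = s := by
  let I : TwoSidedIdeal S := TwoSidedIdeal.mk' {s | ∃ a ∈ A, π a = s}
    ⟨0, A.zero_mem, map_zero π⟩
    (by
      rintro x y ⟨a, ha, rfl⟩ ⟨b, hb, rfl⟩
      exact ⟨a + b, A.add_mem ha hb, map_add π a b⟩)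
    (by
      rintro x ⟨a, ha, rfl⟩
      exact ⟨-a, A.neg_mem ha, map_neg π a⟩)
    (by
      rintro x y ⟨a, ha, rfl⟩
      obtain ⟨u, rfl⟩ := hπ x
      exact ⟨u * a, hl u a ha, map_mul π u a⟩)
    (by
      rintro x y ⟨a, ha, rfl⟩
      obtain ⟨u, rfl⟩ := hπ y
      exact ⟨a * u, hr u a ha, map_mul π a u⟩)
  have hI : ∀ s, s ∈ I ↔ ∃ a ∈ A, π a = s := by
    intro s
    exact TwoSidedIdeal.mem_mk' _ _ _ _ _ _ _
  rcases eq_bot_or_eq_top I with h | h
  · left
    intro a ha
    have h1 : π a ∈ I := (hI _).2 ⟨a, ha, rfl⟩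
    rw [h] at h1
    exact (TwoSidedIdeal.mem_bot S).1 h1
  · right
    intro s
    rw [← hI, h]
    trivial

private theorem block_equiv (p K : ℕ) (hp : p.Prime) (U : Type) [Ring U] [Finite U]
    (hU : ((p : ℤ) ^ K) • (1 : U) = 0) (A : AddSubgroup U) (hl : ∀ u, ∀ a ∈ A, u * a ∈ A)
    (hr : ∀ u, ∀ a ∈ A, a * u ∈ A) (hA : ∀ u : U, ∃ n : ℤ, u - n • (1 : U) ∈ A)
    (hF : ∀ (L : Type) [Field L] [Finite L] (B : NonUnitalSubring U) (φ : B →ₙ+* L),
      (∀ b ∈ B, b ∈ A) → Function.Surjective φ → (Nat.card L).Prime)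
    (D : Type) [DivisionRing D] (d : ℕ) [NeZero d] (π : U →+* Matrix (Fin d) (Fin d) D)
    (hπ : Function.Surjective π) : Nonempty (Matrix (Fin d) (Fin d) D ≃+* ZMod p) := by
  classical
  have : Fact p.Prime := ⟨hp⟩
  have hfM : Finite (Matrix (Fin d) (Fin d) D) := Finite.of_surjective π hπ
  have hfD : Finite D := Finite.of_injective (Matrix.scalar (Fin d) : D → Matrix (Fin d) (Fin d) D)
    (by
      intro x y hxy
      exact Matrix.scalar_inj.1 hxy)
  have hp0 : (p : D) = 0 := by
    have h1 : ((p : Matrix (Fin d) (Fin d) D)) ^ K = 0 := by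
      have h2 := congrArg π hU
      rw [map_zero, map_zsmul, map_one] at h2
      rw [← h2]
      simp
    have h3 : (p : D) ^ K = 0 := by
      have h4 : Matrix.scalar (Fin d) ((p : D) ^ K) = Matrix.scalar (Fin d) 0 := by
        rw [map_pow, map_natCast, map_zero, h1]
      exact Matrix.scalar_inj.1 h4
    exact IsReduced.eq_zero _ ⟨K, h3⟩
  have hcp : CharP D p := (CharP.charP_iff_prime_eq_zero hp).2 hp0
  have hcj : Function.Injective (ZMod.castHom (dvd_refl p) D) := (ZMod.castHom (dvd_refl p) D).injective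
  -- it is enough to have `d = 1` and a surjective cast
  suffices h : d = 1 ∧ Function.Surjective (ZMod.castHom (dvd_refl p) D) by
    obtain ⟨rfl, hs⟩ := h
    let c : ZMod p ≃+* D := RingEquiv.ofBijective (ZMod.castHom (dvd_refl p) D) ⟨hcj, hs⟩
    let m : D →+* Matrix (Fin 1) (Fin 1) D := Matrix.scalar (Fin 1)
    have hm : Function.Bijective m := by
      constructor
      · intro x y hxy
        exact Matrix.scalar_inj.1 hxy
      · intro M
        refine ⟨M 0 0, ?_⟩
        ext i j
        rw [Subsingleton.elim i 0, Subsingleton.elim j 0]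
        simp [m]
    exact ⟨(c.trans (RingEquiv.ofBijective m hm)).symm⟩
  rcases image_or U A hl hr _ π hπ with h0 | h1
  · -- every matrix is an integer multiple of 1
    have hint : ∀ M : Matrix (Fin d) (Fin d) D, ∃ n : ℤ, M = n • (1 : Matrix (Fin d) (Fin d) D) := by
      intro M
      obtain ⟨u, rfl⟩ := hπ M
      obtain ⟨n, hn⟩ := hA u
      have h2 := h0 _ hn
      rw [map_sub, map_zsmul, map_one, sub_eq_zero] at h2
      exact ⟨n, h2⟩
    constructor
    · by_contra hd1
      have hd0 : d ≠ 0 := NeZero.ne d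
      have hd2 : 2 ≤ d := by omega
      let i0 : Fin d := ⟨0, by omega⟩
      let i1 : Fin d := ⟨1, by omega⟩
      have hne : i0 ≠ i1 := by
        intro h
        have := congrArg Fin.val h
        simp [i0, i1] at this
      obtain ⟨n, hn⟩ := hint (Matrix.single i0 i1 1)
      have h3 := congrFun (congrFun hn i0) i1
      rw [Matrix.single_apply_same, Matrix.smul_apply, Matrix.one_apply_ne hne, smul_zero] at h3
      exact one_ne_zero h3
    · intro x
      obtain ⟨n, hn⟩ := hint (Matrix.scalar (Fin d) x)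
      refine ⟨(n : ZMod p), ?_⟩
      have h4 : Matrix.scalar (Fin d) x = Matrix.scalar (Fin d) (n : D) := by
        rw [hn, map_intCast]
        simp
      have h5 : x = (n : D) := Matrix.scalar_inj.1 h4
      rw [h5]
      exact map_intCast _ n
  · have hcard : Nat.card D = p := by
      have hpr : (Nat.card D).Prime := by
        refine prime_of_emb U A hl hF _ π h1 D (Matrix.scalar (Fin d) : D →+* Matrix (Fin d) (Fin d) D) ?_
        intro x y hxy
        exact Matrix.scalar_inj.1 hxy
      have hz : ((Nat.card D : ℕ) : D) = 0 := by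
        have h2 := card_nsmul_eq_zero' (x := (1 : D))
        rwa [nsmul_one] at h2
      exact ((Nat.prime_dvd_prime_iff_eq hp hpr).1 ((CharP.cast_eq_zero_iff D p _).1 hz)).symm
    constructor
    · by_contra hd1
      have hd0 : d ≠ 0 := NeZero.ne d
      have hd2 : 2 ≤ d := by omega
      obtain ⟨j, hj⟩ := exists_corner D p d hd2
      have h2 := prime_of_emb U A hl hF _ π h1 (GaloisField p 2) j hj
      rw [GaloisField.card p 2 (by norm_num)] at h2
      exact Nat.Prime.not_prime_pow (le_refl 2) h2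
    · have h3 : Nat.card (ZMod p) = Nat.card D := by
        rw [Nat.card_zmod, hcard]
      exact ((Nat.bijective_iff_injective_and_card _).2 ⟨hcj, h3⟩).2

theorem blocks (p K : ℕ) (hp : p.Prime) (U : Type) [Ring U] [Finite U]
    (hU : ((p : ℤ) ^ K) • (1 : U) = 0) (A : AddSubgroup U) (hl : ∀ u, ∀ a ∈ A, u * a ∈ A)
    (hr : ∀ u, ∀ a ∈ A, a * u ∈ A) (hA : ∀ u : U, ∃ n : ℤ, u - n • (1 : U) ∈ A)
    (hF : ∀ (L : Type) [Field L] [Finite L] (B : NonUnitalSubring U) (φ : B →ₙ+* L),
      (∀ b ∈ B, b ∈ A) → Function.Surjective φ → (Nat.card L).Prime) :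
    ∃ (n : ℕ) (π : U →+* (Fin n → ZMod p)), Function.Surjective π ∧
      ∃ N : ℕ, ∀ l : List U, N ≤ l.length → (∀ x ∈ l, π x = 0) → l.prod = 0 := by
  classical
  have : IsArtinianRing U := inferInstance
  have : IsSemiprimaryRing U := inferInstance
  obtain ⟨n, D, d, hD, hd, ⟨e⟩⟩ :=
    IsSemisimpleRing.exists_ringEquiv_pi_matrix_divisionRing (U ⧸ Ring.jacobson U)
  have hb : ∀ i, Nonempty (Matrix (Fin (d i)) (Fin (d i)) (D i) ≃+* ZMod p) := by
    intro i
    have := hd i
    refine block_equiv p K hp U hU A hl hr hA hF (D i) (d i)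
      ((Pi.evalRingHom (fun i => Matrix (Fin (d i)) (Fin (d i)) (D i)) i).comp
        (e.toRingHom.comp (Ideal.Quotient.mk (Ring.jacobson U)))) ?_
    intro x
    obtain ⟨y, hy⟩ := Ideal.Quotient.mk_surjective (e.symm (Function.update 0 i x))
    refine ⟨y, ?_⟩
    simp [hy]
  let g : (Π i, Matrix (Fin (d i)) (Fin (d i)) (D i)) ≃+* (Fin n → ZMod p) :=
    RingEquiv.piCongrRight fun i => Classical.choice (hb i)
  refine ⟨n, (g.toRingHom.comp e.toRingHom).comp (Ideal.Quotient.mk (Ring.jacobson U)), ?_, ?_⟩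
  · intro x
    obtain ⟨y, hy⟩ := Ideal.Quotient.mk_surjective (e.symm (g.symm x))
    refine ⟨y, ?_⟩
    simp [hy]
  · obtain ⟨N, hN⟩ := IsSemiprimaryRing.isNilpotent (R := U)
    refine ⟨N, ?_⟩
    intro l hlN hlx
    have hJ : ∀ x ∈ l, x ∈ Ring.jacobson U := by
      intro x hx
      have h1 := hlx x hx
      have h2 : g (e (Ideal.Quotient.mk (Ring.jacobson U) x)) = 0 := h1
      rw [map_eq_zero_iff g g.injective, map_eq_zero_iff e e.injective] at h2
      exact Ideal.Quotient.eq_zero_iff_mem.1 h2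
    have key : ∀ l : List U, (∀ x ∈ l, x ∈ Ring.jacobson U) → l.prod ∈ (Ring.jacobson U) ^ l.length := by
      intro l
      induction l with
      | nil =>
        intro _
        rw [List.length_nil, Submodule.pow_zero, Ideal.one_eq_top]
        trivial
      | cons a l ih =>
        intro h
        rw [List.prod_cons, List.length_cons, Ideal.IsTwoSided.pow_succ]
        exact Ideal.mul_mem_mul (h a (by simp)) (ih (fun x hx => h x (by simp [hx])))
    have h3 := key l hJ
    have h4 := Ideal.pow_le_pow_right hlN h3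
    rw [hN] at h4
    exact (Submodule.mem_bot U).1 h4

end ADN
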