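import Pool.Agent.ADN.Defs
import Pool.Agent.ADN.Basic
import Pool.Agent.ADN.Van

/-!
# ADN-Cls

Shapes of the path words with nonzero value.

Induction on the word: a letter `k : a → g` in front of a word `v'` of one of the six shapes gives a word of one of the six
shapes, or three consecutive nonempty blocks with a `Bad` pattern of vertices, whose product vanishes by `van`.
-/

namespace ADN

open AD

namespace Ctx

variable {U : Type} [Ring U] (C : Ctx U)

variable {ι : Type} {src tgt : ι → Fin (C.s + 1)} {r : ι → U}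

/-- the block lemma -/
private theorem kill (hC : C.Cub) (hr : C.Srt src tgt r) {v₀ v₁ v₂ v₃ : Fin (C.s + 1)}
    (h : Bad v₀ v₁ v₂ v₃) {w₁ w₂ w₃ w₄ v : List ι} (hv : v = w₁ ++ (w₂ ++ (w₃ ++ w₄))) (h₁ : w₁ ≠ []) (h₂ : w₂ ≠ [])
    (h₃ : w₃ ≠ []) (p₁ : pth src tgt v₀ w₁ v₁) (p₂ : pth src tgt v₁ w₂ v₂) (p₃ : pth src tgt v₂ w₃ v₃)
    (hne : (v.map r).prod ≠ 0) : False := by
  apply hne
  have h4 := C.van hC h (C.S_path hr w₁ v₀ v₁ h₁ p₁) (C.S_path hr w₂ v₁ v₂ h₂ p₂) (C.S_path hr w₃ v₂ v₃ h₃ p₃)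
  rw [hv, List.map_append, List.map_append, List.map_append, List.prod_append, List.prod_append, List.prod_append,
    ← mul_assoc, ← mul_assoc, h4, zero_mul]

omit [Ring U] in
private theorem loops {W : Type} {src tgt : ι → W} {a : W} : ∀ {w : List ι}, (∀ i ∈ w, src i = a ∧ tgt i = a) →
    pth src tgt a w a
  | [], _ => rfl
  | k :: w, h => by
    have hk := h k List.mem_cons_self
    refine ⟨hk.1, ?_⟩
    rw [hk.2]
    exact loops fun i hi => h i (List.mem_cons_of_mem _ hi)

omit [Ring U] in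
private theorem single {W : Type} {src tgt : ι → W} {a b : W} {k : ι} (h1 : src k = a) (h2 : tgt k = b) :
    pth src tgt a [k] b := ⟨h1, h2⟩

omit [Ring U] in
private theorem double {W : Type} {src tgt : ι → W} {a b c : W} {k l : ι} (h1 : src k = a) (h2 : tgt k = b)
    (h3 : src l = b) (h4 : tgt l = c) : pth src tgt a [k, l] c := ⟨h1, by rw [h2]; exact ⟨h3, h4⟩⟩

private theorem step2 (hC : C.Cub) (hr : C.Srt src tgt r) {a g b : Fin (C.s + 1)} {k : ι} {v : List ι}
    (h1 : src k = a) (h2 : tgt k = g) (hs : C.Sh2 src tgt g b v) (hne : ((k :: v).map r).prod ≠ 0) :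
    C.Sh2 src tgt a b (k :: v) ∨ C.Sh4 src tgt a b (k :: v) ∨ C.Sh5 src tgt a b (k :: v) := by
  obtain ⟨hgb, v₁, k', rfl, hl, h3, h4⟩ := hs
  by_cases hga : g = a
  · left
    subst hga
    refine ⟨hgb, k :: v₁, k', rfl, fun i hi => ?_, h3, h4⟩
    rcases List.mem_cons.mp hi with rfl | hi
    · exact ⟨h1, h2⟩
    · exact hl i hi
  · by_cases hv : v₁ = []
    · subst hv
      by_cases hab : a = b
      · right; left
        subst hab
        exact ⟨rfl, [], [], k, k', g, hga, rfl, fun i hi => absurd hi List.not_mem_nil,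
          fun i hi => absurd hi List.not_mem_nil, h1, h2, h3, h4⟩
      · right; right
        exact ⟨k, k', g, rfl, hab, hga, hgb, h1, h2, h3, h4⟩
    · exfalso
      exact kill C hC hr (Or.inl ⟨Ne.symm hga, hgb, fun h => hga h.1.symm⟩) (w₁ := [k]) (w₂ := v₁) (w₃ := [k'])
        (w₄ := []) (by simp) (by simp) hv (by simp) (single h1 h2) (loops hl) (single h3 h4) hne

private theorem step (hC : C.Cub) (hr : C.Srt src tgt r) {a g b : Fin (C.s + 1)} {k : ι} {v : List ι}
    (h1 : src k = a) (h2 : tgt k = g)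
    (hs : C.Sh1 src tgt g b v ∨ C.Sh2 src tgt g b v ∨ C.Sh3 src tgt g b v ∨ C.Sh4 src tgt g b v ∨
      C.Sh5 src tgt g b v ∨ C.Sh6 src tgt g b v) (hne : ((k :: v).map r).prod ≠ 0) :
    C.Sh1 src tgt a b (k :: v) ∨ C.Sh2 src tgt a b (k :: v) ∨ C.Sh3 src tgt a b (k :: v) ∨
      C.Sh4 src tgt a b (k :: v) ∨ C.Sh5 src tgt a b (k :: v) ∨ C.Sh6 src tgt a b (k :: v) := by
  have use2 : C.Sh2 src tgt g b v →
      C.Sh1 src tgt a b (k :: v) ∨ C.Sh2 src tgt a b (k :: v) ∨ C.Sh3 src tgt a b (k :: v) ∨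
      C.Sh4 src tgt a b (k :: v) ∨ C.Sh5 src tgt a b (k :: v) ∨ C.Sh6 src tgt a b (k :: v) := by
    intro hs
    rcases step2 C hC hr h1 h2 hs hne with h | h | h
    · exact Or.inr (Or.inl h)
    · exact Or.inr (Or.inr (Or.inr (Or.inl h)))
    · exact Or.inr (Or.inr (Or.inr (Or.inr (Or.inl h))))
  rcases hs with hs | hs | hs | hs | hs | hs
  · -- shape 1
    obtain ⟨hgb, hl⟩ := hs
    subst hgb
    by_cases hga : g = a
    · left
      subst hga
      refine ⟨rfl, fun i hi => ?_⟩
      rcases List.mem_cons.mp hi with rfl | hi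
      · exact ⟨h1, h2⟩
      · exact hl i hi
    · right; right; left
      exact ⟨Ne.symm hga, v, k, rfl, hl, h1, h2⟩
  · exact use2 hs
  · -- shape 3
    obtain ⟨hgb, v₁, k', rfl, hl, h3, h4⟩ := hs
    by_cases hv : v₁ = []
    · subst hv
      exact use2 ⟨hgb, [], k', rfl, fun i hi => absurd hi List.not_mem_nil, h3, h4⟩
    · by_cases hga : g = a
      · subst hga
        exfalso
        exact kill C hC hr (Or.inr (Or.inr (Or.inr ⟨rfl, hgb, rfl⟩))) (w₁ := [k]) (w₂ := [k']) (w₃ := v₁)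
          (w₄ := []) (by simp) (by simp) (by simp) hv (single h1 h2) (single h3 h4) (loops hl) hne
      · by_cases hab : a = b
        · subst hab
          right; right; right; left
          exact ⟨rfl, [], v₁, k, k', g, hga, rfl, fun i hi => absurd hi List.not_mem_nil, hl, h1, h2, h3, h4⟩
        · exfalso
          exact kill C hC hr (Or.inr (Or.inr (Or.inl ⟨rfl, hgb, Ne.symm hga, hab⟩))) (w₁ := [k]) (w₂ := [k'])
            (w₃ := v₁) (w₄ := []) (by simp) (by simp) (by simp) hv (single h1 h2) (single h3 h4) (loops hl) hne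
  · -- shape 4
    obtain ⟨hgb, v₁, v₂, k₀, k₁, h, hh, rfl, hl₁, hl₂, h3, h4, h5, h6⟩ := hs
    subst hgb
    by_cases hga : g = a
    · subst hga
      right; right; right; left
      refine ⟨rfl, k :: v₁, v₂, k₀, k₁, h, hh, rfl, fun i hi => ?_, hl₂, h3, h4, h5, h6⟩
      rcases List.mem_cons.mp hi with rfl | hi
      · exact ⟨h1, h2⟩
      · exact hl₁ i hi
    · by_cases hv₁ : v₁ = []
      · subst hv₁
        by_cases hha : h = a
        · subst hha
          by_cases hv₂ : v₂ = []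
          · subst hv₂
            right; right; right; right; right
            exact ⟨hh, k, k₀, k₁, rfl, h1, h2, h3, h4, h5, h6⟩
          · exfalso
            exact kill C hC hr (Or.inr (Or.inr (Or.inr ⟨rfl, hh, rfl⟩))) (w₁ := [k, k₀]) (w₂ := [k₁])
              (w₃ := v₂) (w₄ := []) (by simp) (by simp) (by simp) hv₂ (double h1 h2 h3 h4) (single h5 h6)
              (loops hl₂) hne
        · exfalso
          exact kill C hC hr (Or.inl ⟨Ne.symm hga, hh, fun h' => hha h'.1.symm⟩) (w₁ := [k]) (w₂ := [k₀])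
            (w₃ := [k₁]) (w₄ := v₂) (by simp) (by simp) (by simp) (by simp) (single h1 h2) (single h3 h4)
            (single h5 h6) hne
      · exfalso
        exact kill C hC hr (Or.inl ⟨Ne.symm hga, Ne.symm hh, fun h' => hga h'.1.symm⟩) (w₁ := [k]) (w₂ := v₁)
          (w₃ := [k₀]) (w₄ := k₁ :: v₂) (by simp) (by simp) hv₁ (by simp) (single h1 h2) (loops hl₁)
          (single h3 h4) hne
  · -- shape 5
    obtain ⟨k₀, k₁, h, rfl, hgb, hhg, hhb, h3, h4, h5, h6⟩ := hs
    exfalso
    by_cases hga : g = a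
    · subst hga
      exact kill C hC hr (Or.inr (Or.inl ⟨rfl, Ne.symm hhg, hhb, Ne.symm hgb⟩)) (w₁ := [k]) (w₂ := [k₀])
        (w₃ := [k₁]) (w₄ := []) (by simp) (by simp) (by simp) (by simp) (single h1 h2) (single h3 h4)
        (single h5 h6) hne
    · exact kill C hC hr (Or.inl ⟨Ne.symm hga, hhb, fun h' => hgb h'.2⟩) (w₁ := [k]) (w₂ := [k₀])
        (w₃ := [k₁]) (w₄ := []) (by simp) (by simp) (by simp) (by simp) (single h1 h2) (single h3 h4)
        (single h5 h6) hne
  · -- shape 6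
    obtain ⟨hgb, k₀, k₁, k₂, rfl, h3, h4, h5, h6, h7, h8⟩ := hs
    exfalso
    by_cases hga : g = a
    · subst hga
      exact kill C hC hr (Or.inr (Or.inr (Or.inr ⟨rfl, hgb, rfl⟩))) (w₁ := [k]) (w₂ := [k₀])
        (w₃ := [k₁, k₂]) (w₄ := []) (by simp) (by simp) (by simp) (by simp) (single h1 h2) (single h3 h4)
        (double h5 h6 h7 h8) hne
    · exact kill C hC hr (Or.inl ⟨Ne.symm hga, hgb, fun h' => hga h'.1.symm⟩) (w₁ := [k]) (w₂ := [k₀, k₁])
        (w₃ := [k₂]) (w₄ := []) (by simp) (by simp) (by simp) (by simp) (single h1 h2) (double h3 h4 h5 h6)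
        (single h7 h8) hne

theorem cls (hC : C.Cub) (hr : C.Srt src tgt r) : ∀ (v : List ι) (a b : Fin (C.s + 1)),
    pth src tgt a v b → C.wv r a v ≠ 0 →
    C.Sh1 src tgt a b v ∨ C.Sh2 src tgt a b v ∨ C.Sh3 src tgt a b v ∨ C.Sh4 src tgt a b v ∨
      C.Sh5 src tgt a b v ∨ C.Sh6 src tgt a b v := by
  intro v
  induction v with
  | nil =>
    intro a b hp _
    exact Or.inl ⟨hp, fun k hk => absurd hk List.not_mem_nil⟩
  | cons k v ih =>
    intro a b hp hne
    have hprod : ((k :: v).map r).prod ≠ 0 := by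
      intro h
      apply hne
      unfold wv
      rw [h, mul_zero]
    refine step C hC hr hp.1 rfl ?_ hprod
    by_cases hv : v = []
    · subst hv
      exact Or.inl ⟨hp.2, fun i hi => absurd hi List.not_mem_nil⟩
    · refine ih (tgt k) b hp.2 ?_
      rw [C.wv_eq hr hv hp.2]
      intro h
      apply hprod
      rw [List.map_cons, List.prod_cons, h, mul_zero]

end Ctx

end ADN
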