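import Pool.Agent.ADN.Defs

/-!
# ADN-Idem

Lifting the idempotents of `(ZMod p) ^ n`, those which are values of the ideal `A`.
-/

namespace ADN

open AD

private theorem idem_pow {U : Type} [Ring U] (A : AddSubgroup U)
    (hl : ∀ u, ∀ a ∈ A, u * a ∈ A) (hr : ∀ u, ∀ a ∈ A, a * u ∈ A) {b : U} (hb : b ∈ A) (x : U)
    (m : ℕ) : (b + x) ^ m - x ^ m ∈ A := by
  induction m with
  | zero => simp [A.zero_mem]
  | succ m ih =>
    have h : (b + x) ^ (m + 1) - x ^ (m + 1) = ((b + x) ^ m - x ^ m) * (b + x) + x ^ m * b := by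
      rw [pow_succ, pow_succ]
      noncomm_ring
    rw [h]
    exact A.add_mem (hr _ _ ih) (hl _ _ hb)

theorem idem (p : ℕ) (hp : p.Prime) (U : Type) [Ring U] (A : AddSubgroup U)
    (hl : ∀ u, ∀ a ∈ A, u * a ∈ A) (hr : ∀ u, ∀ a ∈ A, a * u ∈ A) (n : ℕ)
    (π : U →+* (Fin n → ZMod p)) (hπ : Function.Surjective π) (N : ℕ)
    (hN : ∀ l : List U, N ≤ l.length → (∀ x ∈ l, π x = 0) → l.prod = 0) :
    ∃ (s : ℕ) (e : Fin s → U), (∀ i, e i ∈ A) ∧ (∀ i, e i * e i = e i) ∧
      (∀ i j, i ≠ j → e i * e j = 0) ∧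
      ∀ a ∈ A, ∃ c : Fin s → ℤ, π (a - ∑ i, c i • e i) = 0 := by
  classical
  have : Fact p.Prime := ⟨hp⟩
  have hpow : ∀ x : U, π x = 0 → x ^ (N + 1) = 0 := by
    intro x hx
    have h := hN (List.replicate (N + 1) x) (by simp) (fun y hy => by
      rw [List.eq_of_mem_replicate hy]; exact hx)
    rwa [List.prod_replicate] at h
  have hnil : ∀ x ∈ RingHom.ker π, IsNilpotent x := fun x hx =>
    ⟨N + 1, hpow x ((RingHom.mem_ker).1 hx)⟩
  have hsi := CompleteOrthogonalIdempotents.single (I := Fin n) (fun _ => ZMod p)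
  obtain ⟨e', h₁, h₂⟩ := OrthogonalIdempotents.lift_of_isNilpotent_ker π hnil
    hsi.toOrthogonalIdempotents (fun i => RingHom.mem_range.2 (hπ _))
  have h₂' : ∀ i, π (e' i) = Pi.single i 1 := fun i => congrFun h₂ i
  let I : Type := {i : Fin n // ∃ a ∈ A, π a i ≠ 0}
  let g : Fin (Fintype.card I) ≃ I := (Fintype.equivFin I).symm
  have hmem : ∀ i : I, e' i.1 ∈ A := by
    rintro ⟨i, a, ha, hai⟩
    obtain ⟨u, hu⟩ := hπ (Pi.single i (π a i)⁻¹)
    have hb : u * a ∈ A := hl _ _ ha
    have hπb : π (u * a) = Pi.single i 1 := by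
      rw [map_mul, hu]
      funext j
      by_cases hj : j = i
      · subst hj
        rw [Pi.mul_apply, Pi.single_eq_same, Pi.single_eq_same, inv_mul_cancel₀ hai]
      · rw [Pi.mul_apply, Pi.single_eq_of_ne hj, Pi.single_eq_of_ne hj, zero_mul]
    have hx : (e' i - u * a) ^ (N + 1) = 0 := by
      apply hpow
      rw [map_sub, h₂', hπb, sub_self]
    have h3 := idem_pow A hl hr hb (e' i - u * a) (N + 1)
    rw [hx, sub_zero, add_sub_cancel] at h3
    have h4 : e' i ^ (N + 1) = e' i := (h₁.idem i).pow_succ_eq N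
    rwa [h4] at h3
  refine ⟨Fintype.card I, fun k => e' (g k).1, fun k => hmem (g k), fun k => h₁.idem _, ?_, ?_⟩
  · intro i j hij
    refine h₁.ortho ?_
    intro h
    exact hij (g.injective (Subtype.ext h))
  · intro a _
    choose c hc using fun k : Fin (Fintype.card I) => ZMod.intCast_surjective (π a (g k).1)
    refine ⟨c, ?_⟩
    rw [map_sub, map_sum]
    funext j
    rw [Pi.sub_apply, Finset.sum_apply, Pi.zero_apply]
    have ht : ∀ k, (π (c k • e' (g k).1)) j = if j = (g k).1 then π a (g k).1 else 0 := by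
      intro k
      rw [map_zsmul, h₂', Pi.smul_apply]
      by_cases hj : j = (g k).1
      · rw [if_pos hj, hj, Pi.single_eq_same, zsmul_eq_mul, mul_one, hc]
      · rw [if_neg hj, Pi.single_eq_of_ne hj, smul_zero]
    simp_rw [ht]
    by_cases hj : ∃ a ∈ A, π a j ≠ 0
    · rw [Finset.sum_eq_single (g.symm ⟨j, hj⟩)]
      · rw [Equiv.apply_symm_apply, if_pos rfl, sub_self]
      · intro k _ hk
        rw [if_neg]
        intro h
        apply hk
        rw [Equiv.eq_symm_apply]
        exact Subtype.ext h.symm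
      · intro h
        exact absurd (Finset.mem_univ _) h
    · rw [Finset.sum_eq_zero]
      · rw [sub_zero]
        by_contra h
        exact hj ⟨a, by assumption, h⟩
      · intro k _
        rw [if_neg]
        intro h
        exact hj (h ▸ (g k).2)

end ADN
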