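import Pool.Agent.ADN.Defs
import Pool.Agent.ADN.Blocks
import Pool.Agent.ADN.Idem

/-!
# ADN-FinDec

PLAN.  `R` is a `ZMod (p ^ K)`-module (`AddCommGroup.zmodModule`); `U = Unitization (ZMod (p ^ K)) R` is a finite
unital ring (give the instances `IsScalarTower`, `SMulCommClass` by hand: the scalar `m` acts as an integer multiple),
`A = range Unitization.inr`, a two-sided ideal; every `u : U` is `n • 1 + a`; `p ^ K • 1 = 0`.
hF of `blocks`: for `φ : B →ₙ+* L` surjective, `B ⊆ A`: if `Sat R f`, `f ∈ Pp`, then `Sat L f`: lift the values `a i : L` to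
`b i ∈ B`, `b i = inr (r i)`; the value of `f` at `r` in `Unitization ℤ R` is 0; compare the evaluations (for `f ∈ Pp` the value is
`inr` of a value computed in `R`; e.g. prove by `FreeAlgebra.induction`, or by writing `f` as a combination of nonempty words
`mon w`, that there is an element of `R` representing it, compatibly with nonunital ring maps).
Then `blocks` and `idem` give `n, π, N, s, e`; pull back to `R`: `e i = inr (e' i)`, `J = {x : R | π (inr x) = 0}`.
`p • x ∈ J` because `ZMod p` has characteristic `p`.  Nilpotency: for `l : List R` with `N ≤ l.length`, all in `J`: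
`(l.map inr).prod = 0` in `U`, which (if `l ≠ []`; take `N + 1`) says that the product computed in `R` vanishes, so it vanishes in
`Unitization ℤ R`.
-/

namespace ADN

open AD

private noncomputable def fdMap {B S : Type} [NonUnitalRing B] [NonUnitalRing S] (ψ : B →ₙ+* S) :
    Unitization ℤ B →ₐ[ℤ] Unitization ℤ S :=
  NonUnitalAlgHom.toAlgHom ((Unitization.inrNonUnitalAlgHom ℤ S).comp
    ({ toFun := ψ
       map_smul' := fun m x => map_zsmul ψ m x
       map_zero' := map_zero ψ
       map_add' := map_add ψ
       map_mul' := map_mul ψ } : B →ₙₐ[ℤ] S))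

private theorem fdMap_apply {B S : Type} [NonUnitalRing B] [NonUnitalRing S] (ψ : B →ₙ+* S)
    (x : Unitization ℤ B) :
    fdMap ψ x = Unitization.inl x.fst + ((ψ x.snd : S) : Unitization ℤ S) := rfl

private theorem fdMap_fst {B S : Type} [NonUnitalRing B] [NonUnitalRing S] (ψ : B →ₙ+* S)
    (x : Unitization ℤ B) : (fdMap ψ x).fst = x.fst := by
  rw [fdMap_apply, Unitization.fst_add, Unitization.fst_inl, Unitization.fst_inr, add_zero]

private theorem fdMap_snd {B S : Type} [NonUnitalRing B] [NonUnitalRing S] (ψ : B →ₙ+* S)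
    (x : Unitization ℤ B) : (fdMap ψ x).snd = ψ x.snd := by
  rw [fdMap_apply, Unitization.snd_add, Unitization.snd_inl, Unitization.snd_inr, zero_add]

private theorem fdMap_inr {B S : Type} [NonUnitalRing B] [NonUnitalRing S] (ψ : B →ₙ+* S) (b : B) :
    fdMap ψ ((b : B) : Unitization ℤ B) = ((ψ b : S) : Unitization ℤ S) := by
  apply Unitization.ext
  · rw [fdMap_fst, Unitization.fst_inr, Unitization.fst_inr]
  · rw [fdMap_snd, Unitization.snd_inr, Unitization.snd_inr]

private theorem fdMap_lift {B S : Type} [NonUnitalRing B] [NonUnitalRing S] (ψ : B →ₙ+* S)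
    (a : ℕ → B) (f : P) :
    fdMap ψ (FreeAlgebra.lift ℤ (fun i => ((a i : B) : Unitization ℤ B)) f) =
      FreeAlgebra.lift ℤ (fun i => ((ψ (a i) : S) : Unitization ℤ S)) f := by
  have h : (fdMap ψ).comp (FreeAlgebra.lift ℤ (fun i => ((a i : B) : Unitization ℤ B))) =
      FreeAlgebra.lift ℤ (fun i => ((ψ (a i) : S) : Unitization ℤ S)) := by
    apply FreeAlgebra.hom_ext
    funext i
    simp only [Function.comp_apply, AlgHom.comp_apply, FreeAlgebra.lift_ι_apply]
    exact fdMap_inr ψ (a i)
  rw [← h]
  rfl

private theorem sat_surj {B S : Type} [NonUnitalRing B] [NonUnitalRing S] (ψ : B →ₙ+* S)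
    (hψ : Function.Surjective ψ) (f : P) (hf : Sat B f) : Sat S f := by
  intro a
  choose b hb using fun i => hψ (a i)
  have h1 := hf b
  have h2 := fdMap_lift ψ b f
  rw [h1, map_zero] at h2
  have h3 : (fun i => ((ψ (b i) : S) : Unitization ℤ S)) =
      fun i => ((a i : S) : Unitization ℤ S) := by
    funext i
    rw [hb i]
  rw [h3] at h2
  exact h2.symm

private theorem sat_inj {B S : Type} [NonUnitalRing B] [NonUnitalRing S] (ψ : B →ₙ+* S)
    (hψ : Function.Injective ψ) (f : P) (hf : Sat S f) : Sat B f := by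
  intro a
  have h1 := hf (fun i => ψ (a i))
  have h2 := fdMap_lift ψ a f
  rw [h1] at h2
  apply Unitization.ext
  · rw [← fdMap_fst ψ, h2]
    rfl
  · apply hψ
    rw [← fdMap_snd ψ, h2, Unitization.snd_zero, Unitization.snd_zero, map_zero]

theorem finDec (p K : ℕ) (hp : p.Prime) (R : Type) [NonUnitalRing R] [Finite R]
    (hR : ∀ x : R, (p ^ K) • x = 0)
    (hF : ∀ (L : Type) [Field L] [Finite L], (∀ f ∈ Pp, Sat R f → Sat L f) → (Nat.card L).Prime) :
    FinDec p R := by
  classical
  have hq : NeZero (p ^ K) := ⟨pow_ne_zero K hp.ne_zero⟩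
  let iM : Module (ZMod (p ^ K)) R := AddCommGroup.zmodModule hR
  have hcast : ∀ (m : ℤ) (x : R), ((m : ℤ) : ZMod (p ^ K)) • x = m • x := fun m x =>
    Int.cast_smul_eq_zsmul (ZMod (p ^ K)) m x
  have iT : IsScalarTower (ZMod (p ^ K)) R R := ⟨fun c x y => by
    obtain ⟨m, rfl⟩ := ZMod.intCast_surjective c
    rw [hcast, hcast, smul_eq_mul, smul_eq_mul, smul_mul_assoc]⟩
  have iC : SMulCommClass (ZMod (p ^ K)) R R := ⟨fun c x y => by
    obtain ⟨m, rfl⟩ := ZMod.intCast_surjective c
    rw [hcast, hcast, smul_eq_mul, smul_eq_mul, mul_smul_comm]⟩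
  have iF : Finite (Unitization (ZMod (p ^ K)) R) :=
    Finite.of_equiv (ZMod (p ^ K) × R) Unitization.equiv.symm
  let A : AddSubgroup (Unitization (ZMod (p ^ K)) R) :=
    { carrier := {u | u.fst = 0}
      add_mem' := by
        intro a b ha hb
        show (a + b).fst = 0
        rw [Unitization.fst_add, show a.fst = 0 from ha, show b.fst = 0 from hb, add_zero]
      zero_mem' := Unitization.fst_zero
      neg_mem' := by
        intro a ha
        show (-a).fst = 0
        rw [Unitization.fst_neg, show a.fst = 0 from ha, neg_zero] }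
  have hA : ∀ u : Unitization (ZMod (p ^ K)) R, u ∈ A ↔ u.fst = 0 := fun u => Iff.rfl
  have hinr : ∀ u ∈ A, u = ((u.snd : R) : Unitization (ZMod (p ^ K)) R) := by
    intro u hu
    apply Unitization.ext
    · rw [Unitization.fst_inr]
      exact hu
    · rw [Unitization.snd_inr]
  have hl : ∀ u, ∀ a ∈ A, u * a ∈ A := by
    intro u a ha
    rw [hA, Unitization.fst_mul, (hA a).1 ha, mul_zero]
  have hr : ∀ u, ∀ a ∈ A, a * u ∈ A := by
    intro u a ha
    rw [hA, Unitization.fst_mul, (hA a).1 ha, zero_mul]
  have hU : ((p : ℤ) ^ K) • (1 : Unitization (ZMod (p ^ K)) R) = 0 := by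
    apply Unitization.ext
    · rw [Unitization.fst_smul, Unitization.fst_one, Unitization.fst_zero, zsmul_eq_mul, mul_one]
      have h := ZMod.natCast_self (p ^ K)
      rw [← h]
      push_cast
      rfl
    · rw [Unitization.snd_smul, Unitization.snd_one, smul_zero, Unitization.snd_zero]
  have hAn : ∀ u : Unitization (ZMod (p ^ K)) R, ∃ n : ℤ, u - n • 1 ∈ A := by
    intro u
    obtain ⟨m, hm⟩ := ZMod.intCast_surjective u.fst
    refine ⟨m, ?_⟩
    rw [hA, sub_eq_add_neg, Unitization.fst_add, Unitization.fst_neg, Unitization.fst_smul,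
      Unitization.fst_one, zsmul_eq_mul, mul_one, hm, add_neg_cancel]
  have hF' : ∀ (L : Type) [Field L] [Finite L] (B : NonUnitalSubring (Unitization (ZMod (p ^ K)) R))
      (φ : B →ₙ+* L), (∀ b ∈ B, b ∈ A) → Function.Surjective φ → (Nat.card L).Prime := by
    intro L _ _ B φ hB hφ
    apply hF L
    intro f _ hf
    let ψ : B →ₙ+* R :=
      { toFun := fun b => b.1.snd
        map_mul' := by
          intro x y
          have hx := (hA x.1).1 (hB x.1 x.2)
          have hy := (hA y.1).1 (hB y.1 y.2)
          show (x.1 * y.1).snd = x.1.snd * y.1.snd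
          rw [Unitization.snd_mul, hx, hy, zero_smul, zero_smul, zero_add, zero_add]
        map_zero' := Unitization.snd_zero
        map_add' := by
          intro x y
          exact Unitization.snd_add x.1 y.1 }
    have hψ : Function.Injective ψ := by
      intro x y hxy
      apply Subtype.ext
      have hxy' : x.1.snd = y.1.snd := hxy
      rw [hinr x.1 (hB x.1 x.2), hinr y.1 (hB y.1 y.2), hxy']
    exact sat_surj φ hφ f (sat_inj ψ hψ f hf)
  obtain ⟨n, π, hπ, N, hN⟩ := blocks p K hp (Unitization (ZMod (p ^ K)) R) hU A hl hr hAn hF'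
  obtain ⟨s, e, heA, hee, heo, hdec⟩ := idem p hp (Unitization (ZMod (p ^ K)) R) A hl hr n π hπ N hN
  have he : ∀ i, e i = (((e i).snd : R) : Unitization (ZMod (p ^ K)) R) := fun i =>
    hinr (e i) (heA i)
  have hinj : Function.Injective (fun x : R => ((x : R) : Unitization (ZMod (p ^ K)) R)) :=
    Unitization.inr_injective
  let J : AddSubgroup R :=
    { carrier := {x | π ((x : R) : Unitization (ZMod (p ^ K)) R) = 0}
      add_mem' := by
        intro a b ha hb
        show π ((a + b : R) : Unitization (ZMod (p ^ K)) R) = 0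
        rw [Unitization.inr_add, map_add]
        have ha' : π ((a : R) : Unitization (ZMod (p ^ K)) R) = 0 := ha
        have hb' : π ((b : R) : Unitization (ZMod (p ^ K)) R) = 0 := hb
        rw [ha', hb', add_zero]
      zero_mem' := by
        show π ((0 : R) : Unitization (ZMod (p ^ K)) R) = 0
        rw [Unitization.inr_zero, map_zero]
      neg_mem' := by
        intro a ha
        show π ((-a : R) : Unitization (ZMod (p ^ K)) R) = 0
        have ha' : π ((a : R) : Unitization (ZMod (p ^ K)) R) = 0 := ha
        rw [Unitization.inr_neg, map_neg, ha', neg_zero] }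
  have hJ : ∀ x : R, x ∈ J ↔ π ((x : R) : Unitization (ZMod (p ^ K)) R) = 0 := fun x => Iff.rfl
  refine ⟨s, N + 1, fun i => (e i).snd, J, ?_, ?_, ?_, ?_, ?_, ?_, ?_⟩
  · intro i
    apply hinj
    show (((e i).snd * (e i).snd : R) : Unitization (ZMod (p ^ K)) R) = _
    rw [Unitization.inr_mul, ← he i]
    exact (hee i).trans (he i)
  · intro i j hij
    apply hinj
    show (((e i).snd * (e j).snd : R) : Unitization (ZMod (p ^ K)) R) = ((0 : R) : _)
    rw [Unitization.inr_mul, ← he i, ← he j, Unitization.inr_zero]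
    exact heo i j hij
  · intro x y hy
    rw [hJ, Unitization.inr_mul, map_mul, (hJ y).1 hy, mul_zero]
  · intro x y hy
    rw [hJ, Unitization.inr_mul, map_mul, (hJ y).1 hy, zero_mul]
  · intro x
    obtain ⟨c, hc⟩ := hdec ((x : R) : Unitization (ZMod (p ^ K)) R) (Unitization.fst_inr _ x)
    refine ⟨c, ?_⟩
    rw [hJ]
    have h1 : ((x - ∑ i, c i • (e i).snd : R) : Unitization (ZMod (p ^ K)) R) =
        ((x : R) : Unitization (ZMod (p ^ K)) R) - ∑ i, c i • e i := by
      rw [Unitization.inr_sub]
      congr 1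
      have h2 : ((∑ i, c i • (e i).snd : R) : Unitization (ZMod (p ^ K)) R) =
          Unitization.inrHom ℤ (ZMod (p ^ K)) R (∑ i, c i • (e i).snd) := rfl
      rw [h2, map_sum]
      refine Finset.sum_congr rfl fun i _ => ?_
      rw [map_zsmul]
      congr 1
      exact (he i).symm
    rw [h1]
    exact hc
  · intro x
    rw [hJ]
    have h2 : (((p : ℤ) • x : R) : Unitization (ZMod (p ^ K)) R) =
        (p : ℤ) • ((x : R) : Unitization (ZMod (p ^ K)) R) :=
      Unitization.inr_smul _ _ _
    rw [h2, map_zsmul]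
    funext i
    rw [Pi.smul_apply, zsmul_eq_mul, Int.cast_natCast, ZMod.natCast_self, zero_mul]
    rfl
  · have key : ∀ l : List R, l ≠ [] → ∃ r : R,
        (l.map (fun x : R => (x : Unitization ℤ R))).prod = ((r : R) : Unitization ℤ R) ∧
        (l.map (fun x : R => (x : Unitization (ZMod (p ^ K)) R))).prod =
          ((r : R) : Unitization (ZMod (p ^ K)) R) := by
      intro l
      induction l with
      | nil => intro h; exact absurd rfl h
      | cons x l ih =>
        intro _
        by_cases hl0 : l = []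
        · subst hl0
          exact ⟨x, by simp, by simp⟩
        · obtain ⟨r, h1, h2⟩ := ih hl0
          refine ⟨x * r, ?_, ?_⟩
          · rw [List.map_cons, List.prod_cons, h1, Unitization.inr_mul]
          · rw [List.map_cons, List.prod_cons, h2, Unitization.inr_mul]
    intro l hl1 hl2
    have hne : l ≠ [] := by
      intro h
      rw [h] at hl1
      simp at hl1
    obtain ⟨r, h1, h2⟩ := key l hne
    have h3 := hN (l.map (fun x : R => (x : Unitization (ZMod (p ^ K)) R)))
      (by rw [List.length_map]; omega) (by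
        intro x hx
        obtain ⟨y, hy, rfl⟩ := List.mem_map.1 hx
        exact hl2 y hy)
    rw [h2] at h3
    have h4 : r = 0 := by
      apply hinj
      show ((r : R) : Unitization (ZMod (p ^ K)) R) = ((0 : R) : _)
      rw [h3, Unitization.inr_zero]
    rw [h4, Unitization.inr_zero] at h1
    simpa [List.map_eq_flatMap] using h1

end ADN
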