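import Pool.Agent.ADN.Main
import Pool.Agent.AD.Trans2

namespace ADN

open AD

theorem final (V : Set RingObj) (hV : AlmostDistributive V) :
    (∃ n : ℕ, 1 ≤ n ∧ ∀ R ∈ V, @Sat R.1 R.2 (((List.range n).map (FreeAlgebra.ι ℤ)).prod)) ∨
      ∃ (K : Type) (iK : Field K), Finite K ∧ ¬ (Nat.card K).Prime ∧
        (⟨K, inferInstance⟩ : RingObj) ∈ V := by
  obtain ⟨I, hI, rfl⟩ := almDist_of hV
  by_cases hF : ∀ (L : Type) [Field L] [Finite L], (∀ f ∈ I, Sat L f) → (Nat.card L).Prime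
  · left
    obtain ⟨n, hn⟩ := nilpotent hI hF
    refine ⟨n + 1, by omega, ?_⟩
    intro R hR
    apply hR
    exact hn (List.range (n + 1)) (by simp)
  · right
    push Not at hF
    obtain ⟨L, iL, hfin, hL, hp⟩ := hF
    exact ⟨L, iL, hfin, hp, hL⟩

end ADN
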