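import Pool.Agent.ADN.Defs
import Pool.Agent.ADN.Basic

/-!
# ADN-Mob

The part of a combination of words that contains exactly the letters of `R`: the letters outside `R` are replaced by
zero, then strong induction on `R`.
-/

namespace ADN

open AD

namespace Ctx

variable {U : Type} [Ring U] (C : Ctx U)

variable {ι : Type} [Fintype ι] [DecidableEq ι]

omit [Fintype ι] in
private theorem mob_filter (r : ι → U) (a : Fin (C.s + 1)) (c : List ι →₀ ℤ) (R : Finset ι) :
    C.val r a (c.filter (fun v => v.toFinset = R)) =
      ∑ v ∈ c.support.filter (fun v => v.toFinset = R), c v • C.wv r a v := by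
  rw [val, Finsupp.sum, Finsupp.support_filter]
  refine Finset.sum_congr rfl fun v hv => ?_
  have h : (c.filter (fun v => v.toFinset = R)) v = c v :=
    Finsupp.filter_apply_pos (fun v : List ι => v.toFinset = R) c (Finset.mem_filter.1 hv).2
  rw [h]

omit [Fintype ι] in
private theorem mob_wv (r : ι → U) (a : Fin (C.s + 1)) (R : Finset ι) (v : List ι) :
    C.wv (fun k => if k ∈ R then r k else 0) a v =
      if v.toFinset ⊆ R then C.wv r a v else 0 := by
  rw [wv, wv]
  split_ifs with h
  · congr 2
    refine List.map_congr_left fun k hk => ?_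
    rw [if_pos (h (List.mem_toFinset.2 hk))]
  · rw [Finset.not_subset] at h
    obtain ⟨k, hk, hkR⟩ := h
    rw [List.prod_eq_zero, mul_zero]
    rw [List.mem_map]
    exact ⟨k, List.mem_toFinset.1 hk, if_neg hkR⟩

theorem mob (src tgt : ι → Fin (C.s + 1)) (a : Fin (C.s + 1)) (V : AddSubgroup U)
    (c : List ι →₀ ℤ) (h : ∀ r, C.Srt src tgt r → C.val r a c ∈ V) (R : Finset ι) :
    ∀ r, C.Srt src tgt r → C.val r a (c.filter (fun v => v.toFinset = R)) ∈ V := by
  induction R using Finset.strongInduction with
  | H R ih =>
    intro r hr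
    have h1 : C.Srt src tgt (fun k => if k ∈ R then r k else 0) := by
      intro k
      show C.S (src k) (tgt k) (if k ∈ R then r k else 0)
      split_ifs
      · exact hr k
      · exact C.S_zero _ _
    have h2 := h _ h1
    have h3 : C.val (fun k => if k ∈ R then r k else 0) a c =
        ∑ R' ∈ R.powerset, C.val r a (c.filter (fun v => v.toFinset = R')) := by
      rw [val, Finsupp.sum]
      simp_rw [mob_wv, mob_filter]
      have h4 : ∀ v ∈ c.support, c v • (if v.toFinset ⊆ R then C.wv r a v else 0) =
          if v.toFinset ⊆ R then c v • C.wv r a v else 0 := by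
        intro v _
        split_ifs
        · rfl
        · rw [smul_zero]
      rw [Finset.sum_congr rfl h4, ← Finset.sum_filter,
        ← Finset.sum_fiberwise_of_maps_to (s := c.support.filter fun v => v.toFinset ⊆ R)
          (t := R.powerset) (g := fun v => v.toFinset)
          (fun v hv => Finset.mem_powerset.2 (Finset.mem_filter.1 hv).2)]
      refine Finset.sum_congr rfl fun R' hR' => ?_
      refine Finset.sum_congr ?_ fun _ _ => rfl
      ext v
      simp only [Finset.mem_filter]
      constructor
      · rintro ⟨⟨h5, -⟩, h6⟩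
        exact ⟨h5, h6⟩
      · rintro ⟨h5, h6⟩
        exact ⟨⟨h5, by rw [h6]; exact Finset.mem_powerset.1 hR'⟩, h6⟩
    rw [h3, ← Finset.add_sum_erase _ _ (Finset.mem_powerset_self R)] at h2
    have h5 : ∑ R' ∈ R.powerset.erase R, C.val r a (c.filter (fun v => v.toFinset = R')) ∈ V := by
      refine AddSubgroup.sum_mem _ fun R' hR' => ?_
      rw [Finset.mem_erase, Finset.mem_powerset] at hR'
      exact ih R' (lt_of_le_of_ne hR'.2 hR'.1) r hr
    exact (AddSubgroup.add_mem_cancel_right V h5).1 h2

theorem mob_sum (a : Fin (C.s + 1)) (c : List ι →₀ ℤ) (r : ι → U) :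
    C.val r a c = ∑ R : Finset ι, C.val r a (c.filter (fun v => v.toFinset = R)) := by
  simp_rw [mob_filter]
  rw [val, Finsupp.sum]
  exact (Finset.sum_fiberwise _ _ _).symm

end Ctx

end ADN
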