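import Pool.Agent.ADN.Defs

/-!
# ADN-ToCtx

The context structure of a finite ring with a decomposition `FinDec`, in its unitization.
-/

namespace ADN

open AD

private theorem tc_left {R : Type} [NonUnitalRing R] (u : Unitization ℤ R) (y : R) :
    u * (y : Unitization ℤ R) = Unitization.inr (u.fst • y + u.snd * y) := by
  refine Unitization.ext ?_ ?_
  · rw [Unitization.fst_mul, Unitization.fst_inr, Unitization.fst_inr, mul_zero]
  · rw [Unitization.snd_mul, Unitization.snd_inr, Unitization.snd_inr, Unitization.fst_inr, zero_smul, add_zero]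

private theorem tc_right {R : Type} [NonUnitalRing R] (u : Unitization ℤ R) (y : R) :
    (y : Unitization ℤ R) * u = Unitization.inr (u.fst • y + y * u.snd) := by
  refine Unitization.ext ?_ ?_
  · rw [Unitization.fst_mul, Unitization.fst_inr, Unitization.fst_inr, zero_mul]
  · rw [Unitization.snd_mul, Unitization.snd_inr, Unitization.snd_inr, Unitization.fst_inr, zero_smul, zero_add]

/-- the copy of a subgroup of `R` in the unitization -/
private def tcS {R : Type} [NonUnitalRing R] (J : AddSubgroup R) : AddSubgroup (Unitization ℤ R) where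
  carrier := {x | ∃ y ∈ J, x = (y : Unitization ℤ R)}
  add_mem' := by
    rintro _ _ ⟨y, hy, rfl⟩ ⟨z, hz, rfl⟩
    exact ⟨y + z, J.add_mem hy hz, by rw [Unitization.inr_add]⟩
  zero_mem' := ⟨0, J.zero_mem, by rw [Unitization.inr_zero]⟩
  neg_mem' := by
    rintro _ ⟨y, hy, rfl⟩
    exact ⟨-y, J.neg_mem hy, by rw [Unitization.inr_neg]⟩

private theorem mem_tcS {R : Type} [NonUnitalRing R] {J : AddSubgroup R} {x : Unitization ℤ R} :
    x ∈ tcS J ↔ ∃ y ∈ J, x = (y : Unitization ℤ R) := Iff.rfl

private theorem tc_list {R : Type} [NonUnitalRing R] {J : AddSubgroup R} (l : List (Unitization ℤ R))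
    (h : ∀ x ∈ l, x ∈ tcS J) :
    ∃ l' : List R, l = l'.map (fun x : R => (x : Unitization ℤ R)) ∧ ∀ x ∈ l', x ∈ J := by
  induction l with
  | nil => exact ⟨[], rfl, by simp⟩
  | cons a l ih =>
    obtain ⟨l', h1, h2⟩ := ih (fun x hx => h x (by simp [hx]))
    obtain ⟨y, hy, hay⟩ := h a (by simp)
    refine ⟨y :: l', by rw [List.map_cons, h1, hay], ?_⟩
    intro x hx
    rcases List.mem_cons.1 hx with rfl | hx
    · exact hy
    · exact h2 x hx

private theorem tc_sum {R : Type} [NonUnitalRing R] {s : ℕ} (f : Fin s → R) :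
    ∑ i, ((f i : R) : Unitization ℤ R) = ((∑ i, f i : R) : Unitization ℤ R) := by
  induction s with
  | zero => simp
  | succ s ih => rw [Fin.sum_univ_succ, Fin.sum_univ_succ, ih, Unitization.inr_add]

theorem toCtx (p K : ℕ) (hp : p.Prime) (R : Type) [NonUnitalRing R]
    (hR : ∀ x : R, (p ^ K) • x = 0) (h : FinDec p R) :
    ∃ C : Ctx (Unitization ℤ R), C.p = p ∧ ∀ x, x ∈ C.A ↔ ∃ y : R, x = (y : Unitization ℤ R) := by
  obtain ⟨s, N, e, J, he, ho, hl, hr, hd, hpJ, hn⟩ := h
  set S : Unitization ℤ R := ∑ i, ((e i : R) : Unitization ℤ R) with hS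
  have hi : ∀ i, ((e i : R) : Unitization ℤ R) * (e i : R) = (e i : R) := fun i => by
    rw [← Unitization.inr_mul, he]
  have hij : ∀ i j, i ≠ j → ((e i : R) : Unitization ℤ R) * (e j : R) = 0 := fun i j hij => by
    rw [← Unitization.inr_mul, ho i j hij, Unitization.inr_zero]
  have hSe : ∀ j, S * (e j : R) = (e j : R) := fun j => by
    rw [hS, Finset.sum_mul, Finset.sum_eq_single j (fun i _ hne => hij i j hne) (by simp)]
    exact hi j
  have heS : ∀ j, ((e j : R) : Unitization ℤ R) * S = (e j : R) := fun j => by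
    rw [hS, Finset.mul_sum, Finset.sum_eq_single j (fun i _ hne => hij j i hne.symm) (by simp)]
    exact hi j
  have hSS : S * S = S := by
    conv_lhs => rw [hS]
    rw [Finset.sum_mul, Finset.sum_congr rfl fun j _ => heS j]
  let E : Fin (s + 1) → Unitization ℤ R := Fin.cons (1 - S) (fun i => ((e i : R) : Unitization ℤ R))
  have hE0 : E 0 = 1 - S := rfl
  have hEs : ∀ i : Fin s, E i.succ = (e i : R) := fun i => rfl
  refine ⟨{ s := s, p := p, K := K, N := N, e := E, A := tcS ⊤, J := tcS J, hp := hp,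
            coi := ?_, A_left := ?_, A_right := ?_, J_left := ?_, J_right := ?_, J_le := ?_,
            e_mem := ?_, dec := ?_, pJ := ?_, tors := ?_, nil := ?_ }, rfl, ?_⟩
  · refine ⟨⟨fun i => ?_, fun i j hne => ?_⟩, ?_⟩
    · show E i * E i = E i
      refine Fin.cases ?_ (fun i => ?_) i
      · rw [hE0, mul_sub, sub_mul, sub_mul, hSS, one_mul, one_mul, mul_one]
        abel
      · rw [hEs]
        exact hi i
    · show E i * E j = 0
      induction i using Fin.cases with
      | zero =>
        induction j using Fin.cases with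
        | zero => exact absurd rfl hne
        | succ j => rw [hE0, hEs, sub_mul, one_mul, hSe, sub_self]
      | succ i =>
        induction j using Fin.cases with
        | zero => rw [hE0, hEs, mul_sub, mul_one, heS, sub_self]
        | succ j =>
          rw [hEs, hEs]
          exact hij i j (fun h => hne (by rw [h]))
    · rw [Fin.sum_univ_succ, hE0]
      simp only [hEs]
      rw [← hS]
      abel
  · rintro u _ ⟨y, _, rfl⟩
    exact ⟨_, AddSubgroup.mem_top _, tc_left u y⟩
  · rintro u _ ⟨y, _, rfl⟩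
    exact ⟨_, AddSubgroup.mem_top _, tc_right u y⟩
  · rintro u _ ⟨y, hy, rfl⟩
    exact ⟨_, J.add_mem (J.zsmul_mem hy _) (hl _ _ hy), tc_left u y⟩
  · rintro u _ ⟨y, hy, rfl⟩
    exact ⟨_, J.add_mem (J.zsmul_mem hy _) (hr _ _ hy), tc_right u y⟩
  · rintro _ ⟨y, _, rfl⟩
    exact ⟨y, AddSubgroup.mem_top _, rfl⟩
  · intro i hi0
    induction i using Fin.cases with
    | zero => exact absurd rfl hi0
    | succ i => exact ⟨e i, AddSubgroup.mem_top _, rfl⟩
  · rintro _ ⟨x, _, rfl⟩
    obtain ⟨c, hc⟩ := hd x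
    refine ⟨Fin.cons 0 c, rfl, x - ∑ i, c i • e i, hc, ?_⟩
    rw [Fin.sum_univ_succ]
    simp only [hEs, Fin.cons_zero, Fin.cons_succ, zero_smul, zero_add]
    simp only [← Unitization.inr_smul]
    rw [tc_sum, ← Unitization.inr_sub]
  · rintro _ ⟨x, _, rfl⟩
    exact ⟨_, hpJ x, by rw [Unitization.inr_smul]⟩
  · rintro _ ⟨x, _, rfl⟩
    rw [← Unitization.inr_smul]
    have : ((p : ℤ) ^ K) • x = 0 := by
      have h1 := hR x
      rw [← natCast_zsmul] at h1
      rw [← h1]
      push_cast
      rfl
    rw [this, Unitization.inr_zero]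
  · intro l hlen hmem
    obtain ⟨l', rfl, h2⟩ := tc_list l hmem
    have h3 := hn l' (by simpa using hlen) h2
    have h4 : ∀ m : List R, List.flatMap (fun a : R => [(a : Unitization ℤ R)]) m =
        m.map (fun x : R => (x : Unitization ℤ R)) := by
      intro m
      induction m with
      | nil => rfl
      | cons a m ih => rw [List.flatMap_cons, ih]; rfl
    have h5 : (List.flatMap (fun a : R => [(a : Unitization ℤ R)]) l').prod = 0 := by simpa using h3
    rwa [h4] at h5
  · intro x
    constructor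
    · rintro ⟨y, _, rfl⟩
      exact ⟨y, rfl⟩
    · rintro ⟨y, rfl⟩
      exact ⟨y, AddSubgroup.mem_top _, rfl⟩

end ADN
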