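import Pool.Agent.ADN.Tat
import Pool.Agent.ADN.Exp
import Pool.Agent.ADN.Mob
import Pool.Agent.ADN.FinDec
import Pool.Agent.ADN.ToCtx
import Pool.Agent.ADN.Rel
import Pool.Agent.ADN.CubDst
import Pool.Agent.ADN.NilHull
import Pool.Agent.ADN.NilOr
import Pool.Agent.ADN.Bridge

namespace ADN

open AD

/-- the core: in the context of `Ctx`, an `f` in the first T-ideal vanishes -/
theorem core {U : Type} [Ring U] (C : Ctx U) (hC : C.Cub) {T : Submodule ℤ P} (hT : C.Dst T)
    {V : Fin 3 → AddSubgroup U} (hV : C.Vals V) (f f' : P) (hf : f ∈ Pp) (hf' : f' ∈ Pp)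
    (h : ∀ y : ℕ → U, (∀ i, y i ∈ C.A) →
      Ctx.In3 V (FreeAlgebra.lift ℤ y f) (FreeAlgebra.lift ℤ y f'))
    (n : ℕ) (x : ℕ → U) (hx : ∀ i, x i ∈ C.A) (hxn : ∀ i, n ≤ i → x i = 0) :
    FreeAlgebra.lift ℤ x f = 0 := by
  classical
  choose d₀ hd₀ hd₁ using fun v => C.dec (x v) (hx v)
  let d : ℕ → Fin (C.s + 1) → ℤ := fun v => if v < n then d₀ v else 0
  have hd : ∀ v, d v 0 = 0 := by
    intro v
    simp only [d]
    split_ifs
    · exact hd₀ v
    · rfl
  let ι := Fin n × Fin (C.s + 1) × Fin (C.s + 1)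
  let ν : ι → ℕ := fun k => (k.1 : ℕ)
  let src : ι → Fin (C.s + 1) := fun k => k.2.1
  let tgt : ι → Fin (C.s + 1) := fun k => k.2.2
  let w : ℕ → U := fun v => x v - ∑ i, d v i • C.e i
  have hw : ∀ v, v < n → w v ∈ C.J := by
    intro v hv
    have : d v = d₀ v := by simp only [d, if_pos hv]
    show x v - ∑ i, d v i • C.e i ∈ C.J
    rw [this]
    exact hd₁ v
  let r : ι → U := fun k => C.e (src k) * w (ν k) * C.e (tgt k)
  have hr : C.Srt src tgt r := fun k => C.S_corner _ _ (hw _ k.1.2)
  have hsum : ∀ v, (∑ i, d v i • C.e i) + ∑ k with ν k = v, r k = x v := by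
    intro v
    by_cases hv : v < n
    · have h1 : ∑ k with ν k = v, r k = w v := by
        have h2 : ∑ k with ν k = v, r k = ∑ q : Fin (C.s + 1) × Fin (C.s + 1),
            C.e q.1 * w v * C.e q.2 := by
          symm
          apply Finset.sum_nbij (fun q => ((⟨v, hv⟩ : Fin n), q))
          · intro q _
            simp [ν]
          · intro q _ q' _ hq
            simpa using hq
          · rintro ⟨k, q⟩ hk
            simp only [ν, Finset.coe_filter, Finset.mem_univ, true_and, Set.mem_setOf_eq] at hk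
            refine ⟨q, Finset.mem_coe.2 (Finset.mem_univ _), ?_⟩
            simp only [Prod.mk.injEq, and_true]
            exact Fin.ext hk.symm
          · intro q _
            rfl
        rw [h2, Fintype.sum_prod_type]
        have h3 : ∀ i, ∑ j, C.e i * w v * C.e j = C.e i * w v := by
          intro i
          rw [← Finset.mul_sum, C.coi.complete, mul_one]
        simp only [h3]
        rw [← Finset.sum_mul, C.coi.complete, one_mul]
      rw [h1]
      show (∑ i, d v i • C.e i) + (x v - ∑ i, d v i • C.e i) = x v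
      abel
    · have h1 : ∑ k with ν k = v, r k = 0 := by
        apply Finset.sum_eq_zero
        intro k hk
        simp only [ν, Finset.mem_filter, Finset.mem_univ, true_and] at hk
        exact absurd k.1.2 (by omega)
      have h2 : d v = 0 := by simp only [d, if_neg hv]
      rw [h1, h2, hxn v (by omega)]
      simp
  have hA : ∀ r' : ι → U, C.Srt src tgt r' → ∀ v,
      (∑ i, d v i • C.e i) + ∑ k with ν k = v, r' k ∈ C.A := by
    intro r' hr' v
    apply C.A.add_mem
    · apply C.A.sum_mem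
      intro i _
      by_cases hi : i = 0
      · subst hi
        rw [hd v, zero_smul]
        exact C.A.zero_mem
      · exact C.A.zsmul_mem (C.e_mem i hi) _
    · exact C.A.sum_mem fun k _ => C.S_mem (hr' k)
  -- the corners
  have corner : ∀ a b, C.e a * FreeAlgebra.lift ℤ x f * C.e b = 0 := by
    intro a b
    obtain ⟨c, hc1, hc2, hc3⟩ := C.exp ν src tgt d hd f a b
    obtain ⟨c', hc1', hc2', hc3'⟩ := C.exp ν src tgt d hd f' a b
    have hxx : (fun v => (∑ i, d v i • C.e i) + ∑ k with ν k = v, r k) = x := funext hsum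
    have hval := hc3 r hr
    rw [hxx] at hval
    rw [hval, C.mob_sum a c r]
    apply Finset.sum_eq_zero
    intro R _
    have key : ∀ r', C.Srt src tgt r' → Ctx.In3 V (C.val r' a c) (C.val r' a c') := by
      intro r' hr'
      rw [← hc3 r' hr', ← hc3' r' hr']
      obtain ⟨h1, h2, h3⟩ := h _ (hA r' hr')
      refine ⟨hV.right _ _ _ (hV.left _ _ _ h1), hV.right _ _ _ (hV.left _ _ _ h2), ?_⟩
      rw [← add_mul, ← mul_add]
      exact hV.right _ _ _ (hV.left _ _ _ h3)
    refine C.tat hC hT hV src tgt a b R (c.filter fun v => v.toFinset = R)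
      (c'.filter fun v => v.toFinset = R) ?_ ?_ ?_ ?_ r hr
    · intro v hv
      rw [Finsupp.support_filter, Finset.mem_filter] at hv
      exact ⟨hc1 v hv.1, hv.2⟩
    · intro v hv
      rw [Finsupp.support_filter, Finset.mem_filter] at hv
      exact ⟨hc1' v hv.1, hv.2⟩
    · intro ha
      constructor
      · rw [Finsupp.filter_apply]
        split_ifs
        · exact hc2 hf ha
        · rfl
      · rw [Finsupp.filter_apply]
        split_ifs
        · exact hc2' hf' ha
        · rfl
    · intro r' hr'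
      refine ⟨C.mob src tgt a (V 0) c (fun r'' h'' => (key r'' h'').1) R r' hr',
        C.mob src tgt a (V 1) c' (fun r'' h'' => (key r'' h'').2.1) R r' hr', ?_⟩
      rw [← C.val_add, ← Finsupp.filter_add]
      refine C.mob src tgt a (V 2) (c + c') (fun r'' h'' => ?_) R r' hr'
      rw [C.val_add]
      exact (key r'' h'').2.2
  have h1 : FreeAlgebra.lift ℤ x f = ∑ a, ∑ b, C.e a * FreeAlgebra.lift ℤ x f * C.e b := by
    have h3 : ∀ i, ∑ j, C.e i * FreeAlgebra.lift ℤ x f * C.e j = C.e i * FreeAlgebra.lift ℤ x f := by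
      intro i
      rw [← Finset.mul_sum, C.coi.complete, mul_one]
    simp only [h3]
    rw [← Finset.sum_mul, C.coi.complete, one_mul]
  rw [h1]
  exact Finset.sum_eq_zero fun a _ => Finset.sum_eq_zero fun b _ => corner a b

/-- an almost distributive T-ideal is nilpotent if all fields in the variety have prime order -/
theorem nilpotent {I : Submodule ℤ P} (hI : AlmDist I)
    (hF : ∀ (L : Type) [Field L] [Finite L], (∀ f ∈ I, Sat L f) → (Nat.card L).Prime) :
    ∃ n, NilAt I n := by
  obtain ⟨T, hT⟩ := exists_nilHull hI.1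
  rcases nil_or hI hT with h | hlt
  · exact h
  exfalso
  obtain ⟨a, b, c, j, hd⟩ := hI.expo_dia
  obtain ⟨f, hfa, hfI⟩ := Set.exists_of_ssubset hd.oa
  have haT : IsT a := hd.ha
  have hbT : IsT b := hd.hb
  have hf : f ∈ Pp := haT.le hfa
  obtain ⟨n, hn⟩ := exists_mem_Pn hf
  have hj : f ∈ b ⊔ c := by
    rw [hd.jbc, ← hd.jab]
    exact Submodule.mem_sup_left hfa
  obtain ⟨fb, hfb, fc, hfc, hbc⟩ := Submodule.mem_sup.1 hj
  obtain ⟨p, K, R, iR, V, hp, hfin, htor, hsat, hVl, hVr, hVle, hVd, hval, hne⟩ := rel hI hd n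
  have hdec : FinDec p R := finDec p K hp R htor (fun L _ _ hL => hF L fun g hg =>
    hL g (hI.1.le hg) (hsat g hg))
  obtain ⟨C, hCp, hCA⟩ := toCtx p K hp R htor hdec
  obtain ⟨hC, hDst⟩ := cubDst hI hT hlt R hsat C hCA
  have hV : C.Vals V := ⟨hVl, hVr, fun i x hx => (hCA x).2 (hVle i x hx), hVd⟩
  obtain ⟨y, hy0, hyne⟩ := hne f hn hfI
  apply hyne
  rw [← ev_eq_lift]
  refine core C hC hDst hV f (-fb) hf (neg_mem (hbT.le hfb)) ?_ n
    (fun i => ((y i : R) : Unitization ℤ R)) (fun i => (hCA _).2 ⟨y i, rfl⟩)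
    (fun i hi => by rw [hy0 i hi]; simp)
  intro z hz
  choose y' hy' using fun i => (hCA (z i)).1 (hz i)
  have hz' : z = fun i => ((y' i : R) : Unitization ℤ R) := funext hy'
  obtain ⟨h1, h2, h3⟩ := hval y'
  rw [hz']
  have h1' := h1 f hfa
  have h2' := h2 _ (neg_mem hfb)
  have h3' := h3 fc hfc
  rw [← ev_eq_lift] at h1' h2' h3'
  refine ⟨h1', h2', ?_⟩
  rw [← map_add]
  have : f + -fb = fc := by rw [← hbc]; abel
  rw [this]
  exact h3'

end ADN
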