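import Pool.Agent.ADN.Defs
import Pool.Agent.ADN.Kt

/-!
# ADN-Ty1

All letters of `R` are loops at `a`.
-/

namespace ADN

open AD

namespace Ctx

variable {U : Type} [Ring U] (C : Ctx U)

variable {ι : Type} [Fintype ι] [DecidableEq ι]

private theorem ty1_mon (w : List ℕ) (hw : w ≠ []) : mon w ∈ Pp := by
  cases w with
  | nil => exact absurd rfl hw
  | cons a w =>
    change aug (mon (a :: w)) = 0
    have h : aug (X a) = 0 := by simp [aug, X]
    simp only [mon, List.map_cons, List.prod_cons, map_mul, h, zero_mul]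

private theorem ty1_lift (ρ : ℕ → U) (w : List ℕ) :
    FreeAlgebra.lift ℤ ρ (mon w) = (w.map ρ).prod := by
  rw [mon, map_list_prod, List.map_map]
  congr 1
  refine List.map_congr_left fun n _ => ?_
  simp [X]

omit [Fintype ι] in
private theorem ty1_val {src tgt : ι → Fin (C.s + 1)} {a : Fin (C.s + 1)} {R : Finset ι}
    {c : List ι →₀ ℤ} (hc : ∀ v ∈ c.support, pth src tgt a v a ∧ v.toFinset = R)
    (enc : ι → ℕ) {r : ι → U} (hr : C.Srt src tgt r) {ρ : ℕ → U}
    (hρ : ∀ k ∈ R, ρ (enc k) = r k) :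
    C.val r a c =
      FreeAlgebra.lift ℤ ρ (c.sum fun v n => n • mon (v.map enc)) * C.e a := by
  unfold val Finsupp.sum
  rw [map_sum, Finset.sum_mul]
  refine Finset.sum_congr rfl fun v hv => ?_
  obtain ⟨hp, hvR⟩ := hc v hv
  rw [map_zsmul, ty1_lift, smul_mul_assoc]
  have h1 : (v.map enc).map ρ = v.map r := by
    rw [List.map_map]
    refine List.map_congr_left fun k hk => ?_
    exact hρ k (hvR ▸ List.mem_toFinset.2 hk)
  have h3 : C.e a * (v.map r).prod = (v.map r).prod * C.e a := by
    by_cases hv0 : v = []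
    · rw [hv0]
      simp
    · have h2 := C.S_path hr v a a hv0 hp
      rw [h2.2.1, h2.2.2]
  rw [h1, ← h3]
  rfl

theorem ty1 (hC : C.Cub) {T : Submodule ℤ P} (hT : C.Dst T) {V : Fin 3 → AddSubgroup U}
    (hV : C.Vals V) (src tgt : ι → Fin (C.s + 1)) (a : Fin (C.s + 1)) (R : Finset ι)
    (c c' : List ι →₀ ℤ) (hc : ∀ v ∈ c.support, pth src tgt a v a ∧ v.toFinset = R)
    (hc' : ∀ v ∈ c'.support, pth src tgt a v a ∧ v.toFinset = R)
    (h0 : a = 0 → c [] = 0 ∧ c' [] = 0)
    (h : ∀ r, C.Srt src tgt r → In3 V (C.val r a c) (C.val r a c'))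
    (hR : ∀ k ∈ R, src k = a ∧ tgt k = a) :
    ∀ r, C.Srt src tgt r → C.val r a c = 0 := by
  classical
  obtain ⟨enc, henc⟩ : ∃ enc : ι → ℕ, Function.Injective enc :=
    ⟨fun k => (Fintype.equivFin ι k : ℕ), fun x y hxy =>
      (Fintype.equivFin ι).injective (Fin.ext hxy)⟩
  have hPp : ∀ d : List ι →₀ ℤ, d [] = 0 → (d.sum fun v n => n • mon (v.map enc)) ∈ Pp := by
    intro d hd
    unfold Finsupp.sum
    refine Submodule.sum_mem _ fun v hv => Submodule.smul_mem _ _ (ty1_mon _ ?_)
    intro h1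
    rw [List.map_eq_nil_iff] at h1
    rw [Finsupp.mem_support_iff, h1] at hv
    exact hv hd
  have key := C.kt hT hV a {m | m = C.e a ∨ C.S a a m} ?_
    (c.sum fun v n => n • mon (v.map enc)) (c'.sum fun v n => n • mon (v.map enc)) ?_ ?_
  · intro r hr
    set ρ : ℕ → U := Function.extend enc (fun k => if k ∈ R then r k else 0) 0 with hρ
    have h1 : ∀ k ∈ R, ρ (enc k) = r k := by
      intro k hk
      rw [hρ, henc.extend_apply, if_pos hk]
    have h2 : ∀ i, C.S a a (ρ i) := by
      intro i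
      by_cases hi : ∃ k, enc k = i
      · obtain ⟨k, rfl⟩ := hi
        rw [hρ, henc.extend_apply]
        split_ifs with hk
        · have h3 := hr k
          rw [(hR k hk).1, (hR k hk).2] at h3
          exact h3
        · exact C.S_zero a a
      · rw [hρ, Function.extend_apply' _ _ _ hi]
        exact C.S_zero a a
    rw [C.ty1_val hc enc hr h1]
    exact key ρ h2 (C.e a) (Or.inl rfl)
  · rintro r m hr (rfl | hm)
    · right
      rw [hr.2.2]
      exact hr
    · exact Or.inr (C.S_mul hr hm)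
  · by_cases ha : a = 0
    · exact Or.inr ⟨hPp c (h0 ha).1, hPp c' (h0 ha).2⟩
    · left
      rintro m (rfl | hm)
      · exact C.e_mem a ha
      · exact C.S_mem hm
  · intro ρ hρ
    have hr : C.Srt src tgt (fun k => if k ∈ R then ρ (enc k) else 0) := by
      intro k
      show C.S (src k) (tgt k) (if k ∈ R then ρ (enc k) else 0)
      split_ifs with hk
      · rw [(hR k hk).1, (hR k hk).2]
        exact hρ _
      · exact C.S_zero _ _
    have h1 := C.ty1_val hc enc hr (ρ := ρ) fun k hk => (if_pos hk).symm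
    have h2 := C.ty1_val hc' enc hr (ρ := ρ) fun k hk => (if_pos hk).symm
    have h3 := h _ hr
    rw [h1, h2] at h3
    rintro m (rfl | hm)
    · exact h3
    · obtain ⟨i1, i2, i3⟩ := h3
      have e1 : ∀ x : U, x * m = x * C.e a * m := fun x => by rw [mul_assoc, hm.2.1]
      refine ⟨?_, ?_, ?_⟩
      · rw [e1]
        exact hV.right 0 m _ i1
      · rw [e1]
        exact hV.right 1 m _ i2
      · rw [← add_mul, e1, add_mul]
        exact hV.right 2 m _ i3

end Ctx

end ADN
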