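import Pool.Agent.ADN.Defs
import Pool.Agent.ADN.Kt

/-!
# ADN-Ty2

`R` = loops at `a` and one letter `k₀ : a → b`, `b ≠ a`: the words are `v' ++ [k₀]` with a word `v'` of loops, so the value is
`lift ρ g * r k₀`; the transfer lemma `kt` applies.
-/

namespace ADN

open AD

namespace Ctx

variable {U : Type} [Ring U] (C : Ctx U)

variable {ι : Type} [Fintype ι] [DecidableEq ι]

private theorem ty2_lift (ρ : ℕ → U) (w : List ℕ) : FreeAlgebra.lift ℤ ρ (mon w) = (w.map ρ).prod := by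
  unfold mon
  rw [map_list_prod, List.map_map]
  congr 1
  refine List.map_congr_left fun i _ => ?_
  exact FreeAlgebra.lift_ι_apply ρ i

omit [Fintype ι] [DecidableEq ι] in
private theorem ty2_loops {src tgt : ι → Fin (C.s + 1)} {a : Fin (C.s + 1)} {R : Finset ι}
    {k : ι} (hR : ∀ i ∈ R, i ≠ k → src i = a ∧ tgt i = a) :
    ∀ (w : List ι) (b : Fin (C.s + 1)), pth src tgt a w b → (∀ i ∈ w, i ∈ R) → k ∉ w →
      b = a ∧ ∀ i ∈ w, i ≠ k := by
  intro w
  induction w with
  | nil =>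
    intro b hp _ _
    exact ⟨Eq.symm hp, fun i hi => absurd hi (List.not_mem_nil)⟩
  | cons i w ih =>
    intro b hp hw hk
    obtain ⟨h1, h2⟩ := hp
    have hik : i ≠ k := by
      rintro rfl
      exact hk List.mem_cons_self
    have h3 := (hR i (hw i List.mem_cons_self) hik).2
    rw [h3] at h2
    obtain ⟨h4, h5⟩ := ih b h2 (fun j hj => hw j (List.mem_cons_of_mem _ hj))
      (fun h => hk (List.mem_cons_of_mem _ h))
    refine ⟨h4, fun j hj => ?_⟩
    rcases List.mem_cons.1 hj with rfl | hj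
    · exact hik
    · exact h5 j hj

omit [Fintype ι] in
private theorem ty2_word (src tgt : ι → Fin (C.s + 1)) (a b : Fin (C.s + 1)) (hab : a ≠ b)
    (R : Finset ι) (enc : ι → ℕ)
    (k₀ : ι) (hk : k₀ ∈ R) (hk1 : src k₀ = a) (hk2 : tgt k₀ = b)
    (hR : ∀ i ∈ R, i ≠ k₀ → src i = a ∧ tgt i = a) (v : List ι)
    (hv : pth src tgt a v b ∧ v.toFinset = R) (r : ι → U) (hr : C.Srt src tgt r) (ρ : ℕ → U)
    (hρr : ∀ i ∈ R, i ≠ k₀ → ρ (enc i) = r i) :
    C.wv r a v = FreeAlgebra.lift ℤ ρ (mon (v.dropLast.map enc)) * r k₀ := by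
  obtain ⟨hp, hvR⟩ := hv
  have hw : ∀ i ∈ v, i ∈ R := fun i hi => by rw [← hvR]; exact List.mem_toFinset.2 hi
  have hkv : k₀ ∈ v := by rw [← hvR] at hk; exact List.mem_toFinset.1 hk
  have hvne : v ≠ [] := List.ne_nil_of_mem hkv
  rw [C.wv_eq hr hvne hp, ty2_lift]
  obtain ⟨v₁, w', rfl, hk'⟩ := List.eq_append_cons_of_mem hkv
  obtain ⟨d, h1, h2⟩ := (pth_append _ _ _ _).1 hp
  obtain ⟨hd, h3⟩ := ty2_loops C hR v₁ d h1 (fun i hi => hw i (List.mem_append_left _ hi)) hk'
  obtain ⟨-, h5⟩ := h2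
  rw [hk2] at h5
  have hw' : w' = [] := by
    cases w' with
    | nil => rfl
    | cons j v₂ =>
      exfalso
      obtain ⟨h6, -⟩ := h5
      by_cases hj : j = k₀
      · subst hj
        exact hab (hk1.symm.trans h6)
      · exact hab ((hR j (hw j (by simp)) hj).1.symm.trans h6)
  subst hw'
  rw [List.dropLast_concat, List.map_append, List.prod_append, List.map_map]
  have e1 : v₁.map (ρ ∘ enc) = v₁.map r := by
    refine List.map_congr_left fun i hi => ?_
    exact hρr i (hw i (by simp [hi])) (h3 i hi)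
  rw [e1]
  simp

theorem ty2 (hC : C.Cub) {T : Submodule ℤ P} (hT : C.Dst T) {V : Fin 3 → AddSubgroup U}
    (hV : C.Vals V) (src tgt : ι → Fin (C.s + 1)) (a b : Fin (C.s + 1)) (hab : a ≠ b)
    (R : Finset ι) (c c' : List ι →₀ ℤ)
    (hc : ∀ v ∈ c.support, pth src tgt a v b ∧ v.toFinset = R)
    (hc' : ∀ v ∈ c'.support, pth src tgt a v b ∧ v.toFinset = R)
    (h : ∀ r, C.Srt src tgt r → In3 V (C.val r a c) (C.val r a c'))
    (k₀ : ι) (hk : k₀ ∈ R) (hk1 : src k₀ = a) (hk2 : tgt k₀ = b)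
    (hR : ∀ k ∈ R, k ≠ k₀ → src k = a ∧ tgt k = a) :
    ∀ r, C.Srt src tgt r → C.val r a c = 0 := by
  classical
  have _ := hC
  let enc : ι → ℕ := fun i => (Fintype.equivFin ι i : ℕ)
  have henc : Function.Injective enc := fun i j hij => (Fintype.equivFin ι).injective (Fin.ext hij)
  have hval : ∀ c : List ι →₀ ℤ, (∀ v ∈ c.support, pth src tgt a v b ∧ v.toFinset = R) →
      ∀ r : ι → U, C.Srt src tgt r → ∀ ρ : ℕ → U, (∀ i ∈ R, i ≠ k₀ → ρ (enc i) = r i) →
      C.val r a c = FreeAlgebra.lift ℤ ρ (∑ v ∈ c.support, c v • mon (v.dropLast.map enc)) * r k₀ := by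
    intro c hc r hr ρ hρr
    show ∑ v ∈ c.support, c v • C.wv r a v = _
    rw [map_sum, Finset.sum_mul]
    refine Finset.sum_congr rfl fun v hv => ?_
    rw [ty2_word C src tgt a b hab R enc k₀ hk hk1 hk2 hR v (hc v hv) r hr ρ hρr, map_zsmul,
      smul_mul_assoc]
  have hkt := C.kt hT hV a {m | C.S a b m}
    (fun r m hr hm => C.S_mul hr hm)
    (∑ v ∈ c.support, c v • mon (v.dropLast.map enc))
    (∑ v ∈ c'.support, c' v • mon (v.dropLast.map enc))
    (Or.inl (fun m hm => C.S_mem hm))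
    (by
      intro ρ hρ t ht
      let r : ι → U := fun i => if i ∈ R then (if i = k₀ then t else ρ (enc i)) else 0
      have hrk : r k₀ = t := by simp [r, hk]
      have hr : C.Srt src tgt r := by
        intro i
        simp only [r]
        split_ifs with i1 i2
        · subst i2; rw [hk1, hk2]; exact ht
        · obtain ⟨j1, j2⟩ := hR i i1 i2
          rw [j1, j2]; exact hρ _
        · exact C.S_zero _ _
      have hρr : ∀ i ∈ R, i ≠ k₀ → ρ (enc i) = r i := by
        intro i i1 i2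
        simp only [r]
        rw [if_pos i1, if_neg i2]
      have e := h r hr
      rw [hval c hc r hr ρ hρr, hval c' hc' r hr ρ hρr, hrk] at e
      exact e)
  intro r hr
  let ρ : ℕ → U := fun n => if hn : ∃ i, i ∈ R ∧ i ≠ k₀ ∧ enc i = n then r hn.choose else 0
  have hρ : ∀ n, C.S a a (ρ n) := by
    intro n
    simp only [ρ]
    split_ifs with hn
    · obtain ⟨j1, j2, -⟩ := hn.choose_spec
      obtain ⟨j4, j5⟩ := hR _ j1 j2
      have := hr hn.choose
      rwa [j4, j5] at this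
    · exact C.S_zero _ _
  have hρr : ∀ i ∈ R, i ≠ k₀ → ρ (enc i) = r i := by
    intro i i1 i2
    have hn : ∃ j, j ∈ R ∧ j ≠ k₀ ∧ enc j = enc i := ⟨i, i1, i2, rfl⟩
    simp only [ρ]
    rw [dif_pos hn]
    congr 1
    exact henc hn.choose_spec.2.2
  rw [hval c hc r hr ρ hρr]
  refine hkt ρ hρ _ ?_
  have := hr k₀
  rwa [hk1, hk2] at this

end Ctx

end ADN
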