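import Pool.Agent.ADN.Defs
import Pool.Agent.ADN.KtR

/-!
# ADN-Ty3

`R` = one letter `k₀ : a → b`, `b ≠ a`, and loops at `b`: the words are `k₀ :: v'` with a word `v'` of loops, so the value is
`r k₀ * lift ρ g`; the transfer lemma `ktR` applies.
-/

namespace ADN

open AD

namespace Ctx

variable {U : Type} [Ring U] (C : Ctx U)

variable {ι : Type} [Fintype ι] [DecidableEq ι]

private theorem ty3_lift (ρ : ℕ → U) (w : List ℕ) : FreeAlgebra.lift ℤ ρ (mon w) = (w.map ρ).prod := by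
  unfold mon
  rw [map_list_prod, List.map_map]
  congr 1
  refine List.map_congr_left fun i _ => ?_
  exact FreeAlgebra.lift_ι_apply ρ i

omit [Fintype ι] [DecidableEq ι] in
private theorem ty3_loops {src tgt : ι → Fin (C.s + 1)} {a b : Fin (C.s + 1)} (hab : a ≠ b) {R : Finset ι}
    {k : ι} (hk1 : src k = a) (hR : ∀ i ∈ R, i ≠ k → src i = b ∧ tgt i = b) :
    ∀ (w : List ι) (d : Fin (C.s + 1)), pth src tgt b w d → (∀ i ∈ w, i ∈ R) →
      ∀ i ∈ w, i ≠ k := by
  intro w
  induction w with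
  | nil =>
    intro d _ _ i hi
    exact absurd hi (List.not_mem_nil)
  | cons i w ih =>
    intro d hp hw
    obtain ⟨h1, h2⟩ := hp
    have hik : i ≠ k := by
      rintro rfl
      exact hab (hk1.symm.trans h1)
    have h3 := (hR i (hw i List.mem_cons_self) hik).2
    rw [h3] at h2
    have h5 := ih d h2 (fun j hj => hw j (List.mem_cons_of_mem _ hj))
    intro j hj
    rcases List.mem_cons.1 hj with rfl | hj
    · exact hik
    · exact h5 j hj

omit [Fintype ι] in
private theorem ty3_word (src tgt : ι → Fin (C.s + 1)) (a b : Fin (C.s + 1)) (hab : a ≠ b)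
    (R : Finset ι) (enc : ι → ℕ)
    (k₀ : ι) (hk : k₀ ∈ R) (hk1 : src k₀ = a) (hk2 : tgt k₀ = b)
    (hR : ∀ i ∈ R, i ≠ k₀ → src i = b ∧ tgt i = b) (v : List ι)
    (hv : pth src tgt a v b ∧ v.toFinset = R) (r : ι → U) (hr : C.Srt src tgt r) (ρ : ℕ → U)
    (hρr : ∀ i ∈ R, i ≠ k₀ → ρ (enc i) = r i) :
    C.wv r a v = r k₀ * FreeAlgebra.lift ℤ ρ (mon (v.tail.map enc)) := by
  obtain ⟨hp, hvR⟩ := hv
  have hw : ∀ i ∈ v, i ∈ R := fun i hi => by rw [← hvR]; exact List.mem_toFinset.2 hi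
  have hkv : k₀ ∈ v := by rw [← hvR] at hk; exact List.mem_toFinset.1 hk
  have hvne : v ≠ [] := List.ne_nil_of_mem hkv
  rw [C.wv_eq hr hvne hp, ty3_lift]
  cases v with
  | nil => exact absurd rfl hvne
  | cons j w =>
    obtain ⟨h6, h7⟩ := hp
    have hj : j = k₀ := by
      by_contra hj
      exact hab (h6.symm.trans (hR j (hw j (by simp)) hj).1)
    subst hj
    rw [hk2] at h7
    have h3 := ty3_loops C hab hk1 hR w b h7 (fun i hi => hw i (List.mem_cons_of_mem _ hi))
    rw [List.tail_cons, List.map_map, List.map_cons, List.prod_cons]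
    have e1 : w.map (ρ ∘ enc) = w.map r := by
      refine List.map_congr_left fun i hi => ?_
      exact hρr i (hw i (by simp [hi])) (h3 i hi)
    rw [e1]

theorem ty3 (hC : C.Cub) {T : Submodule ℤ P} (hT : C.Dst T) {V : Fin 3 → AddSubgroup U}
    (hV : C.Vals V) (src tgt : ι → Fin (C.s + 1)) (a b : Fin (C.s + 1)) (hab : a ≠ b)
    (R : Finset ι) (c c' : List ι →₀ ℤ)
    (hc : ∀ v ∈ c.support, pth src tgt a v b ∧ v.toFinset = R)
    (hc' : ∀ v ∈ c'.support, pth src tgt a v b ∧ v.toFinset = R)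
    (h : ∀ r, C.Srt src tgt r → In3 V (C.val r a c) (C.val r a c'))
    (k₀ : ι) (hk : k₀ ∈ R) (hk1 : src k₀ = a) (hk2 : tgt k₀ = b)
    (hR : ∀ k ∈ R, k ≠ k₀ → src k = b ∧ tgt k = b) :
    ∀ r, C.Srt src tgt r → C.val r a c = 0 := by
  classical
  have _ := hC
  let enc : ι → ℕ := fun i => (Fintype.equivFin ι i : ℕ)
  have henc : Function.Injective enc := fun i j hij => (Fintype.equivFin ι).injective (Fin.ext hij)
  have hval : ∀ c : List ι →₀ ℤ, (∀ v ∈ c.support, pth src tgt a v b ∧ v.toFinset = R) →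
      ∀ r : ι → U, C.Srt src tgt r → ∀ ρ : ℕ → U, (∀ i ∈ R, i ≠ k₀ → ρ (enc i) = r i) →
      C.val r a c = r k₀ * FreeAlgebra.lift ℤ ρ (∑ v ∈ c.support, c v • mon (v.tail.map enc)) := by
    intro c hc r hr ρ hρr
    show ∑ v ∈ c.support, c v • C.wv r a v = _
    rw [map_sum, Finset.mul_sum]
    refine Finset.sum_congr rfl fun v hv => ?_
    rw [ty3_word C src tgt a b hab R enc k₀ hk hk1 hk2 hR v (hc v hv) r hr ρ hρr, map_zsmul,
      mul_smul_comm]
  have hkt := C.ktR hT hV b {m | C.S a b m}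
    (fun r m hr hm => C.S_mul hm hr)
    (∑ v ∈ c.support, c v • mon (v.tail.map enc))
    (∑ v ∈ c'.support, c' v • mon (v.tail.map enc))
    (fun m hm => C.S_mem hm)
    (by
      intro ρ hρ t ht
      let r : ι → U := fun i => if i ∈ R then (if i = k₀ then t else ρ (enc i)) else 0
      have hrk : r k₀ = t := by simp [r, hk]
      have hr : C.Srt src tgt r := by
        intro i
        simp only [r]
        split_ifs with i1 i2
        · subst i2; rw [hk1, hk2]; exact ht
        · obtain ⟨j1, j2⟩ := hR i i1 i2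
          rw [j1, j2]; exact hρ _
        · exact C.S_zero _ _
      have hρr : ∀ i ∈ R, i ≠ k₀ → ρ (enc i) = r i := by
        intro i i1 i2
        simp only [r]
        rw [if_pos i1, if_neg i2]
      have e := h r hr
      rw [hval c hc r hr ρ hρr, hval c' hc' r hr ρ hρr, hrk] at e
      exact e)
  intro r hr
  let ρ : ℕ → U := fun n => if hn : ∃ i, i ∈ R ∧ i ≠ k₀ ∧ enc i = n then r hn.choose else 0
  have hρ : ∀ n, C.S b b (ρ n) := by
    intro n
    simp only [ρ]
    split_ifs with hn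
    · obtain ⟨j1, j2, -⟩ := hn.choose_spec
      obtain ⟨j4, j5⟩ := hR _ j1 j2
      have := hr hn.choose
      rwa [j4, j5] at this
    · exact C.S_zero _ _
  have hρr : ∀ i ∈ R, i ≠ k₀ → ρ (enc i) = r i := by
    intro i i1 i2
    have hn : ∃ j, j ∈ R ∧ j ≠ k₀ ∧ enc j = enc i := ⟨i, i1, i2, rfl⟩
    simp only [ρ]
    rw [dif_pos hn]
    congr 1
    exact henc hn.choose_spec.2.2
  rw [hval c hc r hr ρ hρr]
  refine hkt ρ hρ _ ?_
  have := hr k₀
  rwa [hk1, hk2] at this

end Ctx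

end ADN
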