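import Pool.Agent.ADN.Cls
import Pool.Agent.ADN.Ty1
import Pool.Agent.ADN.Ty2
import Pool.Agent.ADN.Ty3
import Pool.Agent.ADN.Ty4
import Pool.Agent.ADN.Ty5
import Pool.Agent.ADN.Ty6

namespace ADN

open AD

namespace Ctx

variable {U : Type} [Ring U] (C : Ctx U)
variable {ι : Type} [Fintype ι] [DecidableEq ι]

theorem tat (hC : C.Cub) {T : Submodule ℤ P} (hT : C.Dst T) {V : Fin 3 → AddSubgroup U}
    (hV : C.Vals V) (src tgt : ι → Fin (C.s + 1)) (a b : Fin (C.s + 1)) (R : Finset ι)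
    (c c' : List ι →₀ ℤ) (hc : ∀ v ∈ c.support, pth src tgt a v b ∧ v.toFinset = R)
    (hc' : ∀ v ∈ c'.support, pth src tgt a v b ∧ v.toFinset = R)
    (h0 : a = 0 → c [] = 0 ∧ c' [] = 0)
    (h : ∀ r, C.Srt src tgt r → In3 V (C.val r a c) (C.val r a c')) :
    ∀ r, C.Srt src tgt r → C.val r a c = 0 := by
  by_contra hcon
  push Not at hcon
  obtain ⟨r, hr, hne⟩ := hcon
  obtain ⟨v, hv, hvne⟩ : ∃ v ∈ c.support, C.wv r a v ≠ 0 := by
    by_contra h'
    push Not at h'
    apply hne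
    unfold val Finsupp.sum
    apply Finset.sum_eq_zero
    intro v hv
    show c v • C.wv r a v = 0
    rw [h' v hv, smul_zero]
  have hvR := (hc v hv).2
  have hmem : ∀ k, k ∈ R ↔ k ∈ v := by
    intro k
    rw [← hvR, List.mem_toFinset]
  rcases C.cls hC hr v a b (hc v hv).1 hvne with h1 | h2 | h3 | h4 | h5 | h6
  · obtain ⟨rfl, hl⟩ := h1
    exact hne (C.ty1 hC hT hV src tgt a R c c' hc hc' h0 h (fun k hk => hl k ((hmem k).1 hk)) r hr)
  · obtain ⟨hab, v₁, k, rfl, hl, hk1, hk2⟩ := h2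
    refine hne (C.ty2 hC hT hV src tgt a b hab R c c' hc hc' h k ((hmem k).2 (by simp)) hk1 hk2
      (fun i hi hik => ?_) r hr)
    have := (hmem i).1 hi
    simp only [List.mem_append, List.mem_singleton] at this
    rcases this with h' | h'
    · exact hl i h'
    · exact absurd h' hik
  · obtain ⟨hab, v₁, k, rfl, hl, hk1, hk2⟩ := h3
    refine hne (C.ty3 hC hT hV src tgt a b hab R c c' hc hc' h k ((hmem k).2 (by simp)) hk1 hk2
      (fun i hi hik => ?_) r hr)
    have := (hmem i).1 hi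
    simp only [List.mem_cons] at this
    rcases this with h' | h'
    · exact absurd h' hik
    · exact hl i h'
  · obtain ⟨rfl, v₁, v₂, k, l, g, hg, rfl, hl1, hl2, hk1, hk2, hl3, hl4⟩ := h4
    refine hne (C.ty4 hC hT hV src tgt a g hg R c c' hc hc' h k l ((hmem k).2 (by simp))
      ((hmem l).2 (by simp)) hk1 hk2 hl3 hl4 (fun i hi hik hil => ?_) r hr)
    have := (hmem i).1 hi
    simp only [List.mem_append, List.mem_cons] at this
    rcases this with h' | h' | h' | h'
    · exact hl1 i h'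
    · exact absurd h' hik
    · exact absurd h' hil
    · exact hl2 i h'
  · obtain ⟨k, l, g, rfl, hab, hga, hgb, hk1, hk2, hl1, hl2⟩ := h5
    exact hne (C.ty5 hV src tgt a g b hab hga hgb R c c' hc hc' h k l hk1 hk2 hl1 hl2
      (by rw [← hvR]; simp) r hr)
  · obtain ⟨hab, k, l, m, rfl, hk1, hk2, hl1, hl2, hm1, hm2⟩ := h6
    exact hne (C.ty6 hC hV src tgt a b hab R c c' hc hc' h k l m hk1 hk2 hl1 hl2 hm1 hm2
      (by rw [← hvR]; simp) r hr)

end Ctx

end ADN
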